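import Pool.Agent.Helper57.Tri.Swap

/-! Existence of the combinatorial structure. -/

set_option autoImplicit false

namespace Pool.Agent.Tri
namespace Cf

variable {V E : Type}

/-- the combinatorial axioms do not involve `x`, `y` -/
theorem Ok.upd {c : Cf V E} (hc : c.Ok) (x' y' : E → ℝ) : ({ c with x := x', y := y' } : Cf V E).Ok :=
  { mem_iff := hc.mem_iff
    va1 := hc.va1
    va2 := hc.va2
    va3 := hc.va3
    eb1 := hc.eb1
    eb2 := hc.eb2
    eb3 := hc.eb3
    ne1 := hc.ne1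
    ne2 := hc.ne2
    ne3 := hc.ne3
    anti := hc.anti
    simp := hc.simp
    lin := hc.lin
    memF := hc.memF
    memP := hc.memP
    memQ := hc.memQ
    memh := hc.memh
    maxF := hc.maxF
    maxP := hc.maxP
    maxQ := hc.maxQ
    sdL := hc.sdL
    sdR := hc.sdR
    CL := hc.CL
    CR := hc.CR
    A_top := hc.A_top
    A_bot := hc.A_bot
    h_top := hc.h_top
    h_pq := hc.h_pq
    h_none := hc.h_none
    h_else := hc.h_else
    T_inj := hc.T_inj
    T_lev := hc.T_lev
    T_lt := hc.T_lt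
    lev_le := hc.lev_le
    lev_nb := hc.lev_nb
    lev_btP := hc.lev_btP
    lev_btQ := hc.lev_btQ
    lev_bt := hc.lev_bt }

/-- the two sequences, by recursion -/
private noncomputable def seqKD (M : ℝ) : ℕ → ℝ × ℝ
  | 0 => (1, 1)
  | t + 1 => (M * (seqKD M t).1 / (seqKD M t).2,
      (seqKD M t).2 / (M * (M * (seqKD M t).1 / (seqKD M t).2)))

/-- the host is unique -/
private theorem ex1_host_unique (c : Cf V E)
    (mem_iff : ∀ v e, c.mem v e ↔ (c.a1 v < c.b1 e ∧ c.a2 v < c.b2 e ∧ c.a3 v < c.b3 e))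
    (lin : ∀ u v e f, u ≠ v → c.mem u e → c.mem v e → c.mem u f → c.mem v f → e = f)
    (memF : ∀ w, c.mem w (c.F w)) (memP : ∀ w, c.mem w (c.P w)) (memQ : ∀ w, c.mem w (c.Q w))
    (maxF : ∀ w e, c.mem w e → c.b3 e ≤ c.b3 (c.F w))
    (maxP : ∀ w e, c.mem w e → c.b1 e ≤ c.b1 (c.P w))
    (maxQ : ∀ w e, c.mem w e → c.b2 e ≤ c.b2 (c.Q w))
    {w w' : V} {e : E} (h : c.host w e) (h' : c.host w' e) : w = w' := by
  by_contra hne
  have key : ∀ u v : V, u ≠ v → c.host u e → c.host v e →
      (c.a2 u < c.a2 v ∨ c.a3 u < c.a3 v) ∧ (c.a1 u < c.a1 v ∨ c.a3 u < c.a3 v) ∧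
        (c.a1 u < c.a1 v ∨ c.a2 u < c.a2 v) := by
    intro u v huv hu hv
    obtain ⟨hu0, huF, huP, huQ⟩ := hu
    have hv0 := hv.1
    have hP : ¬ c.mem v (c.P u) := fun hm => huP (lin u v e (c.P u) huv hu0 hv0 (memP u) hm)
    have hQ : ¬ c.mem v (c.Q u) := fun hm => huQ (lin u v e (c.Q u) huv hu0 hv0 (memQ u) hm)
    have hF : ¬ c.mem v (c.F u) := fun hm => huF (lin u v e (c.F u) huv hu0 hv0 (memF u) hm)
    rw [mem_iff] at hP hQ hF
    obtain ⟨v1, v2, v3⟩ := (mem_iff v e).1 hv0
    obtain ⟨p1, p2, p3⟩ := (mem_iff u _).1 (memP u)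
    obtain ⟨q1, q2, q3⟩ := (mem_iff u _).1 (memQ u)
    obtain ⟨f1, f2, f3⟩ := (mem_iff u _).1 (memF u)
    have m1 := maxP u e hu0
    have m2 := maxQ u e hu0
    have m3 := maxF u e hu0
    refine ⟨?_, ?_, ?_⟩ <;> omega
  have h1 := key w w' hne h h'
  have h2 := key w' w (Ne.symm hne) h' h
  omega

theorem exists_ok [Fintype V] [Fintype E] (a1 a2 a3 : V → ℤ) (b1 b2 b3 : E → ℤ)
    (mem : V → E → Prop)
    (mem_iff : ∀ v e, mem v e ↔ (a1 v < b1 e ∧ a2 v < b2 e ∧ a3 v < b3 e))
    (va1 : ∀ u v, a1 u = a1 v → u = v) (va2 : ∀ u v, a2 u = a2 v → u = v)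
    (va3 : ∀ u v, a3 u = a3 v → u = v)
    (eb1 : ∀ e f, b1 e = b1 f → e = f) (eb2 : ∀ e f, b2 e = b2 f → e = f)
    (eb3 : ∀ e f, b3 e = b3 f → e = f)
    (ne1 : ∀ v e, a1 v ≠ b1 e) (ne2 : ∀ v e, a2 v ≠ b2 e) (ne3 : ∀ v e, a3 v ≠ b3 e)
    (anti : ∀ u v, ¬ (a1 u < a1 v ∧ a2 u < a2 v ∧ a3 u < a3 v))
    (simp : ∀ e f, e ≠ f → ∃ v, mem v e ∧ ¬ mem v f)
    (lin : ∀ u v e f, u ≠ v → mem u e → mem v e → mem u f → mem v f → e = f)
    (cov : ∀ v, ∃ e, mem v e) :
    ∃ c : Cf V E, c.mem = mem ∧ c.Ok ∧ c.Sq := by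
  classical
  have hmax : ∀ (b : E → ℤ) (s : E → Prop), (∃ e, s e) → ∃ g, s g ∧ ∀ e, s e → b e ≤ b g := by
    intro b s hs
    obtain ⟨e0, he0⟩ := hs
    obtain ⟨g, hg, hg'⟩ := Finset.exists_max_image (Finset.univ.filter s) b
      ⟨e0, Finset.mem_filter.2 ⟨Finset.mem_univ _, he0⟩⟩
    exact ⟨g, (Finset.mem_filter.1 hg).2,
      fun e he => hg' e (Finset.mem_filter.2 ⟨Finset.mem_univ _, he⟩)⟩
  have hmin : ∀ (b : E → ℤ) (s : E → Prop), (∃ e, s e) → ∃ g, s g ∧ ∀ e, s e → b g ≤ b e := by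
    intro b s hs
    obtain ⟨g, hg, hg'⟩ := hmax (fun e => - b e) s hs
    exact ⟨g, hg, fun e he => by have := hg' e he; omega⟩
  choose F hF1 hF2 using fun v => hmax b3 (mem v) (cov v)
  choose P hP1 hP2 using fun v => hmax b1 (mem v) (cov v)
  choose Q hQ1 hQ2 using fun v => hmax b2 (mem v) (cov v)
  let c0 : Cf V E :=
    { a1 := a1, a2 := a2, a3 := a3, b1 := b1, b2 := b2, b3 := b3, mem := mem, F := F, P := P,
      Q := Q, h := F, A := F, C := fun w _ => Q w, sd := fun _ => False, T := fun _ => 0,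
      lev := fun _ => 0, m := 0, M := 0, K := fun _ => 0, D := fun _ => 0, x := fun _ => 0,
      y := fun _ => 0 }
  have hu : ∀ {w w' : V} {e : E}, c0.host w e → c0.host w' e → w = w' := by
    intro w w' e h h'
    exact ex1_host_unique c0 mem_iff lin hF1 hP1 hQ1 hF2 hP2 hQ2 h h'
  have hh : ∀ w, ∃ g, mem w g ∧ (c0.top w → ∀ e, c0.LR w e → c0.LR w g ∧ b3 e ≤ b3 g) ∧
      (¬ c0.top w → c0.pq w → ∀ e, c0.LR w e → c0.LR w g ∧ b3 g ≤ b3 e) ∧
      ((∀ e, ¬ c0.LR w e) → g = F w) ∧ (¬ c0.top w → ¬ c0.pq w → g = F w) := by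
    intro w
    by_cases hLR : ∃ e, c0.LR w e
    · by_cases ht : c0.top w
      · obtain ⟨g, hg, hg'⟩ := hmax b3 (c0.LR w) hLR
        exact ⟨g, hg.1.1, fun _ e he => ⟨hg, hg' e he⟩, fun h => absurd ht h,
          fun h => absurd hg (h g), fun h => absurd ht h⟩
      · by_cases hpq : c0.pq w
        · obtain ⟨g, hg, hg'⟩ := hmin b3 (c0.LR w) hLR
          exact ⟨g, hg.1.1, fun h => absurd h ht, fun _ _ e he => ⟨hg, hg' e he⟩,
            fun h => absurd hg (h g), fun _ h => absurd hpq h⟩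
        · exact ⟨F w, hF1 w, fun h => absurd h ht, fun _ h => absurd h hpq, fun _ => rfl,
            fun _ _ => rfl⟩
    · exact ⟨F w, hF1 w, fun _ e he => absurd ⟨e, he⟩ hLR, fun _ _ e he => absurd ⟨e, he⟩ hLR,
        fun _ => rfl, fun _ _ => rfl⟩
  choose h hh1 hh2 hh3 hh4 hh5 using hh
  have hl : ∀ e, ∃ l : ℤ, l ≤ 2 * b3 e ∧ ((∀ w, ¬ c0.BT w e) → l = 2 * b3 e) ∧
      (∀ w, c0.BT w e → l ≤ 2 * b3 (P w) - 1 ∧ l ≤ 2 * b3 (Q w) - 1 ∧
        (l = 2 * b3 e ∨ l = 2 * b3 (P w) - 1 ∨ l = 2 * b3 (Q w) - 1)) := by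
    intro e
    by_cases hb : ∃ w, c0.BT w e
    · obtain ⟨w, hw⟩ := hb
      refine ⟨min (2 * b3 e) (min (2 * b3 (P w) - 1) (2 * b3 (Q w) - 1)), ?_, ?_, ?_⟩
      · omega
      · intro hn
        exact absurd hw (hn w)
      · intro w' hw'
        have : w' = w := hu hw'.1 hw.1
        subst this
        omega
    · refine ⟨2 * b3 e, le_rfl, fun _ => rfl, fun w hw => absurd ⟨w, hw⟩ hb⟩
  choose lev hl1 hl2 hl3 using hl
  let R : E → E → Prop := fun f e => lev e < lev f ∨ (lev f = lev e ∧ b1 f < b1 e)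
  have hRirr : ∀ e, ¬ R e e := by
    intro e he
    rcases he with h1 | ⟨_, h1⟩ <;> omega
  have hRtrans : ∀ e f g, R e f → R f g → R e g := by
    intro e f g h1 h2
    rcases h1 with h1 | ⟨h1, h1'⟩ <;> rcases h2 with h2 | ⟨h2, h2'⟩
    · left; omega
    · left; omega
    · left; omega
    · right; constructor <;> omega
  have hRtri : ∀ e f, e ≠ f → R e f ∨ R f e := by
    intro e f hef
    have hb : b1 e ≠ b1 f := fun h => hef (eb1 e f h)
    rcases lt_trichotomy (lev e) (lev f) with h1 | h1 | h1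
    · exact Or.inr (Or.inl h1)
    · rcases lt_or_gt_of_ne hb with h2 | h2
      · exact Or.inl (Or.inr ⟨h1, h2⟩)
      · exact Or.inr (Or.inr ⟨h1.symm, h2⟩)
    · exact Or.inl (Or.inl h1)
  let T : E → ℕ := fun e => (Finset.univ.filter (fun f => R f e)).card
  have hTlt : ∀ e f, R e f → T e < T f := by
    intro e f hef
    apply Finset.card_lt_card
    rw [Finset.ssubset_iff_of_subset]
    · exact ⟨e, Finset.mem_filter.2 ⟨Finset.mem_univ _, hef⟩,
        fun hm => hRirr e (Finset.mem_filter.1 hm).2⟩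
    · intro g hg
      rw [Finset.mem_filter] at hg ⊢
      exact ⟨hg.1, hRtrans g e f hg.2 hef⟩
  let M : ℝ := 2 ^ (Fintype.card E + 10)
  let c : Cf V E :=
    { a1 := a1, a2 := a2, a3 := a3, b1 := b1, b2 := b2, b3 := b3, mem := mem, F := F, P := P,
      Q := Q, h := h, A := fun w => if c0.top w then h w else F w,
      C := fun w e => if (∃ w', c0.host w' e ∧ c0.hasL w' e) then Q w else P w,
      sd := fun e => ∃ w, c0.host w e ∧ c0.hasL w e, T := T,
      lev := lev, m := Fintype.card E, M := M, K := fun t => (seqKD M t).1,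
      D := fun t => (seqKD M t).2, x := fun _ => 0,
      y := fun _ => 0 }
  refine ⟨c, rfl, ?_, ?_⟩
  · exact
      { mem_iff := mem_iff
        va1 := va1
        va2 := va2
        va3 := va3
        eb1 := eb1
        eb2 := eb2
        eb3 := eb3
        ne1 := ne1
        ne2 := ne2
        ne3 := ne3
        anti := anti
        simp := simp
        lin := lin
        memF := hF1
        memP := hP1
        memQ := hQ1
        memh := hh1
        maxF := hF2
        maxP := hP2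
        maxQ := hQ2
        sdL := by
          intro w e hw hs
          obtain ⟨w', h1, h2⟩ := hs
          have : w = w' := hu hw.1 h1
          subst this
          exact h2
        sdR := by
          intro w e hw hs
          rcases hw.2 with h1 | h1
          · exact absurd ⟨w, hw.1, h1⟩ hs
          · exact h1
        CL := fun w e hs => if_pos hs
        CR := fun w e hs => if_neg hs
        A_top := fun w ht => if_pos ht
        A_bot := fun w ht => if_neg ht
        h_top := fun w e ht he => hh2 w ht e he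
        h_pq := fun w e ht hp he => hh3 w ht hp e he
        h_none := fun w hn => hh4 w hn
        h_else := fun w ht hp => hh5 w ht hp
        T_inj := by
          intro e f hef
          by_contra hne
          rcases hRtri e f hne with h1 | h1
          · exact absurd hef (hTlt e f h1).ne
          · exact absurd hef (hTlt f e h1).ne'
        T_lev := by
          intro e f hef
          have hef' : T e < T f := hef
          have hne : e ≠ f := by
            rintro rfl
            exact lt_irrefl _ hef'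
          rcases hRtri e f hne with h1 | h1
          · show lev f ≤ lev e
            rcases h1 with h1 | ⟨h1, _⟩ <;> omega
          · exact absurd (hTlt f e h1) (by omega)
        T_lt := by
          intro e
          show (Finset.univ.filter (fun f => R f e)).card < Fintype.card E
          rw [← Finset.card_univ]
          apply Finset.card_lt_card
          rw [Finset.ssubset_iff_of_subset (Finset.filter_subset _ _)]
          exact ⟨e, Finset.mem_univ _, fun hm => hRirr e (Finset.mem_filter.1 hm).2⟩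
        lev_le := hl1
        lev_nb := fun e hn => hl2 e hn
        lev_btP := fun w e hb => (hl3 e w hb).1
        lev_btQ := fun w e hb => (hl3 e w hb).2.1
        lev_bt := fun w e hb => (hl3 e w hb).2.2 }
  · exact
      { K0 := rfl
        D0 := rfl
        KS := fun t => rfl
        DS := fun t => rfl
        hM := le_rfl }

end Cf
end Pool.Agent.Tri
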