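import Pool.Agent.Helper57.Tri.Base

/-! The sequences `K` (depths) and `D` (gaps). -/

set_option autoImplicit false

namespace Pool.Agent.Tri
namespace Cf

variable {V E : Type} {c : Cf V E}

theorem Sq.M_ge (hs : c.Sq) : 1024 ≤ c.M := by
  have h1 : (2 : ℝ) ^ 10 ≤ 2 ^ (c.m + 10) :=
    pow_le_pow_right₀ (by norm_num) (by omega)
  have h2 := hs.hM
  norm_num at h1
  linarith

private theorem Sq.aux (hs : c.Sq) (t : ℕ) : 1 ≤ c.K t ∧ 0 < c.D t ∧ c.D t ≤ 1 := by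
  have hM := hs.M_ge
  induction t with
  | zero => rw [hs.K0, hs.D0]; norm_num
  | succ t ih =>
    obtain ⟨h1, h2, h3⟩ := ih
    have hK : 1 ≤ c.K (t + 1) := by
      rw [hs.KS, le_div_iff₀ h2]
      nlinarith
    have hMK : 1 ≤ c.M * c.K (t + 1) := by nlinarith
    have hpos : 0 < c.M * c.K (t + 1) := by linarith
    refine ⟨hK, ?_, ?_⟩
    · rw [hs.DS]; exact div_pos h2 hpos
    · rw [hs.DS, div_le_iff₀ hpos]; linarith

theorem Sq.pos (hs : c.Sq) (t : ℕ) : 0 < c.K t ∧ 0 < c.D t := by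
  obtain ⟨h1, h2, _⟩ := hs.aux t
  exact ⟨by linarith, h2⟩

theorem Sq.K_pos (hs : c.Sq) (t : ℕ) : 0 < c.K t := (hs.pos t).1

theorem Sq.D_pos (hs : c.Sq) (t : ℕ) : 0 < c.D t := (hs.pos t).2

/-- `K (t+1) D t = M K t` -/
theorem Sq.KD (hs : c.Sq) (t : ℕ) : c.K (t + 1) * c.D t = c.M * c.K t := by
  rw [hs.KS, div_mul_cancel₀ _ (hs.D_pos t).ne']

/-- `D (t+1) (M K (t+1)) = D t` -/
theorem Sq.DK (hs : c.Sq) (t : ℕ) : c.D (t + 1) * (c.M * c.K (t + 1)) = c.D t := by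
  have h1 : 0 < c.M * c.K (t + 1) := mul_pos (by linarith [hs.M_ge]) (hs.K_pos _)
  rw [hs.DS, div_mul_cancel₀ _ h1.ne']

theorem Sq.D_le1 (hs : c.Sq) (t : ℕ) : c.D t ≤ 1 := (hs.aux t).2.2

theorem Sq.K_ge1 (hs : c.Sq) (t : ℕ) : 1 ≤ c.K t := (hs.aux t).1

theorem Sq.D_M (hs : c.Sq) (t : ℕ) : c.M * c.D (t + 1) ≤ c.D t := by
  rw [← hs.DK t]
  have h1 := hs.D_pos (t + 1)
  have h2 := hs.K_ge1 (t + 1)
  have h3 := hs.M_ge
  have h4 : 0 ≤ c.D (t + 1) * c.M := by nlinarith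
  nlinarith

theorem Sq.D_anti (hs : c.Sq) {s t : ℕ} (h : s ≤ t) : c.D t ≤ c.D s := by
  have h1 : Antitone c.D := by
    refine antitone_nat_of_succ_le fun n => ?_
    have h2 := hs.D_M n
    have h3 := hs.D_pos (n + 1)
    have h4 := hs.M_ge
    nlinarith
  exact h1 h

private theorem Sq.K_succ (hs : c.Sq) (t : ℕ) : c.M * c.K t ≤ c.K (t + 1) := by
  rw [← hs.KD t]
  have h1 := hs.D_le1 t
  have h2 := hs.K_pos (t + 1)
  nlinarith

theorem Sq.K_mono (hs : c.Sq) {s t : ℕ} (h : s ≤ t) : c.K s ≤ c.K t := by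
  have h1 : Monotone c.K := by
    refine monotone_nat_of_le_succ fun n => ?_
    have h2 := hs.K_succ n
    have h3 := hs.K_pos n
    have h4 := hs.M_ge
    nlinarith
  exact h1 h

theorem Sq.K_M (hs : c.Sq) {s t : ℕ} (h : s < t) : c.M * c.K s ≤ c.K t :=
  (hs.K_succ s).trans (hs.K_mono h)

theorem Sq.K_lt (hs : c.Sq) {s t : ℕ} (h : s < t) : c.K s < c.K t := by
  have h1 := hs.K_M h
  have h2 := hs.K_pos s
  have h3 := hs.M_ge
  nlinarith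

/-- for `s < t`: `K t D s ≥ M K s` -/
theorem Sq.KD_ge (hs : c.Sq) {s t : ℕ} (h : s < t) : c.M * c.K s ≤ c.K t * c.D s := by
  rw [← hs.KD s]
  exact mul_le_mul_of_nonneg_right (hs.K_mono h) (hs.D_pos s).le

/-- `M D (b+1) K (b+1) = D b` -/
theorem Sq.DKb (hs : c.Sq) (b : ℕ) : c.M * (c.D (b + 1) * c.K (b + 1)) = c.D b := by
  rw [← hs.DK b]; ring

/-- the cluster displacement is tiny: for `a < b`:
`D (b+1) K (a+1) ≤ D (b+1) K (b+1) = D b / M ≤ D (a+1) / M` -/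
theorem Sq.tiny (hs : c.Sq) {a b : ℕ} (h : a < b) :
    c.M * (c.D (b + 1) * c.K (a + 1)) ≤ c.D (a + 1) := by
  have h1 : c.K (a + 1) ≤ c.K (b + 1) := hs.K_mono (by omega)
  have h2 : c.D (b + 1) * c.K (a + 1) ≤ c.D (b + 1) * c.K (b + 1) :=
    mul_le_mul_of_nonneg_left h1 (hs.D_pos _).le
  have h3 : c.M * (c.D (b + 1) * c.K (a + 1)) ≤ c.M * (c.D (b + 1) * c.K (b + 1)) :=
    mul_le_mul_of_nonneg_left h2 (by linarith [hs.M_ge])
  rw [hs.DKb b] at h3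
  exact h3.trans (hs.D_anti h)

end Cf
end Pool.Agent.Tri
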