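import Pool.Agent.Helper57.Tri.CB
import Pool.Agent.Helper57.Tri.SQ

/-! Existence of `x`. -/

set_option autoImplicit false

namespace Pool.Agent.Tri
namespace Cf

variable {V E : Type}

/-- recursion along `T` -/
theorem ex2_rec (T : E → ℕ) (R : E → (E → ℝ) → ℝ → Prop)
    (hloc : ∀ (e : E) (x x' : E → ℝ) (r : ℝ), (∀ g, T g < T e → x g = x' g) → R e x r → R e x' r)
    (hex : ∀ (e : E) (x : E → ℝ), ∃ r, R e x r) : ∃ x : E → ℝ, ∀ e, R e x (x e) := by
  classical
  have hwf : WellFounded (InvImage (· < ·) T) := InvImage.wf T Nat.lt_wfRel.wf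
  let F : ∀ e : E, (∀ g : E, InvImage (· < ·) T g e → ℝ) → ℝ := fun e rec =>
    Classical.choose (hex e (fun g => if h : T g < T e then rec g h else 0))
  let x : E → ℝ := hwf.fix F
  refine ⟨x, fun e => ?_⟩
  have h1 : x e = F e (fun g _ => x g) := hwf.fix_eq F e
  rw [h1]
  refine hloc e _ x _ ?_ (Classical.choose_spec
    (hex e (fun g => if h : T g < T e then (fun g _ => x g : ∀ g : E, InvImage (· < ·) T g e → ℝ) g h else 0)))
  intro g hg
  simp only [dif_pos hg]

/-- Proof. Induction on `n`: there is `x` such that the rules hold for all `e` with `T e < n`. The rules at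
`e` involve `x` only at `e` and at edges with smaller `T` (`LowC`, `UpC` contain `T g < T e`; `A w`: `Ho_A`).
Step: at most one `e` has `T e = n` (T_inj); change `x` there. Free `e`: `L` = maximum of `-1` and the `x g`,
`g ∈ LowC e`, `U` = minimum of `1` and the `x g`, `g ∈ UpC e` (finite sets). Hosted `e`: the host is unique.
Take `n = m`. -/
theorem exists_x [Fintype V] [Fintype E] (c : Cf V E) (hc : c.Ok) (hs : c.Sq) :
    ∃ x' : E → ℝ, ({ c with x := x' } : Cf V E).XR := by
  classical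
  let _ := hs
  let R : E → (E → ℝ) → ℝ → Prop := fun e x r =>
    ((∀ w, ¬ c.Ho w e) → ∃ L U : ℝ, r = (L + U) / 2 ∧ -1 ≤ L ∧ U ≤ 1 ∧
      (∀ g, c.LowC e g → x g ≤ L) ∧ (∀ g, c.UpC e g → U ≤ x g) ∧
      (L = -1 ∨ ∃ g, c.LowC e g ∧ L = x g) ∧ (U = 1 ∨ ∃ g, c.UpC e g ∧ U = x g)) ∧
    (∀ w, c.Ho w e → c.pq w → r = x (c.A w)) ∧
    (∀ w, c.Ho w e → ¬ c.pq w → c.sd e →
      r = x (c.A w) - c.D (c.T (c.Q w) + 1) * c.K (c.T e + 1)) ∧
    (∀ w, c.Ho w e → ¬ c.pq w → ¬ c.sd e →
      r = x (c.A w) + c.D (c.T (c.P w) + 1) * c.K (c.T e + 1))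
  obtain ⟨x, hx⟩ := ex2_rec c.T R (by
    rintro e x x' r hxx ⟨h1, h2, h3, h4⟩
    refine ⟨fun h => ?_, fun w hw hq => ?_, fun w hw hq hd => ?_, fun w hw hq hd => ?_⟩
    · obtain ⟨L, U, hr, hL, hU, a1, a2, a3, a4⟩ := h1 h
      refine ⟨L, U, hr, hL, hU, fun g hg => ?_, fun g hg => ?_, ?_, ?_⟩
      · rw [← hxx g hg.1]
        exact a1 g hg
      · rw [← hxx g hg.1]
        exact a2 g hg
      · rcases a3 with a3 | ⟨g, hg, a3⟩
        · exact Or.inl a3
        · exact Or.inr ⟨g, hg, by rw [a3, hxx g hg.1]⟩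
      · rcases a4 with a4 | ⟨g, hg, a4⟩
        · exact Or.inl a4
        · exact Or.inr ⟨g, hg, by rw [a4, hxx g hg.1]⟩
    · rw [← hxx _ (hc.Ho_A hw)]
      exact h2 w hw hq
    · rw [← hxx _ (hc.Ho_A hw)]
      exact h3 w hw hq hd
    · rw [← hxx _ (hc.Ho_A hw)]
      exact h4 w hw hq hd) (by
    intro e x
    by_cases hfree : ∀ w, ¬ c.Ho w e
    · -- free
      have hmax : ∃ L : ℝ, -1 ≤ L ∧ (∀ g, c.LowC e g → x g ≤ L) ∧
          (L = -1 ∨ ∃ g, c.LowC e g ∧ L = x g) := by
        let S : Finset ℝ := insert (-1) ((Finset.univ.filter (fun g => c.LowC e g)).image x)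
        have hne : S.Nonempty := ⟨-1, Finset.mem_insert_self _ _⟩
        refine ⟨S.max' hne, S.le_max' _ (Finset.mem_insert_self _ _), fun g hg => ?_, ?_⟩
        · refine S.le_max' _ (Finset.mem_insert_of_mem (Finset.mem_image_of_mem x ?_))
          exact Finset.mem_filter.2 ⟨Finset.mem_univ _, hg⟩
        · rcases Finset.mem_insert.1 (S.max'_mem hne) with h | h
          · exact Or.inl h
          · obtain ⟨g, hg, hgx⟩ := Finset.mem_image.1 h
            exact Or.inr ⟨g, (Finset.mem_filter.1 hg).2, hgx.symm⟩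
      have hmin : ∃ U : ℝ, U ≤ 1 ∧ (∀ g, c.UpC e g → U ≤ x g) ∧
          (U = 1 ∨ ∃ g, c.UpC e g ∧ U = x g) := by
        let S : Finset ℝ := insert 1 ((Finset.univ.filter (fun g => c.UpC e g)).image x)
        have hne : S.Nonempty := ⟨1, Finset.mem_insert_self _ _⟩
        refine ⟨S.min' hne, S.min'_le _ (Finset.mem_insert_self _ _), fun g hg => ?_, ?_⟩
        · refine S.min'_le _ (Finset.mem_insert_of_mem (Finset.mem_image_of_mem x ?_))
          exact Finset.mem_filter.2 ⟨Finset.mem_univ _, hg⟩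
        · rcases Finset.mem_insert.1 (S.min'_mem hne) with h | h
          · exact Or.inl h
          · obtain ⟨g, hg, hgx⟩ := Finset.mem_image.1 h
            exact Or.inr ⟨g, (Finset.mem_filter.1 hg).2, hgx.symm⟩
      obtain ⟨L, hL, a1, a3⟩ := hmax
      obtain ⟨U, hU, a2, a4⟩ := hmin
      exact ⟨(L + U) / 2, fun _ => ⟨L, U, rfl, hL, hU, a1, a2, a3, a4⟩,
        fun w hw => absurd hw (hfree w), fun w hw => absurd hw (hfree w),
        fun w hw => absurd hw (hfree w)⟩
    · push Not at hfree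
      obtain ⟨w, hw⟩ := hfree
      have huniq : ∀ z, c.Ho z e → z = w := fun z hz => hc.host_unique hz.1.1 hw.1.1
      by_cases hq : c.pq w
      · refine ⟨x (c.A w), fun h => absurd hw (h w), ?_, ?_, ?_⟩
        · intro z hz _
          rw [huniq z hz]
        · intro z hz h
          exact absurd (huniq z hz ▸ hq) h
        · intro z hz h
          exact absurd (huniq z hz ▸ hq) h
      · by_cases hd : c.sd e
        · refine ⟨x (c.A w) - c.D (c.T (c.Q w) + 1) * c.K (c.T e + 1),
            fun h => absurd hw (h w), ?_, ?_, ?_⟩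
          · intro z hz h
            exact absurd (huniq z hz ▸ h) hq
          · intro z hz _ _
            rw [huniq z hz]
          · intro z hz _ h
            exact absurd hd h
        · refine ⟨x (c.A w) + c.D (c.T (c.P w) + 1) * c.K (c.T e + 1),
            fun h => absurd hw (h w), ?_, ?_, ?_⟩
          · intro z hz h
            exact absurd (huniq z hz ▸ h) hq
          · intro z hz _ h
            exact absurd h hd
          · intro z hz _ _
            rw [huniq z hz])
  exact ⟨x, ⟨fun e h => (hx e).1 h, fun w e hw hq => (hx e).2.1 w hw hq,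
    fun w e hw hq hd => (hx e).2.2.1 w hw hq hd, fun w e hw hq hd => (hx e).2.2.2 w hw hq hd⟩⟩

end Cf
end Pool.Agent.Tri
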