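import Pool.Agent.Helper57.Tri.YA

/-! Existence of `y`. -/

set_option autoImplicit false

namespace Pool.Agent.Tri
namespace Cf

variable {V E : Type}

/-- recursion along `T` -/
theorem ex3_rec (T : E → ℕ) (R : E → (E → ℝ) → ℝ → Prop)
    (hloc : ∀ (e : E) (x x' : E → ℝ) (r : ℝ), (∀ g, T g < T e → x g = x' g) → R e x r → R e x' r)
    (hex : ∀ (e : E) (x : E → ℝ), ∃ r, R e x r) : ∃ x : E → ℝ, ∀ e, R e x (x e) := by
  classical
  have hwf : WellFounded (InvImage (· < ·) T) := InvImage.wf T Nat.lt_wfRel.wf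
  let F : ∀ e : E, (∀ g : E, InvImage (· < ·) T g e → ℝ) → ℝ := fun e rec =>
    Classical.choose (hex e (fun g => if h : T g < T e then rec g h else 0))
  let x : E → ℝ := hwf.fix F
  refine ⟨x, fun e => ?_⟩
  have h1 : x e = F e (fun g _ => x g) := hwf.fix_eq F e
  rw [h1]
  refine hloc e _ x _ ?_ (Classical.choose_spec
    (hex e (fun g => if h : T g < T e then (fun g _ => x g : ∀ g : E, InvImage (· < ·) T g e → ℝ) g h else 0)))
  intro g hg
  simp only [dif_pos hg]

/-- Proof. As `exists_x`: `y e = K (T e + 1)` if `e` is not a bottom edge, and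
`y e = y Q + (y P - y Q) (x e - x Q) / (x P - x Q)` for `BT w e` (bt_TP, bt_TQ: `P w, Q w` are earlier;
`x Q < x P` by `bt_x`). -/
theorem exists_y [Fintype V] [Fintype E] (c : Cf V E) (hc : c.Ok) (hs : c.Sq) (hx : c.XR) :
    ∃ y' : E → ℝ, ({ c with y := y' } : Cf V E).YR := by
  classical
  let R : E → (E → ℝ) → ℝ → Prop := fun e y r =>
    ((∀ w, ¬ c.BT w e) → r = c.K (c.T e + 1)) ∧
    (∀ w, c.BT w e → c.x e * (y (c.P w) - y (c.Q w)) +
      c.x (c.P w) * (y (c.Q w) - r) + c.x (c.Q w) * (r - y (c.P w)) = 0)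
  obtain ⟨y, hy⟩ := ex3_rec c.T R (by
    rintro e y y' r hyy ⟨h1, h2⟩
    refine ⟨h1, fun w hw => ?_⟩
    rw [← hyy _ (hc.bt_TP hw), ← hyy _ (hc.bt_TQ hw)]
    exact h2 w hw) (by
    intro e y
    by_cases hfree : ∀ w, ¬ c.BT w e
    · exact ⟨c.K (c.T e + 1), fun _ => rfl, fun w hw => absurd hw (hfree w)⟩
    · push Not at hfree
      obtain ⟨w, hw⟩ := hfree
      have huniq : ∀ z, c.BT z e → z = w := fun z hz => hc.host_unique hz.1 hw.1
      have hne : c.x (c.P w) - c.x (c.Q w) ≠ 0 := by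
        have := bt_x hc hs hx hw
        have h3 : 0 < c.x (c.P w) - c.x (c.Q w) := by linarith [this.1, this.2]
        exact h3.ne'
      refine ⟨y (c.Q w) + (y (c.P w) - y (c.Q w)) * (c.x e - c.x (c.Q w)) /
        (c.x (c.P w) - c.x (c.Q w)), fun h => absurd hw (h w), fun z hz => ?_⟩
      rw [huniq z hz]
      field_simp
      ring)
  exact ⟨y, ⟨fun e h => (hy e).1 h, fun w e hw => (hy e).2 w hw⟩⟩

end Cf
end Pool.Agent.Tri
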