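import Mathlib

/-!
Scheme Omega for MP_425fdd_co (helper57): basic definitions.

`V` = vertices, `E` = edges of a simple linear hypergraph whose incidence poset has a realizer of
three linear orders.  `a1 a2 a3` are the positions of the vertices in the three orders, `b1 b2 b3`
those of the edges.  `P w, Q w, F w` are the edges of `w` which are maximal in the orders 1, 2, 3.
The point of the edge `e` is `(x e, y e)` (`y` = depth, growing with the time `T e`).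
-/

set_option autoImplicit false

namespace Pool.Agent.Tri

structure Cf (V E : Type) where
  a1 : V → ℤ
  a2 : V → ℤ
  a3 : V → ℤ
  b1 : E → ℤ
  b2 : E → ℤ
  b3 : E → ℤ
  mem : V → E → Prop
  F : V → E
  P : V → E
  Q : V → E
  h : V → E
  A : V → E
  C : V → E → E
  sd : E → Prop
  T : E → ℕ
  lev : E → ℤ
  m : ℕ
  M : ℝ
  K : ℕ → ℝ
  D : ℕ → ℝ
  x : E → ℝ
  y : E → ℝ

namespace Cf

variable {V E : Type} (c : Cf V E)

/-- `w` hosts `e`: `w ∈ e` and `e` is not maximal among the edges of `w` in any order. -/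
def host (w : V) (e : E) : Prop := c.mem w e ∧ e ≠ c.F w ∧ e ≠ c.P w ∧ e ≠ c.Q w
def hasL (w : V) (e : E) : Prop := ∃ u, c.mem u e ∧ c.a1 u < c.a1 w
def hasR (w : V) (e : E) : Prop := ∃ u, c.mem u e ∧ c.a2 u < c.a2 w
/-- hosted, on the left or right side -/
def LR (w : V) (e : E) : Prop := c.host w e ∧ (c.hasL w e ∨ c.hasR w e)
/-- hosted, at the bottom -/
def BT (w : V) (e : E) : Prop := c.host w e ∧ ¬ c.hasL w e ∧ ¬ c.hasR w e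
def top (w : V) : Prop := c.F w = c.Q w ∨ c.F w = c.P w
def pq (w : V) : Prop := c.P w = c.Q w
def freed (w : V) (e : E) : Prop := c.LR w e ∧ c.top w ∧ e = c.h w
def Ho (w : V) (e : E) : Prop := c.LR w e ∧ ¬ (c.top w ∧ e = c.h w)
def cor (w : V) (g : E) : Prop := g = c.F w ∨ g = c.P w ∨ g = c.Q w ∨ g = c.h w
def alive (z : V) (e : E) : Prop :=
  ¬ c.mem z e ∧ c.T (c.F z) < c.T e ∧ ∃ g, c.mem z g ∧ c.T e < c.T g
def InC (w : V) (s : ℕ) (g : E) : Prop :=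
  g = c.A w ∨ (c.Ho w g ∧ (c.pq w ∨ s ≤ c.T (c.C w g)))
def Clu (s : ℕ) (g e : E) : Prop := g ≠ e ∧ ∃ w, c.InC w s g ∧ c.InC w s e
def Prec (g e : E) : Prop :=
  c.x g ≤ c.x e ∧
  (¬ c.Clu (max (c.T g) (c.T e)) g e → c.x g + c.D (max (c.T g) (c.T e)) / 2 ≤ c.x e) ∧
  (∀ s, c.T g < s → c.T e < s → ¬ c.Clu s g e → c.x g + c.D s ≤ c.x e)

/-- left witness (for a free event `e`): the corners of `u` placed before `e` are left of `e` -/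
def LW (u : V) (e : E) : Prop :=
  (c.alive u e ∧ c.b2 e < c.a2 u) ∨
  (c.mem u e ∧ e = c.P u ∧ e ≠ c.Q u ∧ c.T (c.F u) < c.T e) ∨
  (c.freed u e ∧ ¬ c.sd e)
/-- right witness -/
def RW (v : V) (e : E) : Prop :=
  (c.alive v e ∧ c.b1 e < c.a1 v) ∨
  (c.mem v e ∧ e = c.Q v ∧ e ≠ c.P v ∧ c.T (c.F v) < c.T e) ∨
  (c.freed v e ∧ c.sd e)
def LowC (e g : E) : Prop := c.T g < c.T e ∧
  ((∃ z, c.LW z e ∧ c.cor z g) ∨
   (∃ w, c.BT w e ∧ (g = c.Q w ∨ (c.BT w g ∧ c.b1 g < c.b1 e))))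
def UpC (e g : E) : Prop := c.T g < c.T e ∧
  ((∃ z, c.RW z e ∧ c.cor z g) ∨
   (∃ w, c.BT w e ∧ (g = c.P w ∨ (c.BT w g ∧ c.b2 g < c.b2 e))))

/-- combinatorial axioms -/
structure Ok : Prop where
  mem_iff : ∀ v e, c.mem v e ↔ (c.a1 v < c.b1 e ∧ c.a2 v < c.b2 e ∧ c.a3 v < c.b3 e)
  va1 : ∀ u v, c.a1 u = c.a1 v → u = v
  va2 : ∀ u v, c.a2 u = c.a2 v → u = v
  va3 : ∀ u v, c.a3 u = c.a3 v → u = v
  eb1 : ∀ e f, c.b1 e = c.b1 f → e = f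
  eb2 : ∀ e f, c.b2 e = c.b2 f → e = f
  eb3 : ∀ e f, c.b3 e = c.b3 f → e = f
  ne1 : ∀ v e, c.a1 v ≠ c.b1 e
  ne2 : ∀ v e, c.a2 v ≠ c.b2 e
  ne3 : ∀ v e, c.a3 v ≠ c.b3 e
  anti : ∀ u v, ¬ (c.a1 u < c.a1 v ∧ c.a2 u < c.a2 v ∧ c.a3 u < c.a3 v)
  simp : ∀ e f, e ≠ f → ∃ v, c.mem v e ∧ ¬ c.mem v f
  lin : ∀ u v e f, u ≠ v → c.mem u e → c.mem v e → c.mem u f → c.mem v f → e = f
  memF : ∀ w, c.mem w (c.F w)
  memP : ∀ w, c.mem w (c.P w)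
  memQ : ∀ w, c.mem w (c.Q w)
  memh : ∀ w, c.mem w (c.h w)
  maxF : ∀ w e, c.mem w e → c.b3 e ≤ c.b3 (c.F w)
  maxP : ∀ w e, c.mem w e → c.b1 e ≤ c.b1 (c.P w)
  maxQ : ∀ w e, c.mem w e → c.b2 e ≤ c.b2 (c.Q w)
  sdL : ∀ w e, c.LR w e → c.sd e → c.hasL w e
  sdR : ∀ w e, c.LR w e → ¬ c.sd e → c.hasR w e
  CL : ∀ w e, c.sd e → c.C w e = c.Q w
  CR : ∀ w e, ¬ c.sd e → c.C w e = c.P w
  A_top : ∀ w, c.top w → c.A w = c.h w
  A_bot : ∀ w, ¬ c.top w → c.A w = c.F w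
  h_top : ∀ w e, c.top w → c.LR w e → c.LR w (c.h w) ∧ c.b3 e ≤ c.b3 (c.h w)
  h_pq : ∀ w e, ¬ c.top w → c.pq w → c.LR w e → c.LR w (c.h w) ∧ c.b3 (c.h w) ≤ c.b3 e
  h_none : ∀ w, (∀ e, ¬ c.LR w e) → c.h w = c.F w
  h_else : ∀ w, ¬ c.top w → ¬ c.pq w → c.h w = c.F w
  T_inj : ∀ e f, c.T e = c.T f → e = f
  T_lev : ∀ e f, c.T e < c.T f → c.lev f ≤ c.lev e
  T_lt : ∀ e, c.T e < c.m
  lev_le : ∀ e, c.lev e ≤ 2 * c.b3 e
  lev_nb : ∀ e, (∀ w, ¬ c.BT w e) → c.lev e = 2 * c.b3 e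
  lev_btP : ∀ w e, c.BT w e → c.lev e ≤ 2 * c.b3 (c.P w) - 1
  lev_btQ : ∀ w e, c.BT w e → c.lev e ≤ 2 * c.b3 (c.Q w) - 1
  lev_bt : ∀ w e, c.BT w e → c.lev e = 2 * c.b3 e ∨ c.lev e = 2 * c.b3 (c.P w) - 1 ∨
    c.lev e = 2 * c.b3 (c.Q w) - 1

/-- the two sequences -/
structure Sq : Prop where
  K0 : c.K 0 = 1
  D0 : c.D 0 = 1
  KS : ∀ t, c.K (t + 1) = c.M * c.K t / c.D t
  DS : ∀ t, c.D (t + 1) = c.D t / (c.M * c.K (t + 1))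
  hM : (2 : ℝ) ^ (c.m + 10) ≤ c.M

/-- the rules for `x` -/
structure XR : Prop where
  free : ∀ e, (∀ w, ¬ c.Ho w e) → ∃ L U : ℝ, c.x e = (L + U) / 2 ∧ -1 ≤ L ∧ U ≤ 1 ∧
    (∀ g, c.LowC e g → c.x g ≤ L) ∧ (∀ g, c.UpC e g → U ≤ c.x g) ∧
    (L = -1 ∨ ∃ g, c.LowC e g ∧ L = c.x g) ∧ (U = 1 ∨ ∃ g, c.UpC e g ∧ U = c.x g)
  hpq : ∀ w e, c.Ho w e → c.pq w → c.x e = c.x (c.A w)
  hL : ∀ w e, c.Ho w e → ¬ c.pq w → c.sd e →
    c.x e = c.x (c.A w) - c.D (c.T (c.Q w) + 1) * c.K (c.T e + 1)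
  hR : ∀ w e, c.Ho w e → ¬ c.pq w → ¬ c.sd e →
    c.x e = c.x (c.A w) + c.D (c.T (c.P w) + 1) * c.K (c.T e + 1)

/-- the rules for `y` -/
structure YR : Prop where
  nb : ∀ e, (∀ w, ¬ c.BT w e) → c.y e = c.K (c.T e + 1)
  bt : ∀ w e, c.BT w e → c.x e * (c.y (c.P w) - c.y (c.Q w)) +
    c.x (c.P w) * (c.y (c.Q w) - c.y e) + c.x (c.Q w) * (c.y e - c.y (c.P w)) = 0

/-- the invariants of the placement at `e` -/
structure InvE (e : E) : Prop where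
  ERl : ∀ z g, c.alive z e → c.b2 e < c.a2 z → c.cor z g → c.T g < c.T e → c.Prec g e
  ERr : ∀ z g, c.alive z e → c.b1 e < c.a1 z → c.cor z g → c.T g < c.T e → c.Prec e g
  ORp : ∀ z g, c.mem z e → e = c.P z → e ≠ c.Q z → c.cor z g → c.T g < c.T e → c.Prec g e
  ORq : ∀ z g, c.mem z e → e = c.Q z → e ≠ c.P z → c.cor z g → c.T g < c.T e → c.Prec e g
  ORl : ∀ w g, c.LR w e → c.sd e → c.cor w g → c.T g < c.T e → c.Prec e g
  ORr : ∀ w g, c.LR w e → ¬ c.sd e → c.cor w g → c.T g < c.T e → c.Prec g e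
  OBq : ∀ w, c.BT w e → c.Prec (c.Q w) e
  OBp : ∀ w, c.BT w e → c.Prec e (c.P w)
  SBl : ∀ w g, c.BT w e → c.BT w g → c.T g < c.T e → c.b1 g < c.b1 e → c.Prec g e
  SBr : ∀ w g, c.BT w e → c.BT w g → c.T g < c.T e → c.b2 g < c.b2 e → c.Prec e g
  bdl : -1 + c.D (c.T e + 1) ≤ c.x e
  bdr : c.x e ≤ 1 - c.D (c.T e + 1)

/-- the mirror image -/
def swap : Cf V E where
  a1 := c.a2
  a2 := c.a1
  a3 := c.a3
  b1 := c.b2
  b2 := c.b1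
  b3 := c.b3
  mem := c.mem
  F := c.F
  P := c.Q
  Q := c.P
  h := c.h
  A := c.A
  C := c.C
  sd := fun e => ¬ c.sd e
  T := c.T
  lev := c.lev
  m := c.m
  M := c.M
  K := c.K
  D := c.D
  x := fun e => - c.x e
  y := c.y

/-- `T_z` lies strictly left of the point of `e` at the depth `y e` -/
def LeftOf (z : V) (e : E) : Prop :=
  (∀ a d, c.cor z a → c.cor z d → c.y a < c.y e → c.y e < c.y d →
    (c.x d - c.x e) * (c.y e - c.y a) < (c.x e - c.x a) * (c.y d - c.y e)) ∧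
  (∀ a, c.cor z a → c.y a = c.y e → c.x a < c.x e)
/-- `T_z` lies strictly right of the point of `e` at the depth `y e` -/
def RightOf (z : V) (e : E) : Prop :=
  (∀ a d, c.cor z a → c.cor z d → c.y a < c.y e → c.y e < c.y d →
    (c.x e - c.x d) * (c.y e - c.y a) < (c.x a - c.x e) * (c.y d - c.y e)) ∧
  (∀ a, c.cor z a → c.y a = c.y e → c.x e < c.x a)

/-- the point of `e` -/
def pt (e : E) : ℝ × ℝ := (c.x e, c.y e)
/-- the triangle (possibly degenerate) of `z` -/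
def tri (z : V) : Set (ℝ × ℝ) := convexHull ℝ (c.pt '' {g | c.cor z g})

end Cf

end Pool.Agent.Tri
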