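import Pool.Agent.Helper57.Tri.Swap

/-! Combinatorics, part A. -/

set_option autoImplicit false

namespace Pool.Agent.Tri
namespace Cf

variable {V E : Type} {c : Cf V E}

theorem Ok.b1_lt (hc : c.Ok) {w : V} {e : E} (h : c.mem w e) (hne : e ≠ c.P w) :
    c.b1 e < c.b1 (c.P w) :=
  lt_of_le_of_ne (hc.maxP w e h) (fun h2 => hne (hc.eb1 _ _ h2))

theorem Ok.b2_lt (hc : c.Ok) {w : V} {e : E} (h : c.mem w e) (hne : e ≠ c.Q w) :
    c.b2 e < c.b2 (c.Q w) :=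
  lt_of_le_of_ne (hc.maxQ w e h) (fun h2 => hne (hc.eb2 _ _ h2))

theorem Ok.b3_lt (hc : c.Ok) {w : V} {e : E} (h : c.mem w e) (hne : e ≠ c.F w) :
    c.b3 e < c.b3 (c.F w) :=
  lt_of_le_of_ne (hc.maxF w e h) (fun h2 => hne (hc.eb3 _ _ h2))

theorem Ok.host_D (hc : c.Ok) {w u : V} {e : E} (hw : c.host w e) (hu : c.mem u e) (hne : u ≠ w) :
    (c.a1 u < c.a1 w ∧ c.a2 w < c.a2 u ∧ c.a3 w < c.a3 u) ∨
    (c.a1 w < c.a1 u ∧ c.a2 u < c.a2 w ∧ c.a3 w < c.a3 u) ∨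
    (c.a1 w < c.a1 u ∧ c.a2 w < c.a2 u ∧ c.a3 u < c.a3 w) := by
  obtain ⟨hm, hF, hP, hQ⟩ := hw
  have f3 := hc.b3_lt hm hF
  have p1 := hc.b1_lt hm hP
  have q2 := hc.b2_lt hm hQ
  have wF := (hc.mem_iff _ _).1 (hc.memF w)
  have wP := (hc.mem_iff _ _).1 (hc.memP w)
  have wQ := (hc.mem_iff _ _).1 (hc.memQ w)
  have ue := (hc.mem_iff _ _).1 hu
  have nF : ¬ c.mem u (c.F w) := fun h => hF (hc.lin u w e _ hne hu hm h (hc.memF w))
  have nP : ¬ c.mem u (c.P w) := fun h => hP (hc.lin u w e _ hne hu hm h (hc.memP w))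
  have nQ : ¬ c.mem u (c.Q w) := fun h => hQ (hc.lin u w e _ hne hu hm h (hc.memQ w))
  rw [hc.mem_iff] at nF nP nQ
  have h1 : c.a1 u ≠ c.a1 w := fun h => hne (hc.va1 _ _ h)
  have h2 : c.a2 u ≠ c.a2 w := fun h => hne (hc.va2 _ _ h)
  have h3 : c.a3 u ≠ c.a3 w := fun h => hne (hc.va3 _ _ h)
  have an := hc.anti w u
  omega

theorem Ok.host_unique (hc : c.Ok) {w z : V} {e : E} (hw : c.host w e) (hz : c.host z e) :
    w = z := by
  by_contra hne
  have h1 := hc.host_D hw hz.1 (Ne.symm hne)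
  have h2 := hc.host_D hz hw.1 hne
  omega

theorem Ok.bt_D (hc : c.Ok) {w u : V} {e : E} (hw : c.BT w e) (hu : c.mem u e) (hne : u ≠ w) :
    c.a1 w < c.a1 u ∧ c.a2 w < c.a2 u ∧ c.a3 u < c.a3 w := by
  obtain ⟨hh, hL, hR⟩ := hw
  have h1 := hc.host_D hh hu hne
  have h2 : ¬ c.a1 u < c.a1 w := fun h => hL ⟨u, hu, h⟩
  have h3 : ¬ c.a2 u < c.a2 w := fun h => hR ⟨u, hu, h⟩
  omega

theorem Ok.bt_child (hc : c.Ok) {w : V} {e : E} (hw : c.BT w e) : ∃ u, c.mem u e ∧ u ≠ w := by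
  obtain ⟨v, h1, h2⟩ := hc.simp e (c.F w) hw.1.2.1
  exact ⟨v, h1, fun h => h2 (h ▸ hc.memF w)⟩

theorem Ok.lev_gt (hc : c.Ok) {z : V} {g : E} (h : c.mem z g) : 2 * c.a3 z < c.lev g := by
  have hz := (hc.mem_iff _ _).1 h
  by_cases hb : ∀ w, ¬ c.BT w g
  · have := hc.lev_nb g hb; omega
  · push Not at hb
    obtain ⟨w, hw⟩ := hb
    have wP := (hc.mem_iff _ _).1 (hc.memP w)
    have wQ := (hc.mem_iff _ _).1 (hc.memQ w)
    have hl := hc.lev_bt w g hw
    by_cases hzw : z = w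
    · subst hzw; omega
    · have := hc.bt_D hw h hzw
      omega

theorem Ok.T_of_lev (hc : c.Ok) {e f : E} (h : c.lev f < c.lev e) : c.T e < c.T f := by
  by_contra hn
  rcases Nat.lt_or_ge (c.T f) (c.T e) with h1 | h1
  · have := hc.T_lev f e h1; omega
  · have : e = f := hc.T_inj e f (by omega)
    subst this; omega

theorem Ok.lev_strict (hc : c.Ok) {e f : E} (h : c.T e < c.T f)
    (h2 : (∀ w, ¬ c.BT w e) ∨ (∀ w, ¬ c.BT w f)) : c.lev f < c.lev e := by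
  have h3 := hc.T_lev e f h
  rcases lt_or_eq_of_le h3 with h4 | h4
  · exact h4
  · exfalso
    have hne : e ≠ f := fun h5 => by subst h5; omega
    have hb3 : c.b3 e ≠ c.b3 f := fun h5 => hne (hc.eb3 _ _ h5)
    rcases h2 with h2 | h2
    · have he := hc.lev_nb e h2
      by_cases hb : ∀ w, ¬ c.BT w f
      · have hf := hc.lev_nb f hb; omega
      · push Not at hb
        obtain ⟨w, hw⟩ := hb
        have := hc.lev_bt w f hw; omega
    · have he := hc.lev_nb f h2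
      by_cases hb : ∀ w, ¬ c.BT w e
      · have hf := hc.lev_nb e hb; omega
      · push Not at hb
        obtain ⟨w, hw⟩ := hb
        have := hc.lev_bt w e hw; omega

theorem Ok.b3_of_T (hc : c.Ok) {e f : E} (h : c.T f < c.T e) (he : ∀ w, ¬ c.BT w e) :
    c.b3 e < c.b3 f := by
  have h1 := hc.lev_strict h (Or.inr he)
  have h2 := hc.lev_nb e he
  have h3 := hc.lev_le f
  omega

theorem Ok.dom (hc : c.Ok) {e f : E} (h1 : c.b1 e < c.b1 f) (h2 : c.b2 e < c.b2 f)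
    (hT : c.T f < c.T e) : False := by
  have hne : e ≠ f := fun h => by subst h; omega
  by_cases hb : ∀ w, ¬ c.BT w e
  · have h3 := hc.b3_of_T hT hb
    obtain ⟨v, hv1, hv2⟩ := hc.simp e f hne
    rw [hc.mem_iff] at hv1 hv2
    omega
  · push Not at hb
    obtain ⟨w, hw⟩ := hb
    have hl := hc.T_lev f e hT
    have hl2 := hc.lev_gt hw.1.1
    have hl3 := hc.lev_le f
    have we := (hc.mem_iff _ _).1 hw.1.1
    obtain ⟨u, hu, huw⟩ := hc.bt_child hw
    have hd := hc.bt_D hw hu huw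
    have ue := (hc.mem_iff _ _).1 hu
    have wf : c.mem w f := by rw [hc.mem_iff]; omega
    have uf : c.mem u f := by rw [hc.mem_iff]; omega
    exact hne (hc.lin u w e f huw hu hw.1.1 uf wf)

/-- a vertex `v` which is below `g` in the orders 1, 2 but not in `g` dies before `g` -/
theorem Ok.late (hc : c.Ok) {v : V} {e g : E} (h1 : c.a1 v < c.b1 g) (h2 : c.a2 v < c.b2 g)
    (hn : ¬ c.mem v g) (he : c.mem v e) : c.T e < c.T g := by
  rw [hc.mem_iff] at hn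
  have h3 := hc.ne3 v g
  have hl := hc.lev_gt he
  have hl2 := hc.lev_le g
  apply hc.T_of_lev
  omega

theorem Ok.below_late (hc : c.Ok) {w u : V} {e g : E} (h1 : c.a1 w < c.a1 u)
    (h2 : c.a2 w < c.a2 u) (hu : c.mem u g) (hn : ¬ c.mem w g) (he : c.mem w e) :
    c.T e < c.T g := by
  have ug := (hc.mem_iff _ _).1 hu
  exact hc.late (by omega) (by omega) hn he

theorem Ok.F_lt (hc : c.Ok) {w : V} {g : E} (h : c.mem w g) (hne : g ≠ c.F w) :
    c.T (c.F w) < c.T g := by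
  have h3 := hc.b3_lt h hne
  by_cases hb : ∀ z, ¬ c.BT z (c.F w)
  · have := hc.lev_nb _ hb
    have h2 := hc.lev_le g
    apply hc.T_of_lev; omega
  · push Not at hb
    obtain ⟨z, hz⟩ := hb
    have hzw : w ≠ z := by
      intro h5; subst h5; exact hz.1.2.1 rfl
    have hd := hc.bt_D hz (hc.memF w) hzw
    have hn : ¬ c.mem z g := fun h6 => hne (hc.lin w z g _ hzw h h6 (hc.memF w) hz.1.1)
    exact hc.below_late hd.1 hd.2.1 h hn hz.1.1

theorem Ok.F_first (hc : c.Ok) {w : V} {g : E} (h : c.mem w g) : c.T (c.F w) ≤ c.T g := by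
  by_cases hg : g = c.F w
  · rw [hg]
  · exact (hc.F_lt h hg).le

theorem Ok.pq_late1 (hc : c.Ok) {z w : V} {f e : E} (h1 : c.a1 z < c.a1 w)
    (h2 : c.a2 w < c.a2 z) (hz : c.mem z f) (hw : c.mem w f) (hf : f ≠ c.P z)
    (he : c.mem w e) : c.T e < c.T (c.P z) := by
  have hne : w ≠ z := fun h => by subst h; omega
  have p1 := hc.b1_lt hz hf
  have zP := (hc.mem_iff _ _).1 (hc.memP z)
  have wf := (hc.mem_iff _ _).1 hw
  have hn : ¬ c.mem w (c.P z) := fun h => hf (hc.lin w z f _ hne hw hz h (hc.memP z))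
  exact hc.late (by omega) (by omega) hn he

theorem Ok.pq_late2 (hc : c.Ok) {z w : V} {f e : E} (h1 : c.a1 z < c.a1 w)
    (h2 : c.a2 w < c.a2 z) (hz : c.mem z f) (hw : c.mem w f) (hf : f ≠ c.Q w)
    (he : c.mem z e) : c.T e < c.T (c.Q w) := by
  have hne : w ≠ z := fun h => by subst h; omega
  have p1 := hc.b2_lt hw hf
  have wQ := (hc.mem_iff _ _).1 (hc.memQ w)
  have zf := (hc.mem_iff _ _).1 hz
  have hn : ¬ c.mem z (c.Q w) := fun h => hf (hc.lin w z f _ hne hw hz (hc.memQ w) h)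
  exact hc.late (by omega) (by omega) hn he

theorem Ok.pql (hc : c.Ok) {z w : V} {f : E} (h1 : c.a1 z < c.a1 w) (h2 : c.a2 w < c.a2 z)
    (hz : c.mem z f) (hw : c.mem w f) : f = c.P z ∨ f = c.Q w := by
  by_contra hn
  push Not at hn
  have h3 := hc.pq_late1 h1 h2 hz hw hn.1 (hc.memQ w)
  have h4 := hc.pq_late2 h1 h2 hz hw hn.2 (hc.memP z)
  omega

end Cf
end Pool.Agent.Tri
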