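import Pool.Agent.Helper57.Tri.CA

/-! Combinatorics, part B. -/

set_option autoImplicit false

namespace Pool.Agent.Tri
namespace Cf

variable {V E : Type} {c : Cf V E}

theorem Ok.LR_nb (hc : c.Ok) {w : V} {e : E} (h : c.LR w e) : ∀ z, ¬ c.BT z e := by
  intro z hz
  have h1 := hc.host_unique h.1 hz.1
  subst h1
  rcases h.2 with h2 | h2
  · exact hz.2.1 h2
  · exact hz.2.2 h2

theorem Ok.hasR_b1 (hc : c.Ok) {w : V} {e f : E} (hw : c.mem w e) (hR : c.hasR w e)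
    (hf : c.mem w f) (hne : f ≠ e) (h3 : c.b3 e < c.b3 f) : c.b1 f < c.b1 e := by
  obtain ⟨u, hu, hu2⟩ := hR
  have we := (hc.mem_iff _ _).1 hw
  have wf := (hc.mem_iff _ _).1 hf
  have ue := (hc.mem_iff _ _).1 hu
  have huw : u ≠ w := fun h => by subst h; omega
  by_contra hn
  have h1 : c.b1 e ≠ c.b1 f := fun h => hne (hc.eb1 _ _ h).symm
  have uf : c.mem u f := by rw [hc.mem_iff]; omega
  exact hne (hc.lin u w f e huw uf hf hu hw)

theorem Ok.hasL_b2 (hc : c.Ok) {w : V} {e f : E} (hw : c.mem w e) (hL : c.hasL w e)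
    (hf : c.mem w f) (hne : f ≠ e) (h3 : c.b3 e < c.b3 f) : c.b2 f < c.b2 e := by
  obtain ⟨u, hu, hu2⟩ := hL
  have we := (hc.mem_iff _ _).1 hw
  have wf := (hc.mem_iff _ _).1 hf
  have ue := (hc.mem_iff _ _).1 hu
  have huw : u ≠ w := fun h => by subst h; omega
  by_contra hn
  have h1 : c.b2 e ≠ c.b2 f := fun h => hne (hc.eb2 _ _ h).symm
  have uf : c.mem u f := by rw [hc.mem_iff]; omega
  exact hne (hc.lin u w f e huw uf hf hu hw)

/-- a right-sided hosted edge comes before `P w` -/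
theorem Ok.LR_P (hc : c.Ok) {w : V} {e : E} (h : c.LR w e) (hs : ¬ c.sd e) :
    c.T e < c.T (c.P w) := by
  have hR := hc.sdR w e h hs
  have h1 := h.1
  by_contra hn
  have h2 : c.T e ≠ c.T (c.P w) := fun h3 => h1.2.2.1 (hc.T_inj _ _ h3)
  have h3 : c.T (c.P w) < c.T e := by omega
  have h4 := hc.b3_of_T h3 (hc.LR_nb h)
  have h5 := hc.hasR_b1 h1.1 hR (hc.memP w) (Ne.symm h1.2.2.1) h4
  have h6 := hc.maxP w e h1.1
  omega

theorem Ok.LR_Q (hc : c.Ok) {w : V} {e : E} (h : c.LR w e) (hs : c.sd e) :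
    c.T e < c.T (c.Q w) := by
  have hR := hc.sdL w e h hs
  have h1 := h.1
  by_contra hn
  have h2 : c.T e ≠ c.T (c.Q w) := fun h3 => h1.2.2.2 (hc.T_inj _ _ h3)
  have h3 : c.T (c.Q w) < c.T e := by omega
  have h4 := hc.b3_of_T h3 (hc.LR_nb h)
  have h5 := hc.hasL_b2 h1.1 hR (hc.memQ w) (Ne.symm h1.2.2.2) h4
  have h6 := hc.maxQ w e h1.1
  omega

theorem Ok.LR_C (hc : c.Ok) {w : V} {e : E} (h : c.LR w e) : c.T e < c.T (c.C w e) := by
  by_cases hs : c.sd e
  · rw [hc.CL w e hs]; exact hc.LR_Q h hs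
  · rw [hc.CR w e hs]; exact hc.LR_P h hs

theorem Ok.FQ_hasL (hc : c.Ok) {w : V} {e : E} (h : c.F w = c.Q w) (he : c.host w e) :
    ¬ c.hasL w e := by
  intro hL
  have h3 := hc.b3_lt he.1 he.2.1
  have h4 := hc.hasL_b2 he.1 hL (hc.memF w) (Ne.symm he.2.1) h3
  have h5 := hc.maxQ w e he.1
  rw [h] at h4
  omega

theorem Ok.FP_hasR (hc : c.Ok) {w : V} {e : E} (h : c.F w = c.P w) (he : c.host w e) :
    ¬ c.hasR w e := by
  intro hR
  have h3 := hc.b3_lt he.1 he.2.1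
  have h4 := hc.hasR_b1 he.1 hR (hc.memF w) (Ne.symm he.2.1) h3
  have h5 := hc.maxP w e he.1
  rw [h] at h4
  omega

theorem Ok.FQ_sd (hc : c.Ok) {w : V} {e : E} (h : c.F w = c.Q w) (he : c.LR w e) :
    ¬ c.sd e := by
  exact fun hs => hc.FQ_hasL h he.1 (hc.sdL w e he hs)

theorem Ok.FP_sd (hc : c.Ok) {w : V} {e : E} (h : c.F w = c.P w) (he : c.LR w e) :
    c.sd e := by
  by_contra hs
  exact hc.FP_hasR h he.1 (hc.sdR w e he hs)

theorem Ok.pq_nobt (hc : c.Ok) {w : V} {e : E} (h : c.pq w) : ¬ c.BT w e := by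
  intro hb
  have hm := hb.1.1
  have p1 := hc.b1_lt hm hb.1.2.2.1
  have q2 := hc.b2_lt hm hb.1.2.2.2
  unfold pq at h
  rw [← h] at q2
  obtain ⟨u, hu, huw⟩ := hc.bt_child hb
  have hd := hc.bt_D hb hu huw
  have ue := (hc.mem_iff _ _).1 hu
  have wP := (hc.mem_iff _ _).1 (hc.memP w)
  have uP : c.mem u (c.P w) := by rw [hc.mem_iff]; omega
  exact hb.1.2.2.1 (hc.lin u w e _ huw hu hm uP (hc.memP w))

/-- for `pq w` all edges of `w` are before `P w = Q w` -/
theorem Ok.pq_last (hc : c.Ok) {w : V} {g : E} (h : c.pq w) (hg : c.mem w g) :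
    c.T g ≤ c.T (c.P w) := by
  by_contra hn
  have hne : g ≠ c.P w := fun h2 => by rw [h2] at hn; omega
  have p1 := hc.b1_lt hg hne
  unfold pq at h
  have q2 := hc.b2_lt hg (by rw [← h]; exact hne)
  rw [← h] at q2
  exact hc.dom p1 q2 (by omega)

/-- a `pq` and `top` vertex has only one edge -/
theorem Ok.pq_top (hc : c.Ok) {w : V} {g : E} (h : c.pq w) (h2 : c.top w) (hg : c.mem w g) :
    g = c.F w := by
  unfold pq at h
  unfold top at h2
  have hFP : c.F w = c.P w := by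
    rcases h2 with h2 | h2
    · rw [h2, h]
    · exact h2
  by_contra hne
  have f3 := hc.b3_lt hg hne
  have p1 := hc.b1_lt hg (by rw [← hFP]; exact hne)
  have q2 := hc.b2_lt hg (by rw [← h, ← hFP]; exact hne)
  rw [← hFP] at p1
  rw [← h, ← hFP] at q2
  obtain ⟨v, hv1, hv2⟩ := hc.simp g _ hne
  rw [hc.mem_iff] at hv1 hv2
  omega

theorem Ok.Ho_A (hc : c.Ok) {w : V} {e : E} (h : c.Ho w e) : c.T (c.A w) < c.T e := by
  obtain ⟨hl, hn⟩ := h
  by_cases ht : c.top w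
  · rw [hc.A_top w ht]
    have h1 := hc.h_top w e ht hl
    have hne : e ≠ c.h w := fun h2 => hn ⟨ht, h2⟩
    have h3 : c.b3 e ≠ c.b3 (c.h w) := fun h4 => hne (hc.eb3 _ _ h4)
    have h4 := hc.lev_nb e (hc.LR_nb hl)
    have h5 := hc.lev_nb _ (hc.LR_nb h1.1)
    apply hc.T_of_lev; omega
  · rw [hc.A_bot w ht]
    exact hc.F_lt hl.1.1 hl.1.2.1

theorem Ok.A_cor (hc : c.Ok) (w : V) : c.cor w (c.A w) := by
  by_cases ht : c.top w
  · rw [hc.A_top w ht]; right; right; right; rfl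
  · rw [hc.A_bot w ht]; left; rfl

theorem Ok.cor_mem (hc : c.Ok) {w : V} {g : E} (h : c.cor w g) : c.mem w g := by
  rcases h with h | h | h | h
  · rw [h]; exact hc.memF w
  · rw [h]; exact hc.memP w
  · rw [h]; exact hc.memQ w
  · rw [h]; exact hc.memh w

theorem Ok.memA (hc : c.Ok) (w : V) : c.mem w (c.A w) := by
  exact hc.cor_mem (hc.A_cor w)

theorem Ok.A_ne_P (hc : c.Ok) {w : V} {e : E} (h : c.LR w e) : c.A w ≠ c.P w := by
  by_cases ht : c.top w
  · rw [hc.A_top w ht]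
    exact (hc.h_top w e ht h).1.1.2.2.1
  · rw [hc.A_bot w ht]
    exact fun h2 => ht (Or.inr h2)

theorem Ok.A_ne_Q (hc : c.Ok) {w : V} {e : E} (h : c.LR w e) : c.A w ≠ c.Q w := by
  by_cases ht : c.top w
  · rw [hc.A_top w ht]
    exact (hc.h_top w e ht h).1.1.2.2.2
  · rw [hc.A_bot w ht]
    exact fun h2 => ht (Or.inl h2)

theorem Ok.bt_TP (hc : c.Ok) {w : V} {e : E} (h : c.BT w e) : c.T (c.P w) < c.T e := by
  have h1 := hc.lev_btP w e h
  by_cases hb : ∀ z, ¬ c.BT z (c.P w)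
  · have h2 := hc.lev_nb _ hb
    apply hc.T_of_lev; omega
  · push Not at hb
    obtain ⟨z, hz⟩ := hb
    have hzw : w ≠ z := by
      intro h5; subst h5; exact hz.1.2.2.1 rfl
    have hd := hc.bt_D hz (hc.memP w) hzw
    have hn : ¬ c.mem z e := fun h6 =>
      h.1.2.2.1 (hc.lin w z e _ hzw h.1.1 h6 (hc.memP w) hz.1.1)
    exact hc.below_late hd.1 hd.2.1 h.1.1 hn hz.1.1

theorem Ok.bt_TQ (hc : c.Ok) {w : V} {e : E} (h : c.BT w e) : c.T (c.Q w) < c.T e := by
  have h1 := hc.lev_btQ w e h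
  by_cases hb : ∀ z, ¬ c.BT z (c.Q w)
  · have h2 := hc.lev_nb _ hb
    apply hc.T_of_lev; omega
  · push Not at hb
    obtain ⟨z, hz⟩ := hb
    have hzw : w ≠ z := by
      intro h5; subst h5; exact hz.1.2.2.2 rfl
    have hd := hc.bt_D hz (hc.memQ w) hzw
    have hn : ¬ c.mem z e := fun h6 =>
      h.1.2.2.2 (hc.lin w z e _ hzw h.1.1 h6 (hc.memQ w) hz.1.1)
    exact hc.below_late hd.1 hd.2.1 h.1.1 hn hz.1.1

theorem Ok.bt_b1 (hc : c.Ok) {w : V} {e : E} (h : c.BT w e) : c.b1 (c.Q w) < c.b1 e := by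
  by_contra hn
  have h1 : c.b1 (c.Q w) ≠ c.b1 e := fun h2 => h.1.2.2.2 (hc.eb1 _ _ h2).symm
  exact hc.dom (by omega) (hc.b2_lt h.1.1 h.1.2.2.2) (hc.bt_TQ h)

theorem Ok.bt_b2 (hc : c.Ok) {w : V} {e : E} (h : c.BT w e) : c.b2 (c.P w) < c.b2 e := by
  by_contra hn
  have h1 : c.b2 (c.P w) ≠ c.b2 e := fun h2 => h.1.2.2.1 (hc.eb2 _ _ h2).symm
  exact hc.dom (hc.b1_lt h.1.1 h.1.2.2.1) (by omega) (hc.bt_TP h)

/-- siblings are ordered -/
theorem Ok.sib (hc : c.Ok) {w : V} {e g : E} (he : c.BT w e) (hg : c.BT w g)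
    (h1 : c.b1 g < c.b1 e) : c.b2 e < c.b2 g := by
  by_contra hn
  obtain ⟨u, hu, huw⟩ := hc.bt_child hg
  have hd := hc.bt_D hg hu huw
  have ug := (hc.mem_iff _ _).1 hu
  have we := (hc.mem_iff _ _).1 he.1.1
  have ue : c.mem u e := by rw [hc.mem_iff]; omega
  have := hc.lin u w e g huw ue he.1.1 hu hg.1.1
  subst this; omega

theorem Ok.sib' (hc : c.Ok) {w : V} {e g : E} (he : c.BT w e) (hg : c.BT w g)
    (h2 : c.b2 g < c.b2 e) : c.b1 e < c.b1 g := by
  by_contra hn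
  obtain ⟨u, hu, huw⟩ := hc.bt_child hg
  have hd := hc.bt_D hg hu huw
  have ug := (hc.mem_iff _ _).1 hu
  have we := (hc.mem_iff _ _).1 he.1.1
  have ue : c.mem u e := by rw [hc.mem_iff]; omega
  have := hc.lin u w e g huw ue he.1.1 hu hg.1.1
  subst this; omega

/-- a bottom edge is the first edge of each of its children -/
theorem Ok.bt_F (hc : c.Ok) {z w : V} {g : E} (hz : c.BT z g) (hw : c.mem w g) (hne : w ≠ z) :
    g = c.F w := by
  by_contra hg
  have hd := hc.bt_D hz hw hne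
  have hn : ¬ c.mem z (c.F w) := fun h6 => hg (hc.lin w z g _ hne hw hz.1.1 (hc.memF w) h6)
  have h1 := hc.below_late hd.1 hd.2.1 (hc.memF w) hn hz.1.1
  have h2 := hc.F_first hw
  omega

/-- the later one of the corners `P w`, `Q w` is not a bottom edge -/
theorem Ok.last_nb (hc : c.Ok) {w : V} (h : c.T (c.Q w) < c.T (c.P w)) :
    ∀ z, ¬ c.BT z (c.P w) := by
  intro z hz
  have hzw : w ≠ z := by
    intro h5; subst h5; exact hz.1.2.2.1 rfl
  have h1 := hc.bt_F hz (hc.memP w) hzw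
  have h2 := hc.F_first (hc.memQ w)
  rw [← h1] at h2
  omega

theorem Ok.last_nb' (hc : c.Ok) {w : V} (h : c.T (c.P w) < c.T (c.Q w)) :
    ∀ z, ¬ c.BT z (c.Q w) := by
  intro z hz
  have hzw : w ≠ z := by
    intro h5; subst h5; exact hz.1.2.2.2 rfl
  have h1 := hc.bt_F hz (hc.memQ w) hzw
  have h2 := hc.F_first (hc.memP w)
  rw [← h1] at h2
  omega

theorem Ok.edge_class (hc : c.Ok) {w : V} {g : E} (hw : c.mem w g) :
    g = c.F w ∨ g = c.P w ∨ g = c.Q w ∨ c.LR w g ∨ c.BT w g := by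
  by_cases h1 : g = c.F w
  · left; exact h1
  by_cases h2 : g = c.P w
  · right; left; exact h2
  by_cases h3 : g = c.Q w
  · right; right; left; exact h3
  have hh : c.host w g := ⟨hw, h1, h2, h3⟩
  by_cases h4 : c.hasL w g ∨ c.hasR w g
  · right; right; right; left; exact ⟨hh, h4⟩
  · right; right; right; right
    exact ⟨hh, fun h => h4 (Or.inl h), fun h => h4 (Or.inr h)⟩

/-- a corner of `w` other than `F w` is not a bottom edge (of any vertex) -/
theorem Ok.cor_nb (hc : c.Ok) {w : V} {g : E} (hg : c.cor w g) (hne : g ≠ c.F w) :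
    ∀ z, ¬ c.BT z g := by
  intro z hz
  have hm := hc.cor_mem hg
  have hwz : w ≠ z := by
    intro h; subst h
    obtain ⟨h0, h1, h2, h3⟩ := hz.1
    rcases hg with hg | hg | hg | hg
    · exact h1 hg
    · exact h2 hg
    · exact h3 hg
    · have hL : c.LR w (c.h w) := by
        by_contra hn
        apply hne
        rw [hg]
        by_cases hLR : ∀ e, ¬ c.LR w e
        · exact hc.h_none w hLR
        · push Not at hLR
          obtain ⟨e, he⟩ := hLR
          by_cases ht : c.top w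
          · exact absurd (hc.h_top w e ht he).1 hn
          · by_cases hp : c.pq w
            · exact absurd (hc.h_pq w e ht hp he).1 hn
            · exact hc.h_else w ht hp
      rw [hg] at hz
      exact hc.LR_nb hL w hz
  exact hne (hc.bt_F hz hm hwz)

/-- a bottom edge which is a corner of `w` is `F w`, and it is not hosted by `w` -/
theorem Ok.cor_bt (hc : c.Ok) {w z : V} {g : E} (hg : c.cor w g) (hz : c.BT z g) :
    g = c.F w ∧ w ≠ z := by
  have h1 : g = c.F w := by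
    by_contra h; exact hc.cor_nb hg h z hz
  refine ⟨h1, fun h2 => ?_⟩
  subst h2
  exact hz.1.2.1 h1

end Cf
end Pool.Agent.Tri
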