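import Pool.Agent.Helper57.Tri.CB

/-! Combinatorics, part C: clusters. -/

set_option autoImplicit false

namespace Pool.Agent.Tri
namespace Cf

variable {V E : Type} {c : Cf V E}

theorem Ok.InC_mem (hc : c.Ok) {z : V} {s : ℕ} {g : E} (h : c.InC z s g) : c.mem z g := by
  rcases h with h | ⟨h, -⟩
  · rw [h]; exact hc.memA z
  · exact h.1.1.1

/-- in a cluster with two members there is a hosted edge -/
theorem Ok.CP_Ho (hc : c.Ok) {z : V} {s : ℕ} {g g' : E} (hg : c.InC z s g) (hg' : c.InC z s g')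
    (hne : g ≠ g') : ∃ k, c.Ho z k ∧ (k = g ∨ k = g') := by
  rcases hg with h | ⟨h, -⟩
  · rcases hg' with h' | ⟨h', -⟩
    · exact absurd (h.trans h'.symm) hne
    · exact ⟨g', h', Or.inr rfl⟩
  · exact ⟨g, h, Or.inl rfl⟩

theorem Ok.CP_ne (hc : c.Ok) {z : V} {s : ℕ} {g g' : E} (hg : c.InC z s g) (hg' : c.InC z s g')
    (hne : g ≠ g') : g ≠ c.P z ∧ g ≠ c.Q z := by
  rcases hg with h | ⟨h, -⟩
  · rcases hg' with h' | ⟨h', -⟩
    · exact absurd (h.trans h'.symm) hne
    · rw [h]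
      exact ⟨hc.A_ne_P h'.1, hc.A_ne_Q h'.1⟩
  · exact ⟨h.1.1.2.2.1, h.1.1.2.2.2⟩

theorem Ok.CP_A (hc : c.Ok) {z : V} {s : ℕ} {g g' : E} (hg : c.InC z s g) (hg' : c.InC z s g')
    (hne : g ≠ g') : c.T (c.A z) ≤ c.T g := by
  rcases hg with h | ⟨h, -⟩
  · rw [h]
  · exact (hc.Ho_A h).le

/-- The corner `q` which ends the cluster. Proof: one of `g, g'` is hosted (CP_Ho), say `k`; take
`q = C z k`. If not `pq z`: `g, g'` are before `s ≤ T q`. If `pq z`: `q = P z = Q z`, use LR_C for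
hosted ones and Ho_A for `A z`. -/
theorem Ok.CP_q (hc : c.Ok) {z : V} {s : ℕ} {g g' : E} (hg : c.InC z s g) (hg' : c.InC z s g')
    (hne : g ≠ g') (h1 : c.T g < s) (h2 : c.T g' < s) :
    ∃ q, (q = c.P z ∨ q = c.Q z) ∧ (c.pq z ∨ s ≤ c.T q) ∧ c.T g < c.T q ∧ c.T g' < c.T q := by
  obtain ⟨k, hk, hkg⟩ := hc.CP_Ho hg hg' hne
  by_cases hpq : c.pq z
  · have hC : ∀ f, c.C z f = c.P z := by
      intro f
      by_cases hsd : c.sd f
      · rw [hc.CL z f hsd]; exact hpq.symm
      · exact hc.CR z f hsd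
    have key : ∀ f, c.InC z s f → c.T f < c.T (c.P z) := by
      intro f hf
      rcases hf with hf | ⟨hf, -⟩
      · have h3 := hc.Ho_A hk
        have h4 := hc.LR_C hk.1
        rw [hC] at h4
        rw [hf]; omega
      · have h4 := hc.LR_C hf.1
        rwa [hC] at h4
    exact ⟨c.P z, Or.inl rfl, Or.inl hpq, key g hg, key g' hg'⟩
  · have hCk : c.InC z s k := by
      rcases hkg with h | h
      · rw [h]; exact hg
      · rw [h]; exact hg'
    have hsT : s ≤ c.T (c.C z k) := by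
      rcases hCk with h | ⟨-, h | h⟩
      · have := hc.Ho_A hk
        rw [← h] at this; omega
      · exact absurd h hpq
      · exact h
    refine ⟨c.C z k, ?_, Or.inr hsT, by omega, by omega⟩
    by_cases hsd : c.sd k
    · right; exact hc.CL z k hsd
    · left; exact hc.CR z k hsd

/-- Proof: `q := P z = Q z`. `u ∉ q` since otherwise `u, z ∈ g, q` gives `g = q`.
`a1 u < b1 g ≤ b1 q`, `a2 u < b2 g ≤ b2 q`, so `late` applies. -/
theorem Ok.pq_dead (hc : c.Ok) {z u : V} {g e : E} (hq : c.pq z) (hu : u ≠ z) (hug : c.mem u g)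
    (hzg : c.mem z g) (hT : c.T g < c.T (c.P z)) (he : c.mem u e) : c.T e < c.T (c.P z) := by
  have hgP : g ≠ c.P z := fun h => by rw [h] at hT; omega
  have hn : ¬ c.mem u (c.P z) := fun h => hgP (hc.lin u z g _ hu hug hzg h (hc.memP z))
  have h1 := (hc.mem_iff _ _).1 hug
  have h2 := hc.maxP z g hzg
  have h3 := hc.maxQ z g hzg
  have h4 : c.b2 (c.P z) = c.b2 (c.Q z) := by rw [show c.P z = c.Q z from hq]
  exact hc.late (by omega) (by omega) hn he

/-- Cluster neighbours. Proof: take `q` from `CP_q`. If `T q < s` then `pq z` and `pq_dead`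
contradicts `s ≤ T e`; so `s ≤ T q`. Position of `u` and `z` (four cases, both in `g`):
`u` left of `z`: `pql` gives `g = P u` or `g = Q z`, the latter contradicts `CP_ne`. Mirror image.
`z` below `u` (`a1 u < a1 z`, `a2 u < a2 z`): `u ∉ g'` (else `g = g'` by `lin`), so
`below_late` gives `T e < T g' < s`, contradiction. The fourth case is the third alternative. -/
theorem Ok.CL_nb (hc : c.Ok) {z u : V} {s : ℕ} {g g' e : E} (hg : c.InC z s g)
    (hg' : c.InC z s g') (hne : g ≠ g') (h1 : c.T g < s) (h2 : c.T g' < s) (hu : u ≠ z)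
    (hug : c.mem u g) (he : c.mem u e) (hs : s ≤ c.T e) :
    (∃ q, c.mem z q ∧ s ≤ c.T q) ∧
    ((c.a1 u < c.a1 z ∧ c.a2 z < c.a2 u ∧ g = c.P u) ∨
     (c.a1 z < c.a1 u ∧ c.a2 u < c.a2 z ∧ g = c.Q u) ∨
     (c.a1 z < c.a1 u ∧ c.a2 z < c.a2 u)) := by
  obtain ⟨q, hq, hqs, hq1, hq2⟩ := hc.CP_q hg hg' hne h1 h2
  have hgz := hc.InC_mem hg
  have hgz' := hc.InC_mem hg'
  have hqz : c.mem z q := by
    rcases hq with h | h
    · rw [h]; exact hc.memP z
    · rw [h]; exact hc.memQ z
  have hsq : s ≤ c.T q := by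
    rcases hqs with h | h
    · have hqP : q = c.P z := by
        rcases hq with h' | h'
        · exact h'
        · rw [h']; exact h.symm
      have h3 := hc.pq_dead h hu hug hgz (by rw [← hqP]; exact hq1) he
      rw [hqP]; omega
    · exact h
  refine ⟨⟨q, hqz, hsq⟩, ?_⟩
  have hne1 := hc.CP_ne hg hg' hne
  have n1 : c.a1 u ≠ c.a1 z := fun h => hu (hc.va1 _ _ h)
  have n2 : c.a2 u ≠ c.a2 z := fun h => hu (hc.va2 _ _ h)
  rcases lt_or_gt_of_ne n1 with a1 | a1
  · rcases lt_or_gt_of_ne n2 with a2 | a2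
    · -- `u` below `z`
      exfalso
      have hn : ¬ c.mem u g' := fun h => hne (hc.lin u z g g' hu hug hgz h hgz')
      have := hc.below_late a1 a2 hgz' hn he
      omega
    · left
      refine ⟨a1, a2, ?_⟩
      rcases hc.pql a1 a2 hug hgz with h | h
      · exact h
      · exact absurd h hne1.2
  · rcases lt_or_gt_of_ne n2 with a2 | a2
    · right; left
      refine ⟨a1, a2, ?_⟩
      rcases hc.pql a1 a2 hgz hug with h | h
      · exact absurd h hne1.1
      · exact h
    · right; right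
      exact ⟨a1, a2⟩

/-- Two edges of the same vertex are only in a cluster of this vertex. -/
theorem Ok.clu_same (hc : c.Ok) {w : V} {s : ℕ} {g g' : E} (hg : c.mem w g) (hg' : c.mem w g')
    (h : c.Clu s g g') : c.InC w s g ∧ c.InC w s g' := by
  obtain ⟨hne, z, h1, h2⟩ := h
  by_cases hz : z = w
  · subst hz; exact ⟨h1, h2⟩
  · exact absurd (hc.lin z w g g' hz (hc.InC_mem h1) hg (hc.InC_mem h2) hg') hne

theorem Ok.nclu_P (hc : c.Ok) {w : V} {s : ℕ} {g : E} (hg : c.mem w g) :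
    ¬ c.Clu s g (c.P w) := by
  intro h
  obtain ⟨h1, h2⟩ := hc.clu_same hg (hc.memP w) h
  exact (hc.CP_ne h2 h1 (Ne.symm h.1)).1 rfl

theorem Ok.nclu_Q (hc : c.Ok) {w : V} {s : ℕ} {g : E} (hg : c.mem w g) :
    ¬ c.Clu s g (c.Q w) := by
  intro h
  obtain ⟨h1, h2⟩ := hc.clu_same hg (hc.memQ w) h
  exact (hc.CP_ne h2 h1 (Ne.symm h.1)).2 rfl

/-- Edges of two vertices which meet later in `e` are not in a common cluster at the time of `e`.
Proof: Suppose `InC z (T e) g`, `InC z (T e) g'`, `g ≠ g'`. `z = u`: `u, v ∈ g', e` gives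
`g' = e`, contradiction. `z = v` likewise. So `z ≠ u, v`, and `CL_nb` applies to `u` and to `v`
(with `e` as the later edge). There is `q` with `z ∈ q`, `T e ≤ T q`; `z ∉ e` (else `g = e`), so
`T e < T q`. `u` below `z`: `below_late` for `e` (`z ∉ e`) gives `T q < T e`. Same for `v`.
`u, v` both left of `z`, `g = P u`, `g' = P v`: compare `u` and `v`. `u` left of `v`:
`a1 v < a1 z < b1 g`, `a2 v < a2 u < b2 g`, `v ∉ g`: `late` gives `T e < T g`, contradiction;
`u` below `v`: `v ∉ g`, `below_late` gives `T e < T g`; symmetric cases alike. Both right: mirror.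
`u` left of `z` left of `v`: `a1 z < a1 v < b1 e`, `a2 z < a2 u < b2 e`, `z ∉ e`: `late` gives
`T q < T e`. Contradiction. Mirror. -/
theorem Ok.ncm (hc : c.Ok) {u v : V} {e g g' : E} (huv : u ≠ v) (hue : c.mem u e)
    (hve : c.mem v e) (hug : c.mem u g) (hvg : c.mem v g') (h1 : c.T g < c.T e)
    (h2 : c.T g' < c.T e) : ¬ c.Clu (c.T e) g g' := by
  rintro ⟨hne, z, hz, hz'⟩
  have hgz := hc.InC_mem hz
  have hgz' := hc.InC_mem hz'
  have hge : g ≠ e := fun h => by rw [h] at h1; omega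
  have hge' : g' ≠ e := fun h => by rw [h] at h2; omega
  have hzu : u ≠ z := by
    intro h
    subst h
    exact hge' (hc.lin u v g' e huv hgz' hvg hue hve)
  have hzv : v ≠ z := by
    intro h
    subst h
    exact hge (hc.lin v u g e (Ne.symm huv) hgz hug hve hue)
  obtain ⟨⟨q, hq, hqT⟩, hU⟩ := hc.CL_nb hz hz' hne h1 h2 hzu hug hue le_rfl
  obtain ⟨-, hV⟩ := hc.CL_nb hz' hz (Ne.symm hne) h2 h1 hzv hvg hve le_rfl
  have hze : ¬ c.mem z e := fun h => hge (hc.lin u z g e hzu hug hgz hue h)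
  have hqe : q ≠ e := fun h => hze (h ▸ hq)
  have hqT' : c.T e < c.T q := lt_of_le_of_ne hqT (fun h => hqe (hc.T_inj _ _ h).symm)
  have hvg' : ¬ c.mem v g := fun h => hge (hc.lin u v g e huv hug h hue hve)
  have hug' : ¬ c.mem u g' := fun h => hge' (hc.lin u v g' e huv h hvg hue hve)
  have ue := (hc.mem_iff _ _).1 hue
  have ve := (hc.mem_iff _ _).1 hve
  have ug := (hc.mem_iff _ _).1 hug
  have vg := (hc.mem_iff _ _).1 hvg
  have zg := (hc.mem_iff _ _).1 hgz
  have zg' := (hc.mem_iff _ _).1 hgz'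
  have n1 : c.a1 u ≠ c.a1 v := fun h => huv (hc.va1 _ _ h)
  have n2 : c.a2 u ≠ c.a2 v := fun h => huv (hc.va2 _ _ h)
  rcases hU with ⟨u1, u2, u3⟩ | ⟨u1, u2, u3⟩ | ⟨u1, u2⟩
  · rcases hV with ⟨v1, v2, v3⟩ | ⟨v1, v2, v3⟩ | ⟨v1, v2⟩
    · -- both left of `z`
      rcases lt_or_gt_of_ne n2 with h3 | h3
      · -- `a2 u < a2 v`: `u` is not in `g'`
        have := hc.late (v := u) (g := g') (by omega) (by omega) hug' hue
        omega
      · have := hc.late (v := v) (g := g) (by omega) (by omega) hvg' hve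
        omega
    · have := hc.late (v := z) (g := e) (by omega) (by omega) hze hq
      omega
    · have := hc.below_late v1 v2 hve hze hq
      omega
  · rcases hV with ⟨v1, v2, v3⟩ | ⟨v1, v2, v3⟩ | ⟨v1, v2⟩
    · have := hc.late (v := z) (g := e) (by omega) (by omega) hze hq
      omega
    · rcases lt_or_gt_of_ne n1 with h3 | h3
      · have := hc.late (v := u) (g := g') (by omega) (by omega) hug' hue
        omega
      · have := hc.late (v := v) (g := g) (by omega) (by omega) hvg' hve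
        omega
    · have := hc.below_late v1 v2 hve hze hq
      omega
  · have := hc.below_late u1 u2 hue hze hq
    omega

end Cf
end Pool.Agent.Tri
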