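import Pool.Agent.Helper57.Tri.CC

/-! Combinatorics, part D: witnesses. -/

set_option autoImplicit false

namespace Pool.Agent.Tri
namespace Cf

variable {V E : Type} {c : Cf V E}

/-- Proof: `g ∋ z` with `T e < T g`: `2 a3 z < lev g ≤ lev e ≤ 2 b3 e`. -/
theorem Ok.alive_a3 (hc : c.Ok) {z : V} {e : E} (h : c.alive z e) : c.a3 z < c.b3 e := by
  obtain ⟨_, _, g, hg, hT⟩ := h
  have h1 := hc.lev_gt hg
  have h2 := hc.T_lev e g hT
  have h3 := hc.lev_le e
  omega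

theorem Ok.alive_side (hc : c.Ok) {z : V} {e : E} (h : c.alive z e) :
    c.b1 e < c.a1 z ∨ c.b2 e < c.a2 z := by
  have h1 := hc.alive_a3 h
  have h2 := hc.ne1 z e
  have h3 := hc.ne2 z e
  have h4 := h.1
  rw [hc.mem_iff] at h4
  by_contra hcon
  rw [not_or] at hcon
  exact h4 ⟨by omega, by omega, h1⟩

/-- Proof: `dom` with `f = F z`. -/
theorem Ok.alive_excl (hc : c.Ok) {z : V} {e : E} (h : c.alive z e) (h1 : c.b1 e < c.a1 z)
    (h2 : c.b2 e < c.a2 z) : False := by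
  have h3 := (hc.mem_iff z (c.F z)).1 (hc.memF z)
  exact hc.dom (e := e) (f := c.F z) (by omega) (by omega) h.2.1

/-- `LW` vertices have an edge at or after `e`, and `F` strictly before -/
theorem Ok.LW_facts (hc : c.Ok) {u : V} {e : E} (h : c.LW u e) :
    c.T (c.F u) < c.T e ∧ ∃ f, c.mem u f ∧ c.T e ≤ c.T f := by
  rcases h with ⟨h, _⟩ | ⟨h1, _, _, h2⟩ | ⟨h, _⟩
  · obtain ⟨_, h1, g, hg, hT⟩ := h
    exact ⟨h1, g, hg, hT.le⟩
  · exact ⟨h2, e, h1, le_rfl⟩
  · exact ⟨hc.F_lt h.1.1.1 h.1.1.2.1, e, h.1.1.1, le_rfl⟩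

theorem Ok.RW_facts (hc : c.Ok) {u : V} {e : E} (h : c.RW u e) :
    c.T (c.F u) < c.T e ∧ ∃ f, c.mem u f ∧ c.T e ≤ c.T f := by
  have h' : c.swap.LW u e := (swap_LW u e).2 h
  exact (swap_ok hc).LW_facts h'

private theorem Ok.meet12 (hc : c.Ok) {u v : V} {e f : E} (h : c.b2 e < c.a2 u)
    (hv : e = c.Q v) (h1 : c.mem u f) (h2 : c.mem v f) : False := by
  have e1 := (hc.mem_iff u f).1 h1
  have e2 := hc.maxQ v f h2
  rw [← hv] at e2
  omega

private theorem Ok.meet13 (hc : c.Ok) {u v : V} {e f : E} (h : c.b2 e < c.a2 u)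
    (hv : c.freed v e) (hsd : c.sd e) (h1 : c.mem u f) (h2 : c.mem v f)
    (hT : c.T f < c.T e) : False := by
  have e1 := (hc.mem_iff u f).1 h1
  have hLR : c.LR v e := hv.1
  have hL := hc.sdL v e hLR hsd
  have hF : c.F v = c.P v := by
    rcases hv.2.1 with h3 | h3
    · exact absurd hL (hc.FQ_hasL h3 hLR.1)
    · exact h3
  have hTQ := hc.LR_Q hLR hsd
  have hP : ∀ g, g = c.P v → c.b1 e < c.b1 g := by
    intro g hg
    have h4 := hc.maxP v e hLR.1.1
    rw [← hg] at h4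
    have h5 : c.b1 e ≠ c.b1 g := fun h6 => hLR.1.2.2.1 ((hc.eb1 e g h6).trans hg)
    omega
  rcases hc.edge_class h2 with h3 | h3 | h3 | h3 | h3
  · exact hc.dom (e := e) (f := f) (hP f (h3.trans hF)) (by omega) hT
  · exact hc.dom (e := e) (f := f) (hP f h3) (by omega) hT
  · rw [← h3] at hTQ
    omega
  · have h4 := (hc.h_top v f hv.2.1 h3).2
    rw [← hv.2.2] at h4
    have h5 := hc.b3_of_T hT (hc.LR_nb hLR)
    omega
  · have h4 := hc.bt_TQ h3
    omega

/-- A left witness and a right witness have not met before `e`.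
Proof. Number the alternatives of `LW u e` and `RW v e` by 1, 2, 3.
(1,1): `b2 e < a2 u < b2 f`, `b1 e < a1 v < b1 f`: `dom`.
(1,2): `e = Q v`: `b2 f ≤ b2 e < a2 u < b2 f`.
(1,3): `freed v e`, `sd e`; `hasL v e` (sdL), so `F v ≠ Q v` (FQ_hasL), so `F v = P v`.
`b2 e < a2 u < b2 f`. `edge_class` for `f ∋ v`: `f = F v = P v`: `b1 e < b1 f` (maxP and `e ≠ P v`),
`dom`. `f = Q v`: `T e < T (Q v)` (LR_Q). `LR v f`: `h_top`: `b3 f ≤ b3 e`; but `T f < T e` and `e` is
not BT, so `b3 e < b3 f` (b3_of_T). `BT v f`: `T (Q v) < T f` (bt_TQ) and `T e < T (Q v)`.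
(2,1): mirror of (1,2). (2,2), (2,3), (3,2): `u ≠ v` (otherwise `e = P u`, `e ≠ P u`), `u, v ∈ e, f`
gives `e = f`. (3,1): mirror of (1,3). (3,3): `sd e` and `¬ sd e`.
(Use `hc.swap_ok` and the swap lemmas for the mirror cases.) -/
theorem Ok.meet (hc : c.Ok) {u v : V} {e f : E} (hu : c.LW u e) (hv : c.RW v e)
    (h1 : c.mem u f) (h2 : c.mem v f) (hT : c.T f < c.T e) : False := by
  have hs := swap_ok hc
  rcases hu with ⟨hu, hu2⟩ | ⟨hu1, hu2, hu3, hu4⟩ | ⟨hu1, hu2⟩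
  · rcases hv with ⟨hv, hv2⟩ | ⟨hv1, hv2, hv3, hv4⟩ | ⟨hv1, hv2⟩
    · have e1 := (hc.mem_iff u f).1 h1
      have e2 := (hc.mem_iff v f).1 h2
      exact hc.dom (e := e) (f := f) (by omega) (by omega) hT
    · exact hc.meet12 hu2 hv2 h1 h2
    · exact hc.meet13 hu2 hv1 hv2 h1 h2 hT
  · rcases hv with ⟨hv, hv2⟩ | ⟨hv1, hv2, hv3, hv4⟩ | ⟨hv1, hv2⟩
    · exact hs.meet12 (u := v) (v := u) (e := e) (f := f) hv2 hu2 h2 h1
    · have hne : u ≠ v := fun h => hu3 (h ▸ hv2)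
      have := hc.lin u v e f hne hu1 hv1 h1 h2
      rw [this] at hT
      exact lt_irrefl _ hT
    · have hne : u ≠ v := fun h => hv1.1.1.2.2.1 (h ▸ hu2)
      have := hc.lin u v e f hne hu1 hv1.1.1.1 h1 h2
      rw [this] at hT
      exact lt_irrefl _ hT
  · rcases hv with ⟨hv, hv2⟩ | ⟨hv1, hv2, hv3, hv4⟩ | ⟨hv1, hv2⟩
    · exact hs.meet13 (u := v) (v := u) (e := e) (f := f) hv2
        ((swap_freed u e).2 hu1) hu2 h2 h1 hT
    · have hne : v ≠ u := fun h => hu1.1.1.2.2.2 (h ▸ hv2)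
      have := hc.lin v u e f hne hv1 hu1.1.1.1 h2 h1
      rw [this] at hT
      exact lt_irrefl _ hT
    · exact hu2 hv2

private theorem Ok.lw1 (hc : c.Ok) {u v : V} {e : E} (hu : c.alive u e) (hu2 : c.b2 e < c.a2 u)
    (hv : c.RW v e) (hve : c.mem v e) : c.a1 u < c.a1 v ∧ c.a2 v < c.a2 u := by
  have e1 := (hc.mem_iff v e).1 hve
  have k2 : c.a2 v < c.a2 u := by omega
  refine ⟨?_, k2⟩
  by_contra hcon
  have hne : c.a1 u ≠ c.a1 v := fun h => by
    have := hc.va1 u v h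
    subst this
    exact lt_irrefl _ k2
  have k1 : c.a1 v < c.a1 u := by omega
  by_cases hF : c.mem v (c.F u)
  · exact hc.meet (Or.inl ⟨hu, hu2⟩) hv (hc.memF u) hF hu.2.1
  · have := hc.below_late k1 k2 (hc.memF u) hF hve
    have := hu.2.1
    omega

private theorem Ok.lw23 (hc : c.Ok) {u v : V} {e : E}
    (hu : c.mem u e ∧ e = c.P u ∧ e ≠ c.Q u ∧ c.T (c.F u) < c.T e) (hv : c.freed v e) :
    c.a1 u < c.a1 v ∧ c.a2 v < c.a2 u := by
  obtain ⟨hu1, hu2, hu3, hu4⟩ := hu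
  have hne : u ≠ v := fun h => hv.1.1.2.2.1 (h ▸ hu2)
  have hn1 : ¬ c.mem v (c.F u) := fun h => by
    have := hc.lin u v e (c.F u) hne hu1 hv.1.1.1 (hc.memF u) h
    rw [← this] at hu4
    exact lt_irrefl _ hu4
  rcases hc.host_D hv.1.1 hu1 hne with ⟨k1, k2, _⟩ | ⟨k1, k2, _⟩ | ⟨k1, k2, _⟩
  · exact ⟨k1, k2⟩
  · rcases hc.pql (z := v) (w := u) (f := e) k1 k2 hv.1.1.1 hu1 with h | h
    · exact absurd h hv.1.1.2.2.1
    · exact absurd h hu3
  · have := hc.below_late k1 k2 (hc.memF u) hn1 hv.1.1.1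
    omega

/-- Left witness and right witness: `u` is left of `v`.
Proof. `u ≠ v` (as in `meet`; in case (1,1) `alive_excl`).
(1,1): `a1 u < b1 e` (`alive_excl`, ne1) `< a1 v`; `a2 v < b2 e < a2 u`.
(1,2),(1,3): `v ∈ e`: `a2 v < b2 e < a2 u`. If `a1 v < a1 u`: if `v ∉ F u` then `below_late`
(w := v, u := u, g := F u) gives `T e < T (F u)`, contradiction; so `v ∈ F u` and `meet` with
`f = F u` gives False. (2,1),(3,1): mirror.
(2,2): `u, v ∈ e`, `e = P u ≠ Q u`, `e = Q v ≠ P v`. `u` below `v`: `v ∉ F u` (lin, `F u ≠ e`),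
`below_late`: `T e < T (F u)`. `v` below `u`: same with `F v`. `v` left of `u`: `pql` gives
`e = P v` or `e = Q u`.
(2,3): `e = P u ≠ Q u`, `freed v e`. `host_D` for `v`: `u` left of `v` fine; `v` left of `u`: `pql`:
`e = P v` or `e = Q u`, no; `u` below `v`: as in (2,2). (3,2): mirror. (3,3): `sd`. -/
theorem Ok.lw_rw (hc : c.Ok) {u v : V} {e : E} (hu : c.LW u e) (hv : c.RW v e) :
    c.a1 u < c.a1 v ∧ c.a2 v < c.a2 u := by
  have hs := swap_ok hc
  rcases hu with hu | hu | hu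
  · rcases hv with hv | hv | hv
    · have e1 : c.a1 u < c.b1 e := by
        have h1 := hc.ne1 u e
        have h2 : ¬ c.b1 e < c.a1 u := fun h => hc.alive_excl hu.1 h hu.2
        omega
      have e2 : c.a2 v < c.b2 e := by
        have h1 := hc.ne2 v e
        have h2 : ¬ c.b2 e < c.a2 v := fun h => hc.alive_excl hv.1 hv.2 h
        omega
      have h3 := hu.2
      have h4 := hv.2
      exact ⟨by omega, by omega⟩
    · exact hc.lw1 hu.1 hu.2 (Or.inr (Or.inl hv)) hv.1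
    · exact hc.lw1 hu.1 hu.2 (Or.inr (Or.inr hv)) hv.1.1.1.1
  · rcases hv with hv | hv | hv
    · have h := hs.lw1 (u := v) (v := u) (e := e) hv.1 hv.2
        ((swap_RW u e).2 (Or.inr (Or.inl hu))) hu.1
      exact ⟨h.2, h.1⟩
    · obtain ⟨hu1, hu2, hu3, hu4⟩ := hu
      obtain ⟨hv1, hv2, hv3, hv4⟩ := hv
      have hne : u ≠ v := fun h => hu3 (h ▸ hv2)
      have hn1 : ¬ c.mem v (c.F u) := fun h => by
        have := hc.lin u v e (c.F u) hne hu1 hv1 (hc.memF u) h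
        rw [← this] at hu4
        exact lt_irrefl _ hu4
      have hn2 : ¬ c.mem u (c.F v) := fun h => by
        have := hc.lin u v e (c.F v) hne hu1 hv1 h (hc.memF v)
        rw [← this] at hv4
        exact lt_irrefl _ hv4
      have d1 : c.a1 u ≠ c.a1 v := fun h => hne (hc.va1 u v h)
      have d2 : c.a2 u ≠ c.a2 v := fun h => hne (hc.va2 u v h)
      rcases lt_or_gt_of_ne d1 with k1 | k1
      · rcases lt_or_gt_of_ne d2 with k2 | k2
        · have := hc.below_late k1 k2 (hc.memF v) hn2 hu1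
          omega
        · exact ⟨k1, k2⟩
      · rcases lt_or_gt_of_ne d2 with k2 | k2
        · rcases hc.pql (z := v) (w := u) (f := e) k1 k2 hv1 hu1 with h | h
          · exact absurd h hv3
          · exact absurd h hu3
        · have := hc.below_late k1 k2 (hc.memF u) hn1 hv1
          omega
    · exact hc.lw23 hu hv.1
  · rcases hv with hv | hv | hv
    · have h := hs.lw1 (u := v) (v := u) (e := e) hv.1 hv.2
        ((swap_RW u e).2 (Or.inr (Or.inr hu))) hu.1.1.1.1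
      exact ⟨h.2, h.1⟩
    · have h := hs.lw23 (u := v) (v := u) (e := e) hv ((swap_freed u e).2 hu.1)
      exact ⟨h.2, h.1⟩
    · exact absurd hv.2 hu.2

/-- Proof: alternative 2: `v ≠ w` (host), `bt_F` gives `e = F v`, contradiction with
`T (F v) < T e`. Alternative 3: `host_unique`, then LR and BT at the same time. -/
theorem Ok.bt_rw (hc : c.Ok) {w v : V} {e : E} (hw : c.BT w e) (hv : c.RW v e) :
    c.alive v e ∧ c.b1 e < c.a1 v := by
  rcases hv with hv | ⟨h1, h2, h3, h4⟩ | ⟨h1, h2⟩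
  · exact hv
  · exfalso
    have hne : v ≠ w := fun h => hw.1.2.2.2 (h ▸ h2)
    have := hc.bt_F hw h1 hne
    rw [← this] at h4
    exact lt_irrefl _ h4
  · exfalso
    have := hc.host_unique hw.1 h1.1.1
    subst this
    rcases h1.1.2 with h | h
    · exact hw.2.1 h
    · exact hw.2.2 h

theorem Ok.bt_lw (hc : c.Ok) {w v : V} {e : E} (hw : c.BT w e) (hv : c.LW v e) :
    c.alive v e ∧ c.b2 e < c.a2 v := by
  have h := (swap_ok hc).bt_rw ((swap_BT w e).2 hw) ((swap_RW v e).2 hv)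
  exact h

end Cf
end Pool.Agent.Tri
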