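import Mathlib

/-! Hulls of three points. -/

set_option autoImplicit false

namespace Pool.Agent.Tri

private theorem hull_of_wbtw {x y z : ℝ × ℝ} (h : Wbtw ℝ x y z) {s : Set (ℝ × ℝ)}
    (hs : s = {x, y, z}) : convexHull ℝ s = segment ℝ x z := by
  subst hs
  apply Set.Subset.antisymm
  · refine convexHull_min ?_ (convex_segment x z)
    rintro w (rfl | rfl | rfl)
    · exact left_mem_segment ℝ _ _
    · exact h.mem_segment
    · exact right_mem_segment ℝ _ _
  · rw [← convexHull_pair]
    refine convexHull_mono ?_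
    rintro w (rfl | rfl)
    · simp
    · simp

/-- The convex hull of three points, not all equal, is a triangle or a segment.
Proof: collinear: sort the three points along the line; the hull is the segment of the extreme
ones. -/
theorem hull3 {a b d : ℝ × ℝ} (h : a ≠ b) :
    (∃ p q r : ℝ × ℝ, ¬ Collinear ℝ ({p, q, r} : Set (ℝ × ℝ)) ∧
      convexHull ℝ ({a, b, d} : Set (ℝ × ℝ)) = convexHull ℝ ({p, q, r} : Set (ℝ × ℝ))) ∨
    (∃ p q : ℝ × ℝ, p ≠ q ∧ convexHull ℝ ({a, b, d} : Set (ℝ × ℝ)) = segment ℝ p q) := by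
  by_cases hc : Collinear ℝ ({a, b, d} : Set (ℝ × ℝ))
  · right
    rcases hc.wbtw_or_wbtw_or_wbtw with h1 | h1 | h1
    · refine ⟨a, d, ?_, hull_of_wbtw h1 rfl⟩
      rintro rfl
      exact h ((wbtw_self_iff (R := ℝ)).mp h1).symm
    · refine ⟨b, a, h.symm, hull_of_wbtw h1 ?_⟩
      ext w
      simp only [Set.mem_insert_iff, Set.mem_singleton_iff]
      tauto
    · refine ⟨d, b, ?_, hull_of_wbtw h1 ?_⟩
      · rintro rfl
        exact h ((wbtw_self_iff (R := ℝ)).mp h1)
      · ext w
        simp only [Set.mem_insert_iff, Set.mem_singleton_iff]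
        tauto
  · exact Or.inl ⟨a, b, d, hc, rfl⟩

end Pool.Agent.Tri
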