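import Pool.Agent.Helper57.Tri.YC
import Pool.Agent.Helper57.Tri.FA1

/-! Shapes of the triangles. -/

set_option autoImplicit false

namespace Pool.Agent.Tri
namespace Cf

variable {V E : Type} {c : Cf V E}

/-- a corner other than `F v` is deeper than `F v` -/
private theorem h20_pt_ne (hc : c.Ok) (hs : c.Sq) (hx : c.XR) (hy : c.YR) {v : V} {g : E}
    (hg : c.cor v g) (hne : g ≠ c.F v) : c.pt (c.F v) ≠ c.pt g := by
  intro h
  have h1 : c.y (c.F v) = c.y g := congrArg Prod.snd h
  have h2 := hy.nb g (hc.cor_nb hg hne)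
  have h3 := y_ub hc hs hx hy (c.F v)
  have h4 := hc.F_lt (hc.cor_mem hg) hne
  have h5 : c.K (c.T (c.F v) + 1) < c.K (c.T g + 1) := hs.K_lt (by omega)
  linarith

private theorem h20_hull {v : V} {a b d : E} (hab : c.pt a ≠ c.pt b)
    (h : ∀ g, c.cor v g ↔ (g = a ∨ g = b ∨ g = d)) :
    (∃ p q r : ℝ × ℝ, ¬ Collinear ℝ ({p, q, r} : Set (ℝ × ℝ)) ∧
      c.tri v = convexHull ℝ ({p, q, r} : Set (ℝ × ℝ))) ∨
    (∃ p q : ℝ × ℝ, p ≠ q ∧ c.tri v = segment ℝ p q) := by
  have h1 : c.pt '' {g | c.cor v g} = {c.pt a, c.pt b, c.pt d} := by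
    have h2 : {g | c.cor v g} = {a, b, d} := by
      ext g
      exact h g
    rw [h2, Set.image_insert_eq, Set.image_pair]
  unfold tri
  rw [h1]
  exact hull3 hab

/-- a vertex with at least two edges. Proof. At most three corners: `top w`: `F w` is `Q w` or `P w`;
otherwise, `pq w`: `P w = Q w`; otherwise `h w = F w` (h_else). Not all points are equal: there is a
corner `g ≠ F v` (if `P v = Q v = F v` then `pq_top` says `F v` is the only edge); `g` is not a bottom edge
(cor_nb): `y g = K (T g + 1) > K (T (F v) + 1) ≥ y (F v)`. `hull3`. -/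
theorem tri_shape (hc : c.Ok) (hs : c.Sq) (hx : c.XR) (hy : c.YR) {v : V} {g : E}
    (hg : c.mem v g) (hne : g ≠ c.F v) :
    (∃ p q r : ℝ × ℝ, ¬ Collinear ℝ ({p, q, r} : Set (ℝ × ℝ)) ∧
      c.tri v = convexHull ℝ ({p, q, r} : Set (ℝ × ℝ))) ∨
    (∃ p q : ℝ × ℝ, p ≠ q ∧ c.tri v = segment ℝ p q) := by
  have hP : c.cor v (c.P v) := Or.inr (Or.inl rfl)
  have hQ : c.cor v (c.Q v) := Or.inr (Or.inr (Or.inl rfl))
  by_cases ht : c.top v
  · rcases ht with h | h
    · -- `F = Q`
      have hPF : c.P v ≠ c.F v := fun h2 =>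
        hne (hc.pq_top (h2.trans h) (Or.inl h) hg)
      refine h20_hull (a := c.F v) (b := c.P v) (d := c.h v)
        (h20_pt_ne hc hs hx hy hP hPF) fun k => ?_
      unfold cor
      rw [← h]
      tauto
    · -- `F = P`
      have hQF : c.Q v ≠ c.F v := fun h2 =>
        hne (hc.pq_top (h2.trans h).symm (Or.inr h) hg)
      refine h20_hull (a := c.F v) (b := c.Q v) (d := c.h v)
        (h20_pt_ne hc hs hx hy hQ hQF) fun k => ?_
      unfold cor
      rw [← h]
      tauto
  · have hPF : c.P v ≠ c.F v := fun h2 => ht (Or.inr h2.symm)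
    by_cases hpq : c.pq v
    · refine h20_hull (a := c.F v) (b := c.P v) (d := c.h v)
        (h20_pt_ne hc hs hx hy hP hPF) fun k => ?_
      unfold cor
      have : c.Q v = c.P v := Eq.symm hpq
      rw [this]
      tauto
    · refine h20_hull (a := c.F v) (b := c.P v) (d := c.Q v)
        (h20_pt_ne hc hs hx hy hP hPF) fun k => ?_
      unfold cor
      rw [hc.h_else v ht hpq]
      tauto

/-- a vertex with one edge -/
theorem tri_leaf (hc : c.Ok) {v : V} (h : ∀ g, c.mem v g → g = c.F v) :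
    c.tri v = {c.pt (c.F v)} := by
  have h1 : {g | c.cor v g} = {c.F v} := by
    ext g
    constructor
    · intro hg
      exact h g (hc.cor_mem hg)
    · intro hg
      exact Or.inl hg
  unfold tri
  rw [h1, Set.image_singleton, convexHull_singleton]

end Cf
end Pool.Agent.Tri
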