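import Pool.Agent.Helper57.Tri.GA1

/-! Points of edges are in the triangles of their vertices. -/

set_option autoImplicit false

namespace Pool.Agent.Tri
namespace Cf

variable {V E : Type} {c : Cf V E}

private theorem seg_mem {a b e : ℝ × ℝ} {S : Set (ℝ × ℝ)} (ha : a ∈ S) (hb : b ∈ S) {t d : ℝ}
    (ht : 0 ≤ t) (htd : t ≤ d) (hd : 0 < d)
    (h1 : d * e.1 = (d - t) * a.1 + t * b.1) (h2 : d * e.2 = (d - t) * a.2 + t * b.2) :
    e ∈ convexHull ℝ S := by
  refine segment_subset_convexHull ha hb ?_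
  refine ⟨(d - t) / d, t / d, by apply div_nonneg <;> linarith, by positivity, by field_simp; ring,
    ?_⟩
  ext
  · simp only [Prod.fst_add, Prod.smul_fst, smul_eq_mul]
    field_simp
    linarith
  · simp only [Prod.snd_add, Prod.smul_snd, smul_eq_mul]
    field_simp
    linarith

private def mir : (ℝ × ℝ) →ₗ[ℝ] (ℝ × ℝ) where
  toFun p := (-p.1, p.2)
  map_add' p q := by ext <;> simp [add_comm]
  map_smul' r p := by ext <;> simp

private theorem mem_tri_of_swap {w : V} {e : E} (h : c.swap.pt e ∈ c.swap.tri w) :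
    c.pt e ∈ c.tri w := by
  unfold tri at h ⊢
  have h1 : mir (c.swap.pt e) ∈ mir '' convexHull ℝ (c.swap.pt '' {g | c.swap.cor w g}) :=
    Set.mem_image_of_mem _ h
  rw [LinearMap.image_convexHull] at h1
  have h2 : mir (c.swap.pt e) = c.pt e := by
    show ((- - c.x e, c.y e) : ℝ × ℝ) = (c.x e, c.y e)
    rw [neg_neg]
  have h3 : mir '' (c.swap.pt '' {g | c.swap.cor w g}) = c.pt '' {g | c.cor w g} := by
    rw [Set.image_image]
    have h4 : ∀ g, mir (c.swap.pt g) = c.pt g := by
      intro g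
      show ((- - c.x g, c.y g) : ℝ × ℝ) = (c.x g, c.y g)
      rw [neg_neg]
    simp only [h4, swap_cor]
  rwa [h2, h3] at h1

/-- Proof: `edge_class`. `F, P, Q`: corners. `BT w e`: convex combination of `pt (Q w)`, `pt (P w)`
(line equation, `bt_x`). `LR w e`: `freed`: corner `h w`. `Ho w e`, `pq w`: `¬ top w` (pq_top),
`LR w (h w)` (h_pq), `Ho w (h w)`, `x (h w) = x (A w) = x (F w) = x e`, `y (F w) < y e ≤ y (h w)`
(`b3 (h w) ≤ b3 e`, so `T e ≤ T (h w)`): convex combination. `Ho w e`, `¬ pq w`: `host_tri_r` or its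
mirror image (the triangle of the mirror image is the image under `(x, y) ↦ (-x, y)`). -/
theorem mem_tri (hc : c.Ok) (hs : c.Sq) (hx : c.XR) (hy : c.YR) {w : V} {e : E}
    (he : c.mem w e) : c.pt e ∈ c.tri w := by
  have hcor : ∀ g, c.cor w g → c.pt g ∈ c.pt '' {g | c.cor w g} :=
    fun g hg => ⟨g, hg, rfl⟩
  have hsub : ∀ g, c.cor w g → c.pt g ∈ c.tri w := fun g hg =>
    subset_convexHull ℝ _ (hcor g hg)
  rcases hc.edge_class he with h | h | h | h | h
  · exact hsub e (Or.inl h)
  · exact hsub e (Or.inr (Or.inl h))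
  · exact hsub e (Or.inr (Or.inr (Or.inl h)))
  · by_cases hf : c.top w ∧ e = c.h w
    · exact hsub e (Or.inr (Or.inr (Or.inr hf.2)))
    · have hHo : c.Ho w e := ⟨h, hf⟩
      by_cases hpq : c.pq w
      · have hnt : ¬ c.top w := fun ht => h.1.2.1 (hc.pq_top hpq ht he)
        by_cases heh : e = c.h w
        · exact hsub e (Or.inr (Or.inr (Or.inr heh)))
        obtain ⟨h1, h2⟩ := hc.h_pq w e hnt hpq h
        have hHoh : c.Ho w (c.h w) := ⟨h1, fun hh => hnt hh.1⟩
        have hA := hc.A_bot w hnt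
        have hxe : c.x e = c.x (c.F w) := by rw [← hA]; exact hx.hpq w e hHo hpq
        have hxh : c.x (c.h w) = c.x (c.F w) := by rw [← hA]; exact hx.hpq w _ hHoh hpq
        have hTe : c.T e ≤ c.T (c.h w) := by
          by_contra hlt
          have := hc.b3_of_T (not_le.1 hlt) (hc.LR_nb h)
          omega
        have hye : c.y e = c.K (c.T e + 1) := hy.nb e (hc.LR_nb h)
        have hyh : c.y (c.h w) = c.K (c.T (c.h w) + 1) := hy.nb _ (hc.LR_nb h1)
        have hyF := y_ub hc hs hx hy (c.F w)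
        have hTF : c.T (c.F w) < c.T e := hc.F_lt he h.1.2.1
        have hK1 : c.K (c.T (c.F w) + 1) < c.K (c.T e + 1) := hs.K_lt (by omega)
        have hK2 : c.K (c.T e + 1) ≤ c.K (c.T (c.h w) + 1) := hs.K_mono (by omega)
        refine seg_mem (hcor _ (Or.inl rfl)) (hcor _ (Or.inr (Or.inr (Or.inr rfl))))
          (t := c.y e - c.y (c.F w)) (d := c.y (c.h w) - c.y (c.F w)) (by linarith) (by linarith)
          (by linarith) ?_ ?_
        · show (c.y (c.h w) - c.y (c.F w)) * c.x e = _ * c.x (c.F w) + _ * c.x (c.h w)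
          rw [hxe, hxh]
          ring
        · show (c.y (c.h w) - c.y (c.F w)) * c.y e = _ * c.y (c.F w) + _ * c.y (c.h w)
          ring
      · by_cases hsd : c.sd e
        · apply mem_tri_of_swap
          exact host_tri_r (swap_ok hc) (swap_sq hs) (swap_xr hx) (swap_yr hy)
            ((swap_Ho w e).2 hHo) (by rwa [swap_pq]) (by rw [swap_sd]; exact not_not.2 hsd)
        · exact host_tri_r hc hs hx hy hHo hpq hsd
  · obtain ⟨h1, h2⟩ := bt_x hc hs hx h
    have h3 := hy.bt w e h
    refine seg_mem (hcor _ (Or.inr (Or.inr (Or.inl rfl)))) (hcor _ (Or.inr (Or.inl rfl)))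
      (t := c.x e - c.x (c.Q w)) (d := c.x (c.P w) - c.x (c.Q w)) (by linarith) (by linarith)
      (by linarith) ?_ ?_
    · show (c.x (c.P w) - c.x (c.Q w)) * c.x e = _ * c.x (c.Q w) + _ * c.x (c.P w)
      ring
    · show (c.x (c.P w) - c.x (c.Q w)) * c.y e = _ * c.y (c.Q w) + _ * c.y (c.P w)
      linarith

end Cf
end Pool.Agent.Tri
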