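import Pool.Agent.Helper57.Tri.GB1
import Pool.Agent.Helper33.TriSeg.Sides

/-! Disjointness of two convex hulls from side conditions at the corners. -/

set_option autoImplicit false

namespace Pool.Agent.Tri
namespace Cf

variable {V E : Type} {c : Cf V E}

/-- the corners of a vertex form a finite set -/
theorem cor_fin (z : V) : (c.pt '' {g | c.cor z g}).Finite := by
  apply Set.Finite.image
  apply Set.Finite.subset (s := {c.F z, c.P z, c.Q z, c.h z})
  · exact Set.toFinite _
  · intro g hg
    simp only [Set.mem_insert_iff, Set.mem_singleton_iff]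
    exact hg

/-- the points of `T_z` at the depth of `e` are left of the point of `e` -/
theorem lt_of_left {z : V} {e : E} (h : c.LeftOf z e) {t : ℝ × ℝ} (ht : t ∈ c.tri z)
    (hy : t.2 = c.y e) : t.1 < c.x e := by
  rcases support_right (cor_fin z) ht with ⟨a, ⟨g, hg, rfl⟩, h1, h2⟩ |
    ⟨a, ⟨g, hg, rfl⟩, d, ⟨k, hk, rfl⟩, h1, h2, h3⟩
  · have h1' : c.y g = t.2 := h1
    have h2' : t.1 ≤ c.x g := h2
    have := h.2 g hg (h1'.trans hy)
    linarith
  · have h1' : c.y g < t.2 := h1
    have h2' : t.2 < c.y k := h2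
    have h3' : (t.1 - c.x g) * (c.y k - t.2) ≤ (c.x k - t.1) * (t.2 - c.y g) := h3
    have h4 := h.1 g k hg hk (by rw [← hy]; exact h1') (by rw [← hy]; exact h2')
    rw [← hy] at h4
    have h5 : t.1 * (c.y k - c.y g) < c.x e * (c.y k - c.y g) := by nlinarith
    exact lt_of_mul_lt_mul_right h5 (by linarith)

/-- the triangle of the mirror image -/
theorem swap_tri_mem {z : V} {t : ℝ × ℝ} (ht : t ∈ c.tri z) :
    ((-t.1, t.2) : ℝ × ℝ) ∈ c.swap.tri z := by
  have hlin : IsLinearMap ℝ (fun p : ℝ × ℝ => ((-p.1, p.2) : ℝ × ℝ)) :=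
    ⟨fun _ _ => by ext <;> simp [add_comm], fun _ _ => by ext <;> simp⟩
  have h1 := hlin.image_convexHull (c.pt '' {g | c.cor z g})
  have h2 : (fun p : ℝ × ℝ => ((-p.1, p.2) : ℝ × ℝ)) '' (c.pt '' {g | c.cor z g}) =
      c.swap.pt '' {g | c.swap.cor z g} := by
    rw [Set.image_image]
    simp only [swap_cor]
    rfl
  unfold tri
  rw [← h2, ← h1]
  exact ⟨t, ht, rfl⟩

/-- the points of `T_z` at the depth of `e` are right of the point of `e` -/
theorem lt_of_right {z : V} {e : E} (h : c.RightOf z e) {t : ℝ × ℝ} (ht : t ∈ c.tri z)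
    (hy : t.2 = c.y e) : c.x e < t.1 := by
  have h1 : c.swap.LeftOf z e := (swap_LeftOf z e).2 h
  have h2 := lt_of_left h1 (swap_tri_mem ht) hy
  have h3 : -t.1 < -c.x e := h2
  linarith

/-- If `T_u` is left of all corners of `v` and `T_v` right of all corners of `u` then `T_u` and `T_v`
are disjoint. Proof: `support_right` for `u`, `support_left` for `v` (the corner sets are finite, at most
4 corners).
* both first alternatives: `a` (corner of `u`), `b` (of `v`) at the depth of `r` with
  `x b ≤ r.1 ≤ x a`; `RightOf v a` second part: `x a < x b`.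
* `u` first (`a`), `v` second (`b, d` with `y b < y a = r.2 < y d`): `RightOf v a` says
  `(x a - x d) (y a - y b) < (x b - x a) (y d - y a)`, and support_left says
  `(r.1 - x d) (y a - y b) ≤`... the point `r` is not left of the segment `b d`, and `r.1 ≤ x a`.
* `u` second, `v` first: mirror.
* both second: segments `[a, d]` of `u` and `[b, g]` of `v`. `X(y) = ` the abscissa of `[a, d]` at `y` minus
  the one of `[b, g]` is affine in `y`; `X(r.2) ≥ 0`. At `y = max (y a) (y b)`: if `y b < y a` this is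
  `RightOf v a` (first part, as `y a < r.2 < y g`): `X < 0`; if `y b = y a`: `RightOf v a` second part;
  if `y a < y b`: `LeftOf u b`. At `y = min (y d) (y g)` likewise. So `X(r.2) < 0`. -/
theorem disj_of_sides {u v : V} (h1 : ∀ e, c.cor u e → c.RightOf v e)
    (h2 : ∀ e, c.cor v e → c.LeftOf u e) {r : ℝ × ℝ} (hu : r ∈ c.tri u) (hv : r ∈ c.tri v) :
    False := by
  have := TriSeg.left_of_sides _ _ (cor_fin (c := c) u) (cor_fin (c := c) v)
    (by
      rintro a ⟨g, hg, rfl⟩ t ht hy
      exact lt_of_right (h1 g hg) ht hy)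
    (by
      rintro a ⟨g, hg, rfl⟩ t ht hy
      exact lt_of_left (h2 g hg) ht hy) r hu r hv rfl
  exact lt_irrefl _ this

/-- If all corners of `u` are higher than all corners of `v` -/
theorem disj_of_depth {u v : V} (h : ∀ a b, c.cor u a → c.cor v b → c.y b < c.y a)
    {r : ℝ × ℝ} (hu : r ∈ c.tri u) (hv : r ∈ c.tri v) : False := by
  have hlin : IsLinearMap ℝ (fun p : ℝ × ℝ => p.2) := ⟨fun _ _ => rfl, fun _ _ => rfl⟩
  -- the corner of `v` of maximal depth
  obtain ⟨b, hb, hbm⟩ : ∃ b, c.cor v b ∧ ∀ b', c.cor v b' → c.y b' ≤ c.y b := by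
    have hf : {g | c.cor v g}.Finite := by
      apply Set.Finite.subset (s := {c.F v, c.P v, c.Q v, c.h v})
      · exact Set.toFinite _
      · intro g hg
        simp only [Set.mem_insert_iff, Set.mem_singleton_iff]
        exact hg
    obtain ⟨b, hb, hbm⟩ := Set.exists_max_image {g | c.cor v g} c.y hf ⟨c.F v, Or.inl rfl⟩
    exact ⟨b, hb, hbm⟩
  have hv' : r.2 ≤ c.y b := by
    refine convexHull_min ?_ (convex_halfSpace_le hlin (c.y b)) hv
    rintro a ⟨g, hg, rfl⟩
    exact hbm g hg
  have hu' : c.y b < r.2 := by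
    refine convexHull_min ?_ (convex_halfSpace_gt hlin (c.y b)) hu
    rintro a ⟨g, hg, rfl⟩
    exact h g b hg hb
  linarith

/-- `RightOf z e` or `LeftOf z e` implies that the point of `e` is not in `T_z`. -/
theorem not_mem_of_left {z : V} {e : E} (h : c.LeftOf z e) : c.pt e ∉ c.tri z := by
  intro hm
  exact lt_irrefl _ (lt_of_left h hm rfl)

theorem not_mem_of_right {z : V} {e : E} (h : c.RightOf z e) : c.pt e ∉ c.tri z := by
  intro hm
  exact lt_irrefl _ (lt_of_right h hm rfl)

end Cf
end Pool.Agent.Tri
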