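import Pool.Agent.Helper57.Tri.GF1
import Pool.Agent.Helper57.Tri.GB2

/-! Vertices without a common edge have disjoint triangles. -/

set_option autoImplicit false

namespace Pool.Agent.Tri
namespace Cf

variable {V E : Type} {c : Cf V E}

/-- `u` below `v`, no common edge, `BT w (F u)`, `v` left of `w`: `T_v` is left of the corners of `u` and
`T_u` is right of the corners of `v`. Proof. All edges of `v` are before all edges of `u` (below_late).
First claim, `e` a corner of `u`: `e = F u`: `left_dead` (`BT w e`). `e ≠ F u`: not a bottom edge (cor_nb),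
`y a ≤ K (T a + 1) ≤ K (T e) < y e`: `left_below`.
Second claim, `e` a corner of `v`, `T e < T (F u)`: `w ∉ e`: `T e < T (F w)`: `above_of_lt`, `right_above`.
Otherwise `w` alive at `e`, `a2 w < a2 v < b2 e`: right: `right_shadow`. `w ∈ e`: `l` last corner of `w`
(bt_last for `F u`); `T e < T l`: `above_of_lt`; otherwise `e = l` or `BT w e`; the latter contradicts bt_D.
`e = P w = l`: `pq_late2` (v, w, P w, P w): `T (P w) < T (Q w)`, no. `e = Q w = l`: `right_last`. -/
theorem below_sides (hc : c.Ok) (hs : c.Sq) (hx : c.XR) (hy : c.YR) {u v w : V}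
    (h1 : c.a1 v < c.a1 u) (h2 : c.a2 v < c.a2 u) (hn : ∀ f, c.mem u f → ¬ c.mem v f)
    (hw : c.BT w (c.F u)) (h3 : c.a1 v < c.a1 w) (h4 : c.a2 w < c.a2 v) :
    (∀ e, c.cor u e → c.LeftOf v e) ∧ (∀ e, c.cor v e → c.RightOf u e) := by
  have before : ∀ a b, c.mem u a → c.mem v b → c.T b < c.T a := fun a b ha hb =>
    hc.below_late h1 h2 ha (hn a ha) hb
  have hvw : v ≠ w := by
    intro h; subst h; omega
  constructor
  · intro e he
    by_cases heF : e = c.F u
    · subst heF
      exact left_dead hc hs hx hy hw h3 h4 (fun g hg => before _ _ (hc.memF u) hg)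
    · have hye := hy.nb e (hc.cor_nb he heF)
      apply left_below
      intro a ha
      have ht := before e a (hc.cor_mem he) (hc.cor_mem ha)
      have h5 := y_ub hc hs hx hy a
      have h6 := hs.K_lt (s := c.T a + 1) (t := c.T e + 1) (by omega)
      rw [hye]; linarith
  · intro e he
    have hve := hc.cor_mem he
    have hT := before (c.F u) e (hc.memF u) hve
    have ve := (hc.mem_iff _ _).1 hve
    by_cases hwe : c.mem w e
    · obtain ⟨l, hl, hlT, hPl, hQl, hFl, hml, hnb, hK1, hK2⟩ := bt_last hc hs hx hy hw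
      by_cases hTl : c.T e < c.T l
      · exact right_above (above_of_lt hc hs hx hy hw
          (hl.imp (fun h => h.1) (fun h => h.1)) hTl)
      · rcases hc.edge_class hwe with h | h | h | h | h
        · rw [h] at hTl; omega
        · exfalso
          rw [h] at hTl
          rcases hl with ⟨hl1, hl2⟩ | ⟨hl1, hl2⟩
          · have h5 := hc.pq_late2 (z := v) (w := w) (f := c.P w) (e := c.P w) h3 h4
              (h ▸ hve) (hc.memP w) (fun h6 => by rw [h6] at hl2; omega) (h ▸ hve)
            omega
          · rw [hl1] at hTl; omega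
        · rw [h] at hTl ⊢
          rcases hl with ⟨hl1, hl2⟩ | ⟨hl1, hl2⟩
          · exfalso; rw [hl1] at hTl; omega
          · exact right_last hc hs hx hy hw hl2
        · exfalso
          by_cases hsd : c.sd e
          · have := hc.LR_Q h hsd; omega
          · have := hc.LR_P h hsd; omega
        · exfalso
          have := hc.bt_D h hve hvw
          omega
    · by_cases hTF : c.T e < c.T (c.F w)
      · have hFP := hc.F_first (hc.memP w)
        exact right_above (above_of_lt hc hs hx hy hw (Or.inl rfl) (by omega))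
      · have hne : c.T e ≠ c.T (c.F w) := by
          intro h
          have := hc.T_inj _ _ h
          rw [this] at hwe
          exact hwe (hc.memF w)
        have hal : c.alive w e := ⟨hwe, by omega, c.F u, hw.1.1, hT⟩
        have hb : c.b1 e < c.a1 w := by
          by_contra hcon
          have h5 := hc.ne1 w e
          have h6 := hc.late (v := w) (e := c.F u) (g := e) (by omega) (by omega) hwe hw.1.1
          omega
        exact right_shadow hc hs hx hy hw hT hal hb

/-- `u` below `v`, no common edge. Proof. All edges of `v` are before all edges of `u`. If `F u` is not a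
bottom edge: `disj_of_depth` (`y a = K (T a + 1) > K (T b + 1) ≥ y b`). Let `BT w (F u)`. `v ≠ w`, `u ≠ w`.
`l` = last corner of `w`. If all corners `b` of `v` have `T b < T l`: `y b ≤ K (T b + 1) ≤ K (T l) < y (F u) ≤ y a`:
`disj_of_depth`. So some corner `b` of `v` has `T l ≤ T b`.
`v` left of `w`: `below_sides` and `disj_of_sides` (v, u). `w` left of `v`: mirror image (swap).
`v` below `w`: `below_late` (all edges of `v` are before `F u ∋ w`): all edges of `v` contain `w`, so `v` has the only
edge `b` and `T_v = {pt b}` (corner set is `{b}`). `edge_class` for `w, b`: `b = l` (then `left_last` or `right_last`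
for `z = u`) or `BT w b` (`b ≠ F u`; `left_sib` or `right_sib` for `z = u`, by `b1`, `b2` order, `sib'`); then
`not_mem_of_left`, `not_mem_of_right`.
`w` below `v`: at most one of `P w, Q w` contains `v`; `l ∌ v`: all edges of `v` are before `l`, contradiction to `b`.
`l ∋ v`: the other corner `l' ∌ v`: all edges of `v`, also `l`, are before `l'`, contradiction. -/
theorem below_disj (hc : c.Ok) (hs : c.Sq) (hx : c.XR) (hy : c.YR) {u v : V}
    (h1 : c.a1 v < c.a1 u) (h2 : c.a2 v < c.a2 u) (hn : ∀ f, c.mem u f → ¬ c.mem v f)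
    {r : ℝ × ℝ} (hu : r ∈ c.tri u) (hv : r ∈ c.tri v) : False := by
  have before : ∀ a b, c.mem u a → c.mem v b → c.T b < c.T a := fun a b ha hb =>
    hc.below_late h1 h2 ha (hn a ha) hb
  by_cases hbt : ∀ w, ¬ c.BT w (c.F u)
  · apply disj_of_depth (c := c) (u := u) (v := v) _ hu hv
    intro a b ha hb
    have hnb : ∀ z, ¬ c.BT z a := by
      by_cases haF : a = c.F u
      · rw [haF]; exact hbt
      · exact hc.cor_nb ha haF
    have ht := before a b (hc.cor_mem ha) (hc.cor_mem hb)
    have h5 := y_ub hc hs hx hy b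
    have h6 := hs.K_lt (s := c.T b + 1) (t := c.T a + 1) (by omega)
    rw [hy.nb a hnb]; linarith
  push Not at hbt
  obtain ⟨w, hw⟩ := hbt
  have hvw : v ≠ w := by
    intro h; subst h
    exact hn _ (hc.memF u) hw.1.1
  have huw : u ≠ w := by
    intro h; subst h
    exact hw.1.2.1 rfl
  obtain ⟨l, hl, hlT, hPl, hQl, hFl, hml, hnb, hK1, hK2⟩ := bt_last hc hs hx hy hw
  by_cases hall : ∀ b, c.cor v b → c.T b < c.T l
  · apply disj_of_depth (c := c) (u := u) (v := v) _ hu hv
    intro a b ha hb
    have hya : c.K (c.T l) < c.y a := by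
      by_cases haF : a = c.F u
      · rw [haF]; exact hK1
      · rw [hy.nb a (hc.cor_nb ha haF)]
        have h5 := hc.F_first (hc.cor_mem ha)
        exact hs.K_lt (by omega)
    have h5 := y_ub hc hs hx hy b
    have h6 := hs.K_mono (s := c.T b + 1) (t := c.T l) (hall b hb)
    linarith
  push Not at hall
  obtain ⟨b, hb, hTb⟩ := hall
  have hvb := hc.cor_mem hb
  have hTbF := before (c.F u) b (hc.memF u) hvb
  have e1 : c.a1 v ≠ c.a1 w := fun h => hvw (hc.va1 _ _ h)
  have e2 : c.a2 v ≠ c.a2 w := fun h => hvw (hc.va2 _ _ h)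
  rcases lt_or_gt_of_ne e1 with g1 | g1 <;> rcases lt_or_gt_of_ne e2 with g2 | g2
  · -- `w` below `v`
    have hbl : ∀ g, c.mem w g → ¬ c.mem v g → c.T b < c.T g := fun g hg hg2 =>
      hc.below_late g1 g2 hg hg2 hvb
    have hPQ : c.P w ≠ c.Q w := by
      intro h
      rcases hl with ⟨-, hl2⟩ | ⟨-, hl2⟩ <;> rw [h] at hl2 <;> omega
    by_cases hvl : c.mem v l
    · -- the other corner
      rcases hl with ⟨hl1, hl2⟩ | ⟨hl1, hl2⟩
      · have hv' : ¬ c.mem v (c.Q w) := fun h =>
          hPQ (hc.lin v w _ _ hvw (hl1 ▸ hvl) (hc.memP w) h (hc.memQ w))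
        have := hbl _ (hc.memQ w) hv'
        omega
      · have hv' : ¬ c.mem v (c.P w) := fun h =>
          hPQ (hc.lin v w _ _ hvw h (hc.memP w) (hl1 ▸ hvl) (hc.memQ w))
        have := hbl _ (hc.memP w) hv'
        omega
    · have := hbl l hml hvl
      omega
  · -- `v` left of `w`
    obtain ⟨s1, s2⟩ := below_sides hc hs hx hy h1 h2 hn hw g1 g2
    exact disj_of_sides (c := c) (u := v) (v := u) s2 s1 hv hu
  · -- `w` left of `v`
    obtain ⟨s1, s2⟩ := below_sides (c := c.swap) (u := u) (v := v) (w := w) (swap_ok hc)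
      (swap_sq hs) (swap_xr hx) (swap_yr hy) h2 h1 hn (by simpa using hw) g2 g1
    simp only [swap_cor, swap_LeftOf, swap_RightOf] at s1 s2
    exact disj_of_sides (c := c) (u := u) (v := v) s1 s2 hu hv
  · -- `v` below `w`
    have hin : ∀ g, c.mem v g → c.mem w g := by
      intro g hg
      by_contra hcon
      have h5 := hc.below_late g1 g2 hg hcon hw.1.1
      have h6 := before (c.F u) g (hc.memF u) hg
      omega
    have honly : ∀ g, c.mem v g → g = b := fun g hg =>
      hc.lin v w g b hvw hg (hin g hg) hvb (hin b hvb)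
    have hset : {g | c.cor v g} = {b} := by
      ext g
      simp only [Set.mem_ofPred_eq, Set.mem_singleton_iff]
      constructor
      · intro h; exact honly g (hc.cor_mem h)
      · intro h; rw [h]; exact hb
    have hr : r = c.pt b := by
      unfold tri at hv
      rw [hset, Set.image_singleton, convexHull_singleton] at hv
      exact hv
    rw [hr] at hu
    have hwb := hin b hvb
    rcases hc.edge_class hwb with h | h | h | h | h
    · rw [h] at hTb; omega
    · rw [h] at hTb
      rcases hl with ⟨hl1, hl2⟩ | ⟨hl1, hl2⟩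
      · rw [h] at hu
        exact not_mem_of_left (left_last hc hs hx hy hw hl2) hu
      · rw [hl1] at hTb; omega
    · rw [h] at hTb
      rcases hl with ⟨hl1, hl2⟩ | ⟨hl1, hl2⟩
      · rw [hl1] at hTb; omega
      · rw [h] at hu
        exact not_mem_of_right (right_last hc hs hx hy hw hl2) hu
    · by_cases hsd : c.sd b
      · have := hc.LR_Q h hsd; omega
      · have := hc.LR_P h hsd; omega
    · have hne : c.b1 (c.F u) ≠ c.b1 b := by
        intro h5
        have := hc.eb1 _ _ h5
        rw [this] at hTbF; omega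
      rcases lt_or_gt_of_ne hne with h5 | h5
      · exact not_mem_of_left (left_sib hc hs hx hy hw h h5) hu
      · exact not_mem_of_right (right_sib hc hs hx hy hw h (hc.sib hw h h5)) hu

/-- Proof: four positions of `u` and `v`: `disj_of_sides` with `right_of_left`, `left_of_left`, or
`below_disj`. -/
theorem tri_disj (hc : c.Ok) (hs : c.Sq) (hx : c.XR) (hy : c.YR) {u v : V} (huv : u ≠ v)
    (hn : ∀ f, c.mem u f → ¬ c.mem v f) {r : ℝ × ℝ} (hu : r ∈ c.tri u) (hv : r ∈ c.tri v) :
    False := by
  have e1 : c.a1 u ≠ c.a1 v := fun h => huv (hc.va1 _ _ h)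
  have e2 : c.a2 u ≠ c.a2 v := fun h => huv (hc.va2 _ _ h)
  have hn' : ∀ f, c.mem v f → ¬ c.mem u f := fun f h1 h2 => hn f h2 h1
  rcases lt_or_gt_of_ne e1 with g1 | g1 <;> rcases lt_or_gt_of_ne e2 with g2 | g2
  · exact below_disj hc hs hx hy g1 g2 hn' hv hu
  · exact disj_of_sides (c := c) (u := u) (v := v)
      (fun e he => right_of_left hc hs hx hy g1 g2 hn he)
      (fun e he => left_of_left hc hs hx hy g1 g2 hn he) hu hv
  · exact disj_of_sides (c := c) (u := v) (v := u)
      (fun e he => right_of_left hc hs hx hy g1 g2 hn' he)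
      (fun e he => left_of_left hc hs hx hy g1 g2 hn' he) hv hu
  · exact below_disj hc hs hx hy g1 g2 hn hu hv

end Cf
end Pool.Agent.Tri
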