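import Pool.Agent.Helper57.Tri.GG1
import Pool.Agent.Helper57.Tri.GF2

/-! Triples, part 2. -/

set_option autoImplicit false

namespace Pool.Agent.Tri
namespace Cf

variable {V E : Type} {c : Cf V E}

/-- Proof. `u`, `w` are not one below the other: `u` below `w`: (w := w, u := u, g := a, e := b) `below_late` gives
`T b < T a`; `w` below `u`: (w := u, u := w, g := b, e := d): `T d < T b`. So `meet_depth` or its mirror image:
`K (T d) < r.2`. By `no_alive` all corners `g` of `v` have `y g ≤ K (T g + 1) ≤ K (T d)`, so `r.2 ≤ K (T d)`. -/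
theorem triple_disj (hc : c.Ok) (hs : c.Sq) (hx : c.XR) (hy : c.YR) {u v w : V} {a b d : E}
    (huv : u ≠ v) (hvw : v ≠ w) (huw : u ≠ w)
    (hua : c.mem u a) (hva : c.mem v a) (hvb : c.mem v b) (hwb : c.mem w b)
    (hud : c.mem u d) (hwd : c.mem w d) (h1 : c.T a < c.T b) (h2 : c.T b < c.T d)
    {r : ℝ × ℝ} (hru : r ∈ c.tri u) (hrv : r ∈ c.tri v) (hrw : r ∈ c.tri w) : False := by
  have hwa : ¬ c.mem w a := by
    intro h
    have := hc.lin u w a d huw hua h hud hwd
    rw [this] at h1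
    exact absurd (h1.trans h2) (lt_irrefl _)
  have hub : ¬ c.mem u b := by
    intro h
    have := hc.lin u w b d huw h hwb hud hwd
    rw [this] at h2
    exact lt_irrefl _ h2
  have hlow : r.2 ≤ c.K (c.T d) := by
    have hlin : IsLinearMap ℝ (fun p : ℝ × ℝ => p.2) := ⟨fun _ _ => rfl, fun _ _ => rfl⟩
    refine convexHull_min ?_ (convex_halfSpace_le hlin (c.K (c.T d))) hrv
    rintro q ⟨g, hg, rfl⟩
    have h3 := no_alive hc huv hvw huw hua hva hvb hwb hud hwd h1 h2 g (hc.cor_mem hg)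
    have h4 : c.y g ≤ c.K (c.T g + 1) := y_ub hc hs hx hy g
    have h5 : c.K (c.T g + 1) ≤ c.K (c.T d) := hs.K_mono h3
    exact h4.trans h5
  have hFu : c.T (c.F u) < c.T d := lt_of_le_of_lt (hc.F_first hua) (h1.trans h2)
  have hFw : c.T (c.F w) < c.T d := lt_of_le_of_lt (hc.F_first hwb) h2
  have hhigh : c.K (c.T d) < r.2 := by
    rcases lt_or_gt_of_ne (fun h => huw (hc.va1 u w h)) with h3 | h3
    · rcases lt_or_gt_of_ne (fun h => huw (hc.va2 u w h)) with h4 | h4
      · exact absurd (hc.below_late h3 h4 hwb hub hud) (not_lt.2 h2.le)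
      · exact meet_depth hc hs hx hy h3 h4 hud hwd hFu hFw hru hrw
    · rcases lt_or_gt_of_ne (fun h => huw (hc.va2 u w h)) with h4 | h4
      · exact meet_depth hc hs hx hy h3 h4 hwd hud hFw hFu hrw hru
      · exact absurd (hc.below_late h3 h4 hua hwa hwb) (not_lt.2 h1.le)
  linarith

/-- Proof. Pairs have common edges by `tri_disj`. If two of the three common edges are equal they are the
wanted edge; otherwise sort the three times (six cases) and use `triple_disj`. -/
theorem three (hc : c.Ok) (hs : c.Sq) (hx : c.XR) (hy : c.YR) {u v w : V}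
    (huv : u ≠ v) (hvw : v ≠ w) (huw : u ≠ w) {r : ℝ × ℝ} (hru : r ∈ c.tri u)
    (hrv : r ∈ c.tri v) (hrw : r ∈ c.tri w) : ∃ e, c.mem u e ∧ c.mem v e ∧ c.mem w e := by
  have key : ∀ p q : V, p ≠ q → r ∈ c.tri p → r ∈ c.tri q → ∃ e, c.mem p e ∧ c.mem q e := by
    intro p q hpq hp hq
    by_contra hcon
    push Not at hcon
    exact tri_disj hc hs hx hy hpq hcon hp hq
  obtain ⟨a, hua, hva⟩ := key u v huv hru hrv
  obtain ⟨b, hvb, hwb⟩ := key v w hvw hrv hrw
  obtain ⟨d, hud, hwd⟩ := key u w huw hru hrw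
  by_cases hab : a = b
  · exact ⟨a, hua, hva, hab ▸ hwb⟩
  by_cases hbd : b = d
  · exact ⟨b, hbd ▸ hud, hvb, hwb⟩
  by_cases had : a = d
  · exact ⟨a, hua, hva, had ▸ hwd⟩
  exfalso
  have tab : c.T a ≠ c.T b := fun h => hab (hc.T_inj _ _ h)
  have tbd : c.T b ≠ c.T d := fun h => hbd (hc.T_inj _ _ h)
  have tad : c.T a ≠ c.T d := fun h => had (hc.T_inj _ _ h)
  rcases lt_or_gt_of_ne tab with h1 | h1
  · rcases lt_or_gt_of_ne tbd with h2 | h2
    · exact triple_disj hc hs hx hy huv hvw huw hua hva hvb hwb hud hwd h1 h2 hru hrv hrw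
    · rcases lt_or_gt_of_ne tad with h3 | h3
      · exact triple_disj hc hs hx hy huv.symm huw hvw hva hua hud hwd hvb hwb h3 h2 hrv hru hrw
      · exact triple_disj hc hs hx hy huw.symm huv hvw.symm hwd hud hua hva hwb hvb h3 h1
          hrw hru hrv
  · rcases lt_or_gt_of_ne tad with h3 | h3
    · exact triple_disj hc hs hx hy hvw.symm huv.symm huw.symm hwb hvb hva hua hwd hud h1 h3
        hrw hrv hru
    · rcases lt_or_gt_of_ne tbd with h2 | h2
      · exact triple_disj hc hs hx hy hvw huw.symm huv.symm hvb hwb hwd hud hva hua h2 h3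
          hrv hrw hru
      · exact triple_disj hc hs hx hy huw hvw.symm huv hud hwd hwb hvb hua hva h2 h1
          hru hrw hrv

/-- Proof. One vertex: `F v`. Two distinct vertices `u, v ∈ U`: common edge `e` (`tri_disj`), and for every
third `w`: `three` gives an edge containing `u, v, w`, which is `e` by `lin`. -/
theorem helly (hc : c.Ok) (hs : c.Sq) (hx : c.XR) (hy : c.YR) {U : Finset V}
    (hU : U.Nonempty) {r : ℝ × ℝ} (h : ∀ v ∈ U, r ∈ c.tri v) : ∃ e, ∀ v ∈ U, c.mem v e := by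
  obtain ⟨u, hu⟩ := hU
  by_cases h1 : ∃ v ∈ U, v ≠ u
  · obtain ⟨v, hv, hvu⟩ := h1
    have hex : ∃ e, c.mem u e ∧ c.mem v e := by
      by_contra hcon
      push Not at hcon
      exact tri_disj hc hs hx hy hvu.symm hcon (h u hu) (h v hv)
    obtain ⟨e, hue, hve⟩ := hex
    refine ⟨e, ?_⟩
    intro w hw
    by_cases hwu : w = u
    · rw [hwu]; exact hue
    by_cases hwv : w = v
    · rw [hwv]; exact hve
    obtain ⟨e', h2, h3, h4⟩ := three hc hs hx hy hvu.symm (Ne.symm hwv) (Ne.symm hwu)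
      (h u hu) (h v hv) (h w hw)
    have : e' = e := hc.lin u v e' e hvu.symm h2 h3 hue hve
    rw [← this]; exact h4
  · push Not at h1
    refine ⟨c.F u, ?_⟩
    intro w hw
    rw [h1 w hw]
    exact hc.memF u

end Cf
end Pool.Agent.Tri
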