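import Pool.Agent.Helper57.Tri.FA2
import Pool.Agent.Helper57.Tri.GA2
import Pool.Agent.Helper57.Tri.GG2

/-! Fattening of the vertices with one edge. -/

set_option autoImplicit false

namespace Pool.Agent.Tri
namespace Cf

variable {V E : Type} {c : Cf V E}

private theorem tri_compact (v : V) : IsCompact (c.tri v) := by
  refine Set.Finite.isCompact_convexHull ℝ (Set.Finite.image _ ?_)
  refine Set.Finite.subset (Set.toFinite ({c.F v, c.P v, c.Q v, c.h v} : Set E)) ?_
  intro g hg
  simp only [Set.mem_ofPred_eq, cor] at hg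
  simp only [Set.mem_insert_iff, Set.mem_singleton_iff]
  exact hg

private theorem exists_eps [Fintype V] (hc : c.Ok) (hs : c.Sq) (hx : c.XR) (hy : c.YR) :
    ∃ ε : ℝ, 0 < ε ∧ ∀ u v, (∀ f, c.mem u f → ¬ c.mem v f) →
      Disjoint (Metric.cthickening ε (c.tri u)) (Metric.cthickening ε (c.tri v)) := by
  classical
  have h1 : ∀ q : V × V, ∃ δ : ℝ, 0 < δ ∧ ((∀ f, c.mem q.1 f → ¬ c.mem q.2 f) →
      Disjoint (Metric.cthickening δ (c.tri q.1)) (Metric.cthickening δ (c.tri q.2))) := by
    rintro ⟨u, v⟩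
    by_cases h : ∀ f, c.mem u f → ¬ c.mem v f
    · have hne : u ≠ v := by
        rintro rfl
        exact h (c.F u) (hc.memF u) (hc.memF u)
      have hd : Disjoint (c.tri u) (c.tri v) := by
        rw [Set.disjoint_left]
        intro r hu hv
        exact tri_disj hc hs hx hy hne h hu hv
      obtain ⟨δ, h1, h2⟩ := hd.exists_cthickenings (tri_compact u) (tri_compact v).isClosed
      exact ⟨δ, h1, fun _ => h2⟩
    · exact ⟨1, one_pos, fun h' => absurd h' h⟩
  choose δ hδ1 hδ2 using h1
  rcases isEmpty_or_nonempty (V × V) with hV | hV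
  · exact ⟨1, one_pos, fun u v _ => (hV.false (u, v)).elim⟩
  · obtain ⟨q, hq⟩ := Finite.exists_min δ
    refine ⟨δ q, hδ1 q, fun u v h => ?_⟩
    exact (hδ2 (u, v) h).mono (Metric.cthickening_mono (hq (u, v)) _)
      (Metric.cthickening_mono (hq (u, v)) _)

/-- Fattening. For each `v` with one edge only, replace the point `T_v` by a short segment
`[p, p + (0, ε)]`. All pairs of vertices without a common edge have disjoint compact sets `T_u, T_v`
(`tri_disj`; finite corner sets), so there is `ε > 0` such that their distances are `> 2 ε`. Put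
`S v = T_v` (at least two edges), `S v = segment p (p + (0, ε))` otherwise; `S v` is in the closed
`ε`-thickening of `T_v`. Let `r` be in all `S v`, `v ∈ U`. If all `v ∈ U` have two edges: `helly`. Otherwise let
`v ∈ U` have the only edge `e`; every `u ∈ U` has a common edge with `v` (the distance of `T_u` and `T_v` is
`≤ 2 ε`), which is `e`. -/
theorem final [Fintype V] (hc : c.Ok) (hs : c.Sq) (hx : c.XR) (hy : c.YR) :
    ∃ S : V → Set (ℝ × ℝ),
      (∀ v, (∃ p q r : ℝ × ℝ, ¬ Collinear ℝ ({p, q, r} : Set (ℝ × ℝ)) ∧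
          S v = convexHull ℝ ({p, q, r} : Set (ℝ × ℝ))) ∨
        (∃ p q : ℝ × ℝ, p ≠ q ∧ S v = segment ℝ p q)) ∧
      (∀ e v, c.mem v e → c.pt e ∈ S v) ∧
      (∀ U : Finset V, U.Nonempty → (⋂ v ∈ U, S v).Nonempty → ∃ e, ∀ v ∈ U, c.mem v e) := by
  classical
  obtain ⟨ε, hε, hdis⟩ := exists_eps hc hs hx hy
  let leaf : V → Prop := fun v => ∀ g, c.mem v g → g = c.F v
  let S : V → Set (ℝ × ℝ) := fun v =>
    if leaf v then segment ℝ (c.pt (c.F v)) (c.pt (c.F v) + (0, ε)) else c.tri v
  have hSl : ∀ v, leaf v → S v = segment ℝ (c.pt (c.F v)) (c.pt (c.F v) + (0, ε)) :=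
    fun v hv => if_pos hv
  have hSn : ∀ v, ¬ leaf v → S v = c.tri v := fun v hv => if_neg hv
  have hSth : ∀ v, S v ⊆ Metric.cthickening ε (c.tri v) := by
    intro v
    by_cases hv : leaf v
    · rw [hSl v hv, segment_eq_image']
      rintro _ ⟨θ, hθ, rfl⟩
      refine Metric.mem_cthickening_of_dist_le _ (c.pt (c.F v)) _ _ ?_ ?_
      · rw [tri_leaf hc hv]
        exact Set.mem_singleton _
      · rw [dist_eq_norm, add_sub_cancel_left, add_sub_cancel_left, norm_smul]
        have h1 : ‖((0 : ℝ), ε)‖ = ε := by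
          rw [Prod.norm_def]
          simp [abs_of_pos hε, hε.le]
        rw [h1, Real.norm_eq_abs, abs_of_nonneg hθ.1]
        exact mul_le_of_le_one_left hε.le hθ.2
    · rw [hSn v hv]
      exact Metric.self_subset_cthickening _
  refine ⟨S, ?_, ?_, ?_⟩
  · intro v
    by_cases hv : leaf v
    · right
      refine ⟨c.pt (c.F v), c.pt (c.F v) + (0, ε), ?_, hSl v hv⟩
      intro h
      have h2 := congrArg Prod.snd h
      simp only [Prod.snd_add] at h2
      linarith
    · rw [hSn v hv]
      simp only [leaf, not_forall] at hv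
      obtain ⟨g, hg, hne⟩ := hv
      exact tri_shape hc hs hx hy hg hne
  · intro e v hev
    by_cases hv : leaf v
    · rw [hSl v hv, hv e hev]
      exact left_mem_segment ℝ _ _
    · rw [hSn v hv]
      exact mem_tri hc hs hx hy hev
  · rintro U hU ⟨r, hr⟩
    rw [Set.mem_iInter₂] at hr
    have hcom : ∀ u ∈ U, ∀ v ∈ U, ∃ f, c.mem u f ∧ c.mem v f := by
      intro u hu v hv
      by_contra hno
      push Not at hno
      exact Set.disjoint_left.mp (hdis u v hno) (hSth u (hr u hu)) (hSth v (hr v hv))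
    by_cases hl : ∃ v ∈ U, leaf v
    · obtain ⟨v, hvU, hv⟩ := hl
      refine ⟨c.F v, fun u hu => ?_⟩
      obtain ⟨f, hf1, hf2⟩ := hcom u hu v hvU
      rw [← hv f hf2]
      exact hf1
    · push Not at hl
      refine helly hc hs hx hy hU (r := r) fun v hv => ?_
      have := hr v hv
      rwa [hSn v (hl v hv)] at this

end Cf
end Pool.Agent.Tri
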