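import Mathlib

/-! Fattening of segments to triangles, and finite partial orders as intersections of linear orders. -/

set_option autoImplicit false

namespace Pool.Agent.Tri

open Metric Set Filter Topology

theorem exists_cthick {V P : Type} [Finite V] [PseudoMetricSpace P] [ProperSpace P]
    (S : V → Set P) (hc : ∀ v, IsCompact (S v)) (hcl : ∀ v, IsClosed (S v)) (hne : ∀ v, (S v).Nonempty) :
    ∃ δ : ℝ, 0 < δ ∧ ∀ U : Finset V, U.Nonempty →
      (⋂ v ∈ U, cthickening δ (S v)).Nonempty → (⋂ v ∈ U, S v).Nonempty := by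
  classical
  have h1 : ∀ U : Finset V, ∃ δ : ℝ, 0 < δ ∧ (U.Nonempty →
      (⋂ v ∈ U, cthickening δ (S v)).Nonempty → (⋂ v ∈ U, S v).Nonempty) := by
    intro U
    by_contra hcon
    push Not at hcon
    have h2 : U.Nonempty := (hcon 1 one_pos).1
    obtain ⟨v0, hv0⟩ := h2
    have h3 : ∀ n : ℕ, ∃ x, x ∈ ⋂ v ∈ U, cthickening (1 / ((n : ℝ) + 1)) (S v) := fun n =>
      (hcon (1 / ((n : ℝ) + 1)) (by positivity)).2.1
    choose x hx using h3
    have h4 : ∀ n v, v ∈ U → infDist (x n) (S v) ≤ 1 / ((n : ℝ) + 1) := by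
      intro n v hv
      have := Set.mem_iInter₂.1 (hx n) v hv
      rw [mem_cthickening_iff] at this
      rw [infDist]
      exact ENNReal.toReal_le_of_le_ofReal (by positivity) this
    have hK : IsCompact (cthickening 1 (S v0)) := (hc v0).cthickening
    have h5 : ∀ n, x n ∈ cthickening 1 (S v0) := by
      intro n
      refine cthickening_mono ?_ _ (Set.mem_iInter₂.1 (hx n) v0 hv0)
      rw [div_le_one (by positivity)]
      have : (0 : ℝ) ≤ n := Nat.cast_nonneg n
      linarith
    obtain ⟨a, -, φ, hφ, ha⟩ := hK.tendsto_subseq h5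
    have h6 : ∀ v ∈ U, a ∈ S v := by
      intro v hv
      rw [← (hcl v).closure_eq, mem_closure_iff_infDist_zero (hne v)]
      have h7 : Tendsto (fun n => infDist (x (φ n)) (S v)) atTop (𝓝 (infDist a (S v))) :=
        ((continuous_infDist_pt (S v)).tendsto a).comp ha
      have h8 : Tendsto (fun n : ℕ => 1 / (((φ n : ℕ) : ℝ) + 1)) atTop (𝓝 0) :=
        (tendsto_one_div_add_atTop_nhds_zero_nat (𝕜 := ℝ)).comp hφ.tendsto_atTop
      exact le_antisymm (le_of_tendsto_of_tendsto' h7 h8 fun n => h4 _ v hv) infDist_nonneg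
    have h9 := (hcon 1 one_pos).2.2
    have h10 : a ∈ (⋂ v ∈ U, S v) := Set.mem_iInter₂.2 h6
    rw [h9] at h10
    exact h10
  choose δ hδ using h1
  haveI : Finite (Finset V) := inferInstance
  obtain ⟨U0, hU0⟩ := Finite.exists_min δ
  refine ⟨δ U0, (hδ U0).1, fun U hU h => (hδ U).2 hU ?_⟩
  obtain ⟨y, hy⟩ := h
  refine ⟨y, Set.mem_iInter₂.2 fun v hv => ?_⟩
  exact cthickening_mono (hU0 U) _ (Set.mem_iInter₂.1 hy v hv)

/-- a segment is contained in a triangle close to it -/
theorem exists_tri {a b : ℝ × ℝ} (hab : a ≠ b) {δ : ℝ} (hδ : 0 < δ) :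
    ∃ c : ℝ × ℝ, ¬ Collinear ℝ ({a, b, c} : Set (ℝ × ℝ)) ∧
      segment ℝ a b ⊆ convexHull ℝ ({a, b, c} : Set (ℝ × ℝ)) ∧
      convexHull ℝ ({a, b, c} : Set (ℝ × ℝ)) ⊆ cthickening δ (segment ℝ a b) := by
  set w : ℝ × ℝ := (-(b.2 - a.2), b.1 - a.1) with hw
  have hw0 : w ≠ 0 := by
    intro h
    apply hab
    have h1 := congrArg Prod.fst h
    have h2 := congrArg Prod.snd h
    simp only [hw, Prod.fst_zero, Prod.snd_zero] at h1 h2
    exact Prod.ext (by linarith) (by linarith)
  have hwn : 0 < ‖w‖ := norm_pos_iff.2 hw0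
  set t : ℝ := δ / ‖w‖ with ht
  have ht0 : 0 < t := by positivity
  refine ⟨a + t • w, ?_, ?_, ?_⟩
  · intro hcol
    rw [collinear_iff_of_mem (p₀ := a) (by simp)] at hcol
    obtain ⟨v, hv⟩ := hcol
    obtain ⟨r1, hr1⟩ := hv b (by simp)
    obtain ⟨r2, hr2⟩ := hv (a + t • w) (by simp)
    simp only [vadd_eq_add] at hr1 hr2
    have e1 : b.1 - a.1 = r1 * v.1 := by
      have := congrArg Prod.fst hr1
      simp at this
      linarith
    have e2 : b.2 - a.2 = r1 * v.2 := by
      have := congrArg Prod.snd hr1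
      simp at this
      linarith
    have e3 : t * (-(b.2 - a.2)) = r2 * v.1 := by
      have := congrArg Prod.fst hr2
      simp [hw] at this
      linarith
    have e4 : t * (b.1 - a.1) = r2 * v.2 := by
      have := congrArg Prod.snd hr2
      simp [hw] at this
      linarith
    have e5 : t * ((b.1 - a.1) ^ 2 + (b.2 - a.2) ^ 2) = 0 := by
      have h1 : t * (b.1 - a.1) * (b.1 - a.1) = r2 * v.2 * (r1 * v.1) := by rw [e4, e1]
      have h2 : t * (-(b.2 - a.2)) * (b.2 - a.2) = r2 * v.1 * (r1 * v.2) := by rw [e3, e2]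
      linear_combination h1 - h2
    have e6 : (b.1 - a.1) ^ 2 + (b.2 - a.2) ^ 2 = 0 := by
      rcases mul_eq_zero.1 e5 with h | h
      · exact absurd h ht0.ne'
      · exact h
    apply hab
    have e7 : b.1 - a.1 = 0 := by nlinarith [sq_nonneg (b.1 - a.1), sq_nonneg (b.2 - a.2)]
    have e8 : b.2 - a.2 = 0 := by nlinarith [sq_nonneg (b.1 - a.1), sq_nonneg (b.2 - a.2)]
    exact Prod.ext (by linarith) (by linarith)
  · refine (convex_convexHull ℝ _).segment_subset ?_ ?_
    · exact subset_convexHull ℝ _ (by simp)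
    · exact subset_convexHull ℝ _ (by simp)
  · refine convexHull_min ?_ ((convex_segment a b).cthickening δ)
    intro x hx
    simp only [Set.mem_insert_iff, Set.mem_singleton_iff] at hx
    rcases hx with rfl | rfl | rfl
    · exact self_subset_cthickening _ (left_mem_segment ℝ _ _)
    · exact self_subset_cthickening _ (right_mem_segment ℝ _ _)
    · refine mem_cthickening_of_dist_le _ a _ _ (left_mem_segment ℝ _ _) ?_
      rw [dist_eq_norm, add_sub_cancel_left, norm_smul, Real.norm_eq_abs, abs_of_pos ht0, ht]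
      rw [div_mul_cancel₀ _ hwn.ne']

/-- a linear order from a relation -/
noncomputable abbrev mkLin {α : Type} (s : α → α → Prop) (hs : IsLinearOrder α s) : LinearOrder α where
  le := s
  le_refl := hs.1.1.1.1
  le_trans := hs.1.1.2.1
  le_antisymm := hs.1.2.1
  le_total := hs.2.1
  toDecidableLE := Classical.decRel _

/-- every partial order on a finite type is an intersection of finitely many linear orders -/
theorem exists_realizer {α : Type} [Finite α] (r : α → α → Prop)
    (hrefl : ∀ a, r a a) (htrans : ∀ a b c, r a b → r b c → r a c) (hanti : ∀ a b, r a b → r b a → a = b) :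
    ∃ t : ℕ, ∃ L : Fin t → LinearOrder α, (∀ i a b, r a b → (L i).le a b) ∧
      ∀ a b, (∀ i, (L i).le a b) → r a b := by
  classical
  have h1 : ∀ p : α × α, ∃ L : LinearOrder α, (∀ a b, r a b → L.le a b) ∧
      (¬ r p.1 p.2 → ¬ L.le p.1 p.2) := by
    rintro ⟨a, b⟩
    by_cases hab : r a b
    · have : IsPartialOrder α r :=
        { refl := hrefl, trans := htrans, antisymm := hanti }
      obtain ⟨s, hs, hrs⟩ := extend_partialOrder r
      exact ⟨mkLin s hs, fun x y h => hrs x y h, fun h => absurd hab h⟩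
    · let r' : α → α → Prop := fun x y => r x y ∨ (r x b ∧ r a y)
      have : IsPartialOrder α r' :=
        { refl := fun x => Or.inl (hrefl x)
          trans := by
            rintro x y z (h | ⟨h1, h2⟩) (h' | ⟨h1', h2'⟩)
            · exact Or.inl (htrans _ _ _ h h')
            · exact Or.inr ⟨htrans _ _ _ h h1', h2'⟩
            · exact Or.inr ⟨h1, htrans _ _ _ h2 h'⟩
            · exact Or.inr ⟨h1, h2'⟩
          antisymm := by
            rintro x y (h | ⟨h1, h2⟩) (h' | ⟨h1', h2'⟩)
            · exact hanti _ _ h h'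
            · exact absurd (htrans _ _ _ h2' (htrans _ _ _ h h1')) hab
            · exact absurd (htrans _ _ _ h2 (htrans _ _ _ h' h1)) hab
            · exact absurd (htrans _ _ _ h2' h1) hab }
      obtain ⟨s, hs, hrs⟩ := extend_partialOrder r'
      refine ⟨mkLin s hs, fun x y h => hrs x y (Or.inl h), ?_⟩
      intro _ hle
      have h2 : s b a := hrs b a (Or.inr ⟨hrefl b, hrefl a⟩)
      have h3 : a = b := hs.1.2.1 a b hle h2
      exact hab (h3 ▸ hrefl a)
  choose L hL1 hL2 using h1
  have : Fintype (α × α) := Fintype.ofFinite _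
  let e := (Fintype.equivFin (α × α)).symm
  refine ⟨Fintype.card (α × α), fun i => L (e i), fun i a b h => hL1 _ a b h, fun a b h => ?_⟩
  by_contra hab
  have h2 : (L (e (e.symm (a, b)))).le a b := h (e.symm (a, b))
  have h3 := hL2 (a, b) hab
  rw [Equiv.apply_symm_apply] at h2
  exact h3 h2

/-- rank function of a finite linear order -/
theorem exists_rank {α : Type} [Finite α] (L : LinearOrder α) :
    ∃ ρ : α → ℕ, Function.Injective ρ ∧ ∀ a b, ρ a < ρ b ↔ ¬ L.le b a := by
  classical
  have : Fintype α := Fintype.ofFinite α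
  refine ⟨fun a => (monoEquivOfFin α rfl).symm a, ?_, ?_⟩
  · intro a b h
    exact (monoEquivOfFin α rfl).symm.injective (Fin.ext h)
  · intro a b
    show ((monoEquivOfFin α rfl).symm a : ℕ) < ((monoEquivOfFin α rfl).symm b : ℕ) ↔ ¬ b ≤ a
    rw [← Fin.lt_def, OrderIso.lt_iff_lt, not_le]

end Pool.Agent.Tri
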