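import Pool.Agent.Helper57.Tri.YA

/-! Hosted edges lie in the triangle. -/

set_option autoImplicit false

namespace Pool.Agent.Tri
namespace Cf

variable {V E : Type} {c : Cf V E}

/-- twice the signed area of the triangle `a b d` -/
def crs (a b d : ℝ × ℝ) : ℝ := (b.1 - a.1) * (d.2 - a.2) - (d.1 - a.1) * (b.2 - a.2)

/-- Proof: `e = (crs b d e / S) a + (crs d a e / S) b + (crs a b e / S) d`, `S` the sum of the three. -/
theorem tri_mem {a b d e : ℝ × ℝ} {S : Set (ℝ × ℝ)} (ha : a ∈ S) (hb : b ∈ S) (hd : d ∈ S)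
    (h1 : 0 ≤ crs b d e) (h2 : 0 ≤ crs d a e) (h3 : 0 < crs a b e) :
    e ∈ convexHull ℝ S := by
  have hs : 0 < crs b d e + crs d a e + crs a b e := by linarith
  have hk := (convex_convexHull ℝ S).sum_mem (t := (Finset.univ : Finset (Fin 3)))
    (w := ![crs b d e / (crs b d e + crs d a e + crs a b e),
      crs d a e / (crs b d e + crs d a e + crs a b e),
      crs a b e / (crs b d e + crs d a e + crs a b e)])
    (z := ![a, b, d])
    (by
      intro i _
      fin_cases i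
      · exact div_nonneg h1 hs.le
      · exact div_nonneg h2 hs.le
      · exact div_nonneg h3.le hs.le)
    (by
      rw [Fin.sum_univ_three]
      simp only [Matrix.cons_val_zero, Matrix.cons_val_one, Matrix.cons_val_two,
        Matrix.head_cons, Matrix.tail_cons, Matrix.cons_val]
      rw [← add_div, ← add_div]
      exact div_self hs.ne')
    (by
      intro i _
      fin_cases i
      · exact subset_convexHull ℝ S ha
      · exact subset_convexHull ℝ S hb
      · exact subset_convexHull ℝ S hd)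
  rw [Fin.sum_univ_three] at hk
  convert hk using 1
  ext
  · simp only [Matrix.cons_val_zero, Matrix.cons_val_one, Matrix.cons_val_two,
        Matrix.head_cons, Matrix.tail_cons, Matrix.cons_val, Prod.fst_add, Prod.smul_fst,
        smul_eq_mul]
    rw [div_mul_eq_mul_div, div_mul_eq_mul_div, div_mul_eq_mul_div, ← add_div, ← add_div,
      eq_div_iff hs.ne']
    unfold crs
    ring
  · simp only [Matrix.cons_val_zero, Matrix.cons_val_one, Matrix.cons_val_two,
        Matrix.head_cons, Matrix.tail_cons, Matrix.cons_val, Prod.snd_add, Prod.smul_snd,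
        smul_eq_mul]
    rw [div_mul_eq_mul_div, div_mul_eq_mul_div, div_mul_eq_mul_div, ← add_div, ← add_div,
      eq_div_iff hs.ne']
    unfold crs
    ring

/-- `e` hosted by `w` on the right side, `¬ pq w`. Proof: use `tri_mem` with `a = pt (A w)`,
`b = pt (P w)`, `d = pt (Q w)`. Notation `xA, yA, ...`, `η = x e - xA = D (T P + 1) K (T e + 1) ≥ 0`
(`hx.hR`), `y e = K (T e + 1)` (LR_nb), `P w ≠ Q w`, `A w ≠ P w, Q w`, `T (A w) < T e < T (P w)`.
`Prec (A w) (P w)` (`ORp` at `P w`) and nclu_P: `xP - xA ≥ D (T P) / 2`. `yA ≤ K (T A + 1) ≤ K (T e)`.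
`yP = K (T P + 1)`: `P w ≠ F w`: if `F w = P w` then `FP_sd` gives `sd e`; so `cor_nb`.
`Prec (Q w) (A w)`: if `T (A w) < T (Q w)`: `ORq` at `Q w`. Otherwise as in `host_OR` (`A w = h w`, `top`,
`F w = Q w`, `FQ_sd`, `ORr` at `h w`). So `xQ < xA` with `nclu_Q` (gap `D (max T) / 2`).
(1) `crs a b e = (xP - xA) (ye - yA) - (xe - xA) (yP - yA) > 0`: `ye - yA ≥ K (T e + 1) / 2`;
 first term `≥ D (T P) K (T e + 1) / 4`, second `≤ D (T P + 1) K (T e + 1) K (T P + 1)
 = D (T P) K (T e + 1) / M`.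
(2) `crs d a e = (xA - xQ) (ye - yQ) - (xe - xQ) (yA - yQ) = (xA - xQ) (ye - yA) - η (yA - yQ)`. If
 `yA ≤ yQ`: clear. Otherwise `T (Q w) < T (A w)` (`Q w` not after `A w`: if `T A < T Q` then `Q w ≠ F w` is
 not a bottom edge and `yQ = K (T Q + 1) > yA`): `xA - xQ ≥ D (T A) / 2`, `ye - yA ≥ K (T e + 1) / 2 ≥ 1/2`,
 `η ≤ D (T e + 1) / M`, `yA ≤ K (T A + 1)`; `D (T e + 1) K (T A + 1) ≤ D (T A + 1) K (T A + 1) ≤ D (T A)/M`.
(3) `crs b d e = (xQ - xP) (ye - yP) - (xe - xP) (yQ - yP) = (xP - xe) (yQ - ye) + (xe - xQ) (yP - ye)`,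
 `xe < xP`, `xQ < xe`. If `ye ≤ yQ`: clear. If `yQ < ye`: `T (Q w) < T e` (as above), `ORr` at `e`,
 nclu_Q: `xe - xQ ≥ D (T e) / 2`, `yP - ye ≥ K (T P + 1) / 2`, `K (T P + 1) D (T e) ≥ M K (T e + 1)`... use
 `K (T P + 1) D (T P) = M K (T P)`, `T e < T P`; second term `≥ M K (T P) / 4`, first
 `≥ - 2 K (T e + 1) ≥ - 2 K (T P)`. -/
theorem host_tri_r (hc : c.Ok) (hs : c.Sq) (hx : c.XR) (hy : c.YR) {w : V} {e : E}
    (he : c.Ho w e) (hpq : ¬ c.pq w) (hsd : ¬ c.sd e) : c.pt e ∈ c.tri w := by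
  have hPQ : c.P w ≠ c.Q w := hpq
  have hcA : c.cor w (c.A w) := hc.A_cor w
  have hcP : c.cor w (c.P w) := Or.inr (Or.inl rfl)
  have hcQ : c.cor w (c.Q w) := Or.inr (Or.inr (Or.inl rfl))
  have hAe : c.T (c.A w) < c.T e := hc.Ho_A he
  have heP : c.T e < c.T (c.P w) := hc.LR_P he.1 hsd
  have hAP : c.T (c.A w) < c.T (c.P w) := hAe.trans heP
  have hAQne : c.A w ≠ c.Q w := hc.A_ne_Q he.1
  have hFP : c.P w ≠ c.F w := fun h => hsd (hc.FP_sd h.symm he.1)
  have hinv := inv_all hc hs hx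
  -- depths
  have hye : c.y e = c.K (c.T e + 1) := hy.nb e (hc.LR_nb he.1)
  have hyP : c.y (c.P w) = c.K (c.T (c.P w) + 1) := hy.nb _ (hc.cor_nb hcP hFP)
  have hyA0 : 0 < c.y (c.A w) := y_pos hc hs hx hy _
  have hyQ0 : 0 < c.y (c.Q w) := y_pos hc hs hx hy _
  have hyA : c.y (c.A w) ≤ c.K (c.T (c.A w) + 1) := y_ub hc hs hx hy _
  have hM : (1024 : ℝ) ≤ c.M := hs.M_ge
  have hκ : 0 < c.K (c.T e + 1) := hs.K_pos _
  have hxe : c.x e = c.x (c.A w) + c.D (c.T (c.P w) + 1) * c.K (c.T e + 1) :=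
    hx.hR w e he hpq hsd
  have hD1 : 0 < c.D (c.T (c.P w) + 1) := hs.D_pos _
  have hKP : 0 < c.K (c.T (c.P w) + 1) := hs.K_pos _
  have hDP : 0 < c.D (c.T (c.P w)) := hs.D_pos _
  have hDKP := hs.DKb (c.T (c.P w))
  have hη : 0 < c.D (c.T (c.P w) + 1) * c.K (c.T e + 1) := mul_pos hD1 hκ
  -- gaps
  have hPrAP : c.Prec (c.A w) (c.P w) :=
    (hinv (c.P w)).ORp w (c.A w) (hc.memP w) rfl hPQ hcA hAP
  have hgAP : c.x (c.A w) + c.D (c.T (c.P w)) / 2 ≤ c.x (c.P w) :=
    hPrAP.half hs hAP (hc.nclu_P (hc.memA w))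
  have hyAe : c.y (c.A w) ≤ c.K (c.T e) := hyA.trans (hs.K_mono hAe)
  have hKe : c.M * c.K (c.T e) ≤ c.K (c.T e + 1) := hs.K_M (Nat.lt_succ_self _)
  have hyAκ : c.y (c.A w) ≤ c.K (c.T e + 1) / 2 := by
    have := hs.K_pos (c.T e)
    nlinarith
  -- the gap between `Q w` and `A w`
  have hnQ : ∀ s, ¬ c.Clu s (c.Q w) (c.A w) := fun s h =>
    hc.nclu_Q (hc.memA w) ((Clu_comm s (c.Q w) (c.A w)).1 h)
  have hcase : (c.T (c.A w) < c.T (c.Q w) ∧ c.x (c.Q w) + c.D (c.T (c.Q w)) / 2 ≤ c.x (c.A w)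
      ∧ c.y (c.Q w) = c.K (c.T (c.Q w) + 1)) ∨
      (c.T (c.Q w) < c.T (c.A w) ∧ c.x (c.Q w) + c.D (c.T (c.A w)) / 2 ≤ c.x (c.A w)) := by
    rcases lt_trichotomy (c.T (c.A w)) (c.T (c.Q w)) with h | h | h
    · left
      have hQF : c.Q w ≠ c.F w := fun h2 => by
        have := hc.F_first (hc.memA w)
        rw [← h2] at this
        omega
      refine ⟨h, ?_, hy.nb _ (hc.cor_nb hcQ hQF)⟩
      have hp : c.Prec (c.Q w) (c.A w) :=
        (hinv (c.Q w)).ORq w (c.A w) (hc.memQ w) rfl hPQ.symm hcA h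
      exact hp.half' hs h (hnQ _)
    · exact absurd (hc.T_inj _ _ h) hAQne
    · right
      refine ⟨h, ?_⟩
      have hAF : c.A w ≠ c.F w := fun h2 => by
        have := hc.F_first (hc.memQ w)
        rw [← h2] at this
        omega
      have htop : c.top w := by
        by_contra ht
        exact hAF (hc.A_bot w ht)
      have hAh : c.A w = c.h w := hc.A_top w htop
      have hFQ : c.F w = c.Q w := by
        rcases htop with h2 | h2
        · exact h2
        · exact absurd h2.symm hFP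
      have hLRh := (hc.h_top w e htop he.1).1
      have hsh : ¬ c.sd (c.h w) := hc.FQ_sd hFQ hLRh
      have hp : c.Prec (c.Q w) (c.A w) := by
        rw [hAh] at h ⊢
        exact (hinv (c.h w)).ORr w (c.Q w) hLRh hsh hcQ h
      exact hp.half hs h (hnQ _)
  have hxQA : c.x (c.Q w) ≤ c.x (c.A w) := by
    rcases hcase with ⟨_, h, _⟩ | ⟨_, h⟩
    · have := hs.D_pos (c.T (c.Q w)); linarith
    · have := hs.D_pos (c.T (c.A w)); linarith
  have hκP : c.K (c.T e + 1) ≤ c.K (c.T (c.P w) + 1) := hs.K_mono (by omega)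
  have hηP : c.M * (c.D (c.T (c.P w) + 1) * c.K (c.T e + 1)) ≤ c.D (c.T (c.P w)) := by
    have := mul_le_mul_of_nonneg_left hκP hD1.le
    have := mul_le_mul_of_nonneg_left this (by linarith : (0 : ℝ) ≤ c.M)
    linarith
  refine tri_mem (a := c.pt (c.A w)) (b := c.pt (c.P w)) (d := c.pt (c.Q w))
    ⟨_, hcA, rfl⟩ ⟨_, hcP, rfl⟩ ⟨_, hcQ, rfl⟩ ?_ ?_ ?_
  · -- (3)
    have hid : crs (c.pt (c.P w)) (c.pt (c.Q w)) (c.pt e) =
        (c.x (c.P w) - c.x e) * (c.y (c.Q w) - c.y e) +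
        (c.x e - c.x (c.Q w)) * (c.y (c.P w) - c.y e) := by
      unfold crs pt; ring
    rw [hid]
    have hxPe : 0 ≤ c.x (c.P w) - c.x e := by
      rw [hxe]; nlinarith
    have hxeQ : 0 ≤ c.x e - c.x (c.Q w) := by linarith
    have hyPe : 0 ≤ c.y (c.P w) - c.y e := by rw [hye, hyP]; linarith
    rcases le_or_gt (c.y e) (c.y (c.Q w)) with h | h
    · have h1 : 0 ≤ c.y (c.Q w) - c.y e := by linarith
      positivity
    · have hQe : c.T (c.Q w) < c.T e := by
        by_contra hcon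
        push Not at hcon
        rcases hcase with ⟨_, _, h3⟩ | ⟨h3, _⟩
        · rw [h3, hye] at h
          have := hs.K_mono (Nat.succ_le_succ hcon)
          simp only [Nat.succ_eq_add_one] at this
          linarith
        · omega
      have hg : c.D (c.T e) / 2 ≤ c.x e - c.x (c.Q w) := by
        rcases hcase with ⟨_, h3, _⟩ | ⟨_, h3⟩
        · have := hs.D_anti hQe.le; linarith
        · have := hs.D_anti hAe.le; linarith
      have hKM : c.M * c.K (c.T e + 1) ≤ c.K (c.T (c.P w) + 1) := hs.K_M (by omega)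
      have h2 : c.K (c.T (c.P w) + 1) / 2 ≤ c.y (c.P w) - c.y e := by
        rw [hye, hyP]; nlinarith
      have hDe : 0 < c.D (c.T e) := hs.D_pos _
      have h3 : c.D (c.T e) / 2 * (c.K (c.T (c.P w) + 1) / 2) ≤
          (c.x e - c.x (c.Q w)) * (c.y (c.P w) - c.y e) :=
        mul_le_mul hg h2 (by positivity) hxeQ
      have h4 : c.D (c.T (c.P w)) ≤ c.D (c.T e) := hs.D_anti heP.le
      have h5 := hs.KD (c.T (c.P w))
      have h6 : c.K (c.T e + 1) ≤ c.K (c.T (c.P w)) := hs.K_mono heP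
      have h7 : c.M * c.K (c.T e + 1) ≤ c.D (c.T e) * c.K (c.T (c.P w) + 1) := by
        calc c.M * c.K (c.T e + 1) ≤ c.M * c.K (c.T (c.P w)) :=
              mul_le_mul_of_nonneg_left h6 (by linarith)
          _ = c.D (c.T (c.P w)) * c.K (c.T (c.P w) + 1) := by rw [← h5]; ring
          _ ≤ c.D (c.T e) * c.K (c.T (c.P w) + 1) := mul_le_mul_of_nonneg_right h4 hKP.le
      have h8 := x_abs hc hs hx e
      have h9 := x_abs hc hs hx (c.P w)
      have h10 : (c.x (c.P w) - c.x e) * (c.y e - c.y (c.Q w)) ≤ 2 * c.K (c.T e + 1) := by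
        have h11 : c.x (c.P w) - c.x e ≤ 2 := by linarith [h8.1, h9.2]
        exact mul_le_mul h11 (by rw [hye]; linarith) (by linarith) (by norm_num)
      nlinarith
  · -- (2)
    have hid : crs (c.pt (c.Q w)) (c.pt (c.A w)) (c.pt e) =
        (c.x (c.A w) - c.x (c.Q w)) * (c.y e - c.y (c.A w)) -
        (c.x e - c.x (c.A w)) * (c.y (c.A w) - c.y (c.Q w)) := by
      unfold crs pt; ring
    rw [hid]
    have hη2 : c.x e - c.x (c.A w) = c.D (c.T (c.P w) + 1) * c.K (c.T e + 1) := by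
      rw [hxe]; ring
    rw [hη2]
    have hyeA : c.K (c.T e + 1) / 2 ≤ c.y e - c.y (c.A w) := by rw [hye]; linarith
    rcases hcase with ⟨h1, h2, h3⟩ | ⟨h1, h2⟩
    · have h4 : c.y (c.A w) ≤ c.y (c.Q w) := by
        rw [h3]; exact hyA.trans (hs.K_mono (by omega))
      have h5 : 0 ≤ (c.x (c.A w) - c.x (c.Q w)) * (c.y e - c.y (c.A w)) :=
        mul_nonneg (by linarith) (by linarith)
      have h6 : 0 ≤ c.D (c.T (c.P w) + 1) * c.K (c.T e + 1) * (c.y (c.Q w) - c.y (c.A w)) :=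
        mul_nonneg hη.le (by linarith)
      linarith
    · have hDA : 0 < c.D (c.T (c.A w)) := hs.D_pos _
      have hKA : 0 < c.K (c.T (c.A w) + 1) := hs.K_pos _
      have h3 : c.D (c.T (c.A w)) / 2 * (c.K (c.T e + 1) / 2) ≤
          (c.x (c.A w) - c.x (c.Q w)) * (c.y e - c.y (c.A w)) :=
        mul_le_mul (by linarith) hyeA (by positivity) (by linarith)
      have h4 : c.D (c.T (c.P w) + 1) * c.K (c.T e + 1) * (c.y (c.A w) - c.y (c.Q w)) ≤
          c.D (c.T (c.P w) + 1) * c.K (c.T e + 1) * c.K (c.T (c.A w) + 1) :=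
        mul_le_mul_of_nonneg_left (by linarith) hη.le
      have h5 : c.D (c.T (c.P w) + 1) ≤ c.D (c.T (c.A w) + 1) := hs.D_anti (by omega)
      have h6 := hs.DKb (c.T (c.A w))
      have h7 : c.D (c.T (c.P w) + 1) * c.K (c.T (c.A w) + 1) ≤
          c.D (c.T (c.A w) + 1) * c.K (c.T (c.A w) + 1) :=
        mul_le_mul_of_nonneg_right h5 hKA.le
      have h8 : 0 < c.D (c.T (c.P w) + 1) * c.K (c.T (c.A w) + 1) := mul_pos hD1 hKA
      have h9 : 1024 * (c.D (c.T (c.P w) + 1) * c.K (c.T (c.A w) + 1)) ≤ c.D (c.T (c.A w)) := by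
        nlinarith
      have h10 := mul_le_mul_of_nonneg_right h9 hκ.le
      nlinarith
  · -- (1)
    have hid : crs (c.pt (c.A w)) (c.pt (c.P w)) (c.pt e) =
        (c.x (c.P w) - c.x (c.A w)) * (c.y e - c.y (c.A w)) -
        (c.x e - c.x (c.A w)) * (c.y (c.P w) - c.y (c.A w)) := by
      unfold crs pt; ring
    rw [hid]
    have hη2 : c.x e - c.x (c.A w) = c.D (c.T (c.P w) + 1) * c.K (c.T e + 1) := by
      rw [hxe]; ring
    rw [hη2]
    have hyeA : c.K (c.T e + 1) / 2 ≤ c.y e - c.y (c.A w) := by rw [hye]; linarith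
    have h3 : c.D (c.T (c.P w)) / 2 * (c.K (c.T e + 1) / 2) ≤
        (c.x (c.P w) - c.x (c.A w)) * (c.y e - c.y (c.A w)) :=
      mul_le_mul (by linarith) hyeA (by positivity) (by linarith)
    have h4 : c.D (c.T (c.P w) + 1) * c.K (c.T e + 1) * (c.y (c.P w) - c.y (c.A w)) ≤
        c.D (c.T (c.P w) + 1) * c.K (c.T e + 1) * c.K (c.T (c.P w) + 1) :=
      mul_le_mul_of_nonneg_left (by rw [hyP]; linarith) hη.le
    have h8 : 0 < c.D (c.T (c.P w) + 1) * c.K (c.T (c.P w) + 1) := mul_pos hD1 hKP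
    have h9 : 1024 * (c.D (c.T (c.P w) + 1) * c.K (c.T (c.P w) + 1)) ≤ c.D (c.T (c.P w)) := by
      nlinarith
    have h10 := mul_le_mul_of_nonneg_right h9 hκ.le
    have h11 := mul_pos h8 hκ
    nlinarith

end Cf
end Pool.Agent.Tri
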