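import Pool.Agent.Helper57.Tri.Swap

/-! Support points of a finite convex hull at a given depth. -/

set_option autoImplicit false

namespace Pool.Agent.Tri
namespace Cf

variable {V E : Type} {c : Cf V E}

/-- Proof: Otherwise let `β` be the maximum of `(d.1 - r.1) / (d.2 - r.2)` over `d ∈ S` with
`r.2 < d.2` and `α` the maximum of `(a.1 - r.1) / (r.2 - a.2)` over `a ∈ S` with `a.2 < r.2`
(if one of these sets is empty any large constant will do). The negation of the second
alternative says `α + β < 0` for all pairs. Choose `s` with `β < s < -α`. Then all points `p` of `S`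
satisfy `p.1 - r.1 < s (p.2 - r.2)` (for `p.2 = r.2` by the negation of the first alternative), an open
half plane which does not contain `r`. (The same statement with `S` finite and nonempty; the
half plane is convex, `convexHull_min`.) -/
theorem support_right {S : Set (ℝ × ℝ)} (hS : S.Finite) {r : ℝ × ℝ} (hr : r ∈ convexHull ℝ S) :
    (∃ a ∈ S, a.2 = r.2 ∧ r.1 ≤ a.1) ∨
    (∃ a ∈ S, ∃ d ∈ S, a.2 < r.2 ∧ r.2 < d.2 ∧
      (r.1 - a.1) * (d.2 - r.2) ≤ (d.1 - r.1) * (r.2 - a.2)) := by
  classical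
  by_contra hcon
  push Not at hcon
  obtain ⟨h1, h2⟩ := hcon
  obtain ⟨s, hs1, hs2⟩ := Order.exists_between_finsets
    ((hS.toFinset.filter (fun p => r.2 < p.2)).image (fun p => (p.1 - r.1) / (p.2 - r.2)))
    ((hS.toFinset.filter (fun p => p.2 < r.2)).image (fun p => (p.1 - r.1) / (p.2 - r.2)))
    (by
      intro x hx y hy
      simp only [Finset.mem_image, Finset.mem_filter, Set.Finite.mem_toFinset] at hx hy
      obtain ⟨d, ⟨hd, hdr⟩, rfl⟩ := hx
      obtain ⟨a, ⟨ha, har⟩, rfl⟩ := hy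
      have h := h2 a ha d hd har hdr
      have e1 : (a.1 - r.1) / (a.2 - r.2) = (r.1 - a.1) / (r.2 - a.2) := by
        rw [← neg_sub r.1 a.1, ← neg_sub r.2 a.2, neg_div_neg_eq]
      rw [e1, div_lt_div_iff₀ (by linarith) (by linarith)]
      linarith)
  have hsub : convexHull ℝ S ⊆ {p : ℝ × ℝ | p.1 - s * p.2 < r.1 - s * r.2} := by
    apply convexHull_min
    · intro p hp
      simp only [Set.mem_ofPred_eq]
      rcases lt_trichotomy p.2 r.2 with h | h | h
      · have := hs2 ((p.1 - r.1) / (p.2 - r.2)) (by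
          simp only [Finset.mem_image, Finset.mem_filter, Set.Finite.mem_toFinset]
          exact ⟨p, ⟨hp, h⟩, rfl⟩)
        have e1 : (p.1 - r.1) / (p.2 - r.2) = (r.1 - p.1) / (r.2 - p.2) := by
          rw [← neg_sub r.1 p.1, ← neg_sub r.2 p.2, neg_div_neg_eq]
        rw [e1, lt_div_iff₀ (by linarith)] at this
        nlinarith
      · have := h1 p hp h
        rw [h]; linarith
      · have := hs1 ((p.1 - r.1) / (p.2 - r.2)) (by
          simp only [Finset.mem_image, Finset.mem_filter, Set.Finite.mem_toFinset]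
          exact ⟨p, ⟨hp, h⟩, rfl⟩)
        rw [div_lt_iff₀ (by linarith)] at this
        nlinarith
    · intro p hp q hq a b ha hb hab
      simp only [Set.mem_ofPred_eq, Prod.fst_add, Prod.snd_add, Prod.smul_fst, Prod.smul_snd,
        smul_eq_mul] at hp hq ⊢
      have hb' : b = 1 - a := by linarith
      subst hb'
      rcases ha.eq_or_lt with h | h
      · rw [← h]; linarith
      · nlinarith
  have := hsub hr
  simp at this

/-- mirror image -/
theorem support_left {S : Set (ℝ × ℝ)} (hS : S.Finite) {r : ℝ × ℝ} (hr : r ∈ convexHull ℝ S) :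
    (∃ a ∈ S, a.2 = r.2 ∧ a.1 ≤ r.1) ∨
    (∃ a ∈ S, ∃ d ∈ S, a.2 < r.2 ∧ r.2 < d.2 ∧
      (a.1 - r.1) * (d.2 - r.2) ≤ (r.1 - d.1) * (r.2 - a.2)) := by
  have hm : ((-r.1, r.2) : ℝ × ℝ) ∈ convexHull ℝ ((fun p : ℝ × ℝ => ((-p.1, p.2) : ℝ × ℝ)) '' S) := by
    have hl : IsLinearMap ℝ (fun p : ℝ × ℝ => ((-p.1, p.2) : ℝ × ℝ)) := by
      constructor
      · intro x y; ext <;> simp [add_comm]
      · intro t x; ext <;> simp
    have := hl.image_convexHull S
    rw [← this]
    exact ⟨r, hr, rfl⟩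
  rcases support_right (hS.image _) hm with ⟨a, ⟨a', ha', rfl⟩, h1, h2⟩ |
    ⟨a, ⟨a', ha', rfl⟩, d, ⟨d', hd', rfl⟩, h1, h2, h3⟩
  · exact Or.inl ⟨a', ha', h1, by simpa using h2⟩
  · refine Or.inr ⟨a', ha', d', hd', h1, h2, ?_⟩
    simp only at h3
    linarith

end Cf
end Pool.Agent.Tri
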