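import Pool.Agent.Helper57.Tri.YC

/-! Sides: a vertex alive at `e`. -/

set_option autoImplicit false

namespace Pool.Agent.Tri
namespace Cf

variable {V E : Type} {c : Cf V E}

/-- Proof: the left side is at most `2 K s` (if `xd ≤ xe` it is `≤ 0`), the right side at least
`D s (K (s + 1) - K s) = M K s - D s K s ≥ (M - 1) K s`. -/
theorem late_ineq (hs : c.Sq) {s : ℕ} {xa xe xd ya ye yd : ℝ} (h1 : xa + c.D s ≤ xe)
    (h2 : 0 < ya) (h3 : ya < ye) (h4 : ye ≤ c.K s) (h5 : c.K (s + 1) ≤ yd) (h6 : xd ≤ 1)
    (h7 : -1 ≤ xe) : (xd - xe) * (ye - ya) < (xe - xa) * (yd - ye) := by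
  have hM := hs.M_ge
  have hK := hs.K_pos s
  have hD := hs.D_pos s
  have hD1 := hs.D_le1 s
  have hKD := hs.KD s
  have hKK : c.K s < c.K (s + 1) := hs.K_lt (Nat.lt_succ_self s)
  have e1 : (xd - xe) * (ye - ya) ≤ 2 * (ye - ya) :=
    mul_le_mul_of_nonneg_right (by linarith) (by linarith)
  have e2 : c.D s * (yd - ye) ≤ (xe - xa) * (yd - ye) :=
    mul_le_mul_of_nonneg_right (by linarith) (by linarith)
  have e3 : c.D s * (c.K (s + 1) - c.K s) ≤ c.D s * (yd - ye) :=
    mul_le_mul_of_nonneg_left (by linarith) hD.le
  have e4 : c.D s * c.K s ≤ 1 * c.K s := mul_le_mul_of_nonneg_right hD1 hK.le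
  have e5 : 1024 * c.K s ≤ c.M * c.K s := mul_le_mul_of_nonneg_right hM hK.le
  have e6 : c.D s * (c.K (s + 1) - c.K s) = c.M * c.K s - c.D s * c.K s := by
    rw [← hKD]; ring
  linarith

/-- Proof. Corners `a` of `z` with `T e < T a` are not `F z`, so not bottom edges (cor_nb), so
`y a = K (T a + 1) > K (T e + 1) ≥ y e`. Corners with `T a < T e` have `Prec a e` (`inv_all`, ERl).
If `e` is a bottom edge then `¬ Clu (T e) a e`: in a cluster of `z'`, `e = A z'` (LR_nb) and `Ho z' a`,
`T e < T a` by Ho_A. So `x a < x e` in this case (Prec.half).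
Equality clause (`y a = y e`): `T a < T e`. If `e` is not a bottom edge: `y e = K (T e + 1)` but
`y a ≤ K (T a + 1) < K (T e + 1)`. If `e` is one: `x a < x e`.
Pair clause `y a < y e < y d`: `T a < T e`. If `T d < T e`: `y e < y d ≤ K (T d + 1) ≤ K (T e)`, so `e` is a
bottom edge, so `x d < x e`, and `x a ≤ x e`: the left side is negative, the right side `≥ 0`.
If `T e < T d`: `y d = K (T d + 1)`. If `¬ Clu (T d) a e`: `Prec.gap` with `s = T d`, `late_ineq` (`y e ≤
K (T e + 1) ≤ K (T d)`). If `Clu (T d) a e`, in the cluster of `w'`: `w' ∈ a, e`; `w' ≠ z`;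
`a2 w' < b2 e < a2 z`. If `a1 w' < a1 z`: `w' ∉ d` (else `d = a` by lin), so all edges of `w'` are before `d`
(below_late); `CP_q` with `s = T d`: `q` with (`pq w'` or `T d ≤ T q`): so `pq w'`, `T a < T (P w')`
and `pq_dead` (z := w', u := z, g := a, e := d): `T d < T (P w')`, but `T (P w') < T d`. So `z` is left of
`w'`; `pql` and `CP_ne`: `a = P z`. `d ∈ {Q z, h z}` (`F z` is first): `d = Q z ≠ P z`: `ORq` at `d` with corner
`P z`: `Prec d a`, `nclu_P`.. `x d < x a` (Prec.half'). `d = h z ≠ F z`: `LR z d`; `¬ sd d` gives
`T d < T (P z) = T a` (LR_P), no; `sd d`: `ORl` at `d` with corner `P z`. So `x d < x a ≤ x e`: the left side is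
negative, the right side `≥ 0`. -/
theorem left_alive (hc : c.Ok) (hs : c.Sq) (hx : c.XR) (hy : c.YR) {z : V} {e : E}
    (ha : c.alive z e) (h2 : c.b2 e < c.a2 z) : c.LeftOf z e := by
  obtain ⟨hze, hFe, g0, hzg0, heg0⟩ := id ha
  -- corners after `e`
  have later : ∀ a, c.cor z a → c.T e < c.T a → c.y a = c.K (c.T a + 1) ∧ c.y e < c.y a := by
    intro a hca hT
    have hne : a ≠ c.F z := by
      intro h
      rw [h] at hT
      exact lt_irrefl _ (hT.trans hFe)
    have h3 : c.y a = c.K (c.T a + 1) := hy.nb a (hc.cor_nb hca hne)
    refine ⟨h3, ?_⟩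
    rw [h3]
    exact lt_of_le_of_lt (y_ub hc hs hx hy e) (hs.K_lt (Nat.succ_lt_succ hT))
  -- corners before `e`
  have earlier : ∀ a, c.cor z a → c.T a < c.T e → c.Prec a e := by
    intro a hca hT
    exact (inv_all hc hs hx e).ERl z a ha h2 hca hT
  have tne : ∀ a, c.cor z a → c.T a ≠ c.T e := by
    intro a hca h
    have := hc.T_inj _ _ h
    rw [this] at hca
    exact hze (hc.cor_mem hca)
  -- the case of a bottom edge
  have bot : ∀ w, c.BT w e → ∀ a, c.cor z a → c.T a < c.T e → c.x a < c.x e := by
    intro w hw a hca hT
    have hn : ¬ c.Clu (c.T e) a e := by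
      rintro ⟨hne, z', hi1, hi2⟩
      rcases hi2 with hi2 | ⟨hi2, -⟩
      · rcases hi1 with hi1 | ⟨hi1, -⟩
        · exact hne (hi1.trans hi2.symm)
        · have h3 := hc.Ho_A hi1
          rw [← hi2] at h3
          exact lt_irrefl _ (h3.trans hT)
      · exact hc.LR_nb hi2.1 w hw
    have h3 := Prec.half hs (earlier a hca hT) hT hn
    have h4 := hs.D_pos (c.T e)
    linarith
  constructor
  · -- pair clause
    intro a d hca hcd hya hyd
    have hTa : c.T a < c.T e := by
      rcases lt_or_gt_of_ne (tne a hca) with h | h
      · exact h
      · exact absurd (later a hca h).2 (not_lt.2 hya.le)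
    have hpa : c.x a ≤ c.x e := (earlier a hca hTa).1
    rcases lt_or_gt_of_ne (tne d hcd) with hTd | hTd
    · -- `d` before `e`
      by_cases hb : ∃ w, c.BT w e
      · obtain ⟨w, hw⟩ := hb
        have h3 := bot w hw d hcd hTd
        have h4 : (c.x d - c.x e) * (c.y e - c.y a) < 0 :=
          mul_neg_of_neg_of_pos (by linarith) (by linarith)
        have h5 : 0 ≤ (c.x e - c.x a) * (c.y d - c.y e) :=
          mul_nonneg (by linarith) (by linarith)
        linarith
      · push Not at hb
        have h3 : c.y e = c.K (c.T e + 1) := hy.nb e hb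
        have h4 := y_ub hc hs hx hy d
        have h5 : c.K (c.T d + 1) < c.K (c.T e + 1) := hs.K_lt (Nat.succ_lt_succ hTd)
        linarith
    · -- `d` after `e`
      have hyd' := (later d hcd hTd).1
      have hTad : c.T a < c.T d := hTa.trans hTd
      by_cases hcl : c.Clu (c.T d) a e
      · have hxd : c.x d < c.x a := by
          obtain ⟨hne, w', hi1, hi2⟩ := hcl
          have hwa := hc.InC_mem hi1
          have hwe := hc.InC_mem hi2
          have hza : c.mem z a := hc.cor_mem hca
          have hzd : c.mem z d := hc.cor_mem hcd
          have hwz : w' ≠ z := by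
            intro h
            rw [h] at hwe
            exact hze hwe
          have had : a ≠ d := by
            intro h
            rw [h] at hTad
            exact lt_irrefl _ hTad
          have h2w : c.a2 w' < c.a2 z := lt_trans ((hc.mem_iff w' e).1 hwe).2.1 h2
          have hwd : ¬ c.mem w' d := by
            intro h
            exact had (hc.lin w' z a d hwz hwa hza h hzd)
          have h1w : c.a1 z < c.a1 w' := by
            rcases lt_or_gt_of_ne (fun h => hwz (hc.va1 w' z h)) with h | h
            · exfalso
              obtain ⟨q, hq, hq2, hq3, hq4⟩ := hc.CP_q hi1 hi2 hne hTad hTd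
              have hqm : c.mem w' q := by
                rcases hq with hq | hq
                · rw [hq]; exact hc.memP w'
                · rw [hq]; exact hc.memQ w'
              have h3 : c.T q < c.T d := hc.below_late h h2w hzd hwd hqm
              have hpq : c.pq w' := by
                rcases hq2 with hq2 | hq2
                · exact hq2
                · exact absurd h3 (not_lt.2 hq2)
              have hqP : q = c.P w' := by
                rcases hq with hq | hq
                · exact hq
                · rw [hq]; exact hpq.symm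
              rw [hqP] at hq3 h3
              have h4 := hc.pq_dead hpq hwz.symm hza hwa hq3 hzd
              exact lt_irrefl _ (h4.trans h3)
            · exact h
          have haP : a = c.P z := by
            rcases hc.pql h1w h2w hza hwa with h | h
            · exact h
            · exact absurd h (hc.CP_ne hi1 hi2 hne).2
          have hdP : d ≠ c.P z := by
            intro h
            exact had (haP.trans h.symm)
          have hdF : d ≠ c.F z := by
            intro h
            rw [h] at hTd
            exact lt_irrefl _ (hTd.trans hFe)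
          have hprec : c.Prec d a := by
            by_cases hdQ : d = c.Q z
            · exact (inv_all hc hs hx d).ORq z a hzd hdQ hdP hca hTad
            · have hdh : d = c.h z := by
                rcases hcd with h | h | h | h
                · exact absurd h hdF
                · exact absurd h hdP
                · exact absurd h hdQ
                · exact h
              have hLR : c.LR z d := by
                have hex : ∃ e0, c.LR z e0 := by
                  by_contra hcon
                  push Not at hcon
                  exact hdF (hdh.trans (hc.h_none z hcon))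
                obtain ⟨e0, he0⟩ := hex
                rw [hdh]
                by_cases ht : c.top z
                · exact (hc.h_top z e0 ht he0).1
                · by_cases hp : c.pq z
                  · exact (hc.h_pq z e0 ht hp he0).1
                  · exact absurd (hdh.trans (hc.h_else z ht hp)) hdF
              by_cases hsd : c.sd d
              · exact (inv_all hc hs hx d).ORl z a hLR hsd hca hTad
              · exfalso
                have h3 := hc.LR_P hLR hsd
                rw [← haP] at h3
                exact lt_irrefl _ (h3.trans hTad)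
          have hncl : ¬ c.Clu (c.T d) d a := by
            rw [haP]
            exact hc.nclu_P hzd
          have h3 := Prec.half' hs hprec hTad hncl
          have h4 := hs.D_pos (c.T d)
          linarith
        have h4 : (c.x d - c.x e) * (c.y e - c.y a) < 0 :=
          mul_neg_of_neg_of_pos (by linarith) (by linarith)
        have h5 : 0 ≤ (c.x e - c.x a) * (c.y d - c.y e) :=
          mul_nonneg (by linarith) (by linarith)
        linarith
      · have hgap := (earlier a hca hTa).gap hTad hTd hcl
        refine late_ineq hs hgap (y_pos hc hs hx hy a) hya ?_ hyd'.ge (x_abs hc hs hx d).2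
          (x_abs hc hs hx e).1
        exact (y_ub hc hs hx hy e).trans (hs.K_mono hTd)
  · -- equality clause
    intro a hca hya
    have hTa : c.T a < c.T e := by
      rcases lt_or_gt_of_ne (tne a hca) with h | h
      · exact h
      · exact absurd hya (ne_of_gt (later a hca h).2)
    by_cases hb : ∃ w, c.BT w e
    · obtain ⟨w, hw⟩ := hb
      exact bot w hw a hca hTa
    · push Not at hb
      have h3 : c.y e = c.K (c.T e + 1) := hy.nb e hb
      have h4 := y_ub hc hs hx hy a
      have h5 : c.K (c.T a + 1) < c.K (c.T e + 1) := hs.K_lt (Nat.succ_lt_succ hTa)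
      linarith

theorem right_alive (hc : c.Ok) (hs : c.Sq) (hx : c.XR) (hy : c.YR) {z : V} {e : E}
    (ha : c.alive z e) (h1 : c.b1 e < c.a1 z) : c.RightOf z e :=
  (swap_LeftOf z e).1 (left_alive (swap_ok hc) (swap_sq hs) (swap_xr hx) (swap_yr hy)
    ((swap_alive z e).2 ha) h1)

end Cf
end Pool.Agent.Tri
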