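import Pool.Agent.Helper57.Tri.GC

/-! Sides: children of bottom edges. -/

set_option autoImplicit false

namespace Pool.Agent.Tri
namespace Cf

variable {V E : Type} {c : Cf V E}

theorem gd_pair (hc : c.Ok) (hs : c.Sq) (hx : c.XR) (hy : c.YR) {g e d : E}
    (hgap : c.x g + c.D (c.T d) ≤ c.x e) (hge : c.y g < c.y e) (hed : c.T e < c.T d)
    (hdn : c.y d = c.K (c.T d + 1)) :
    (c.x d - c.x e) * (c.y e - c.y g) < (c.x e - c.x g) * (c.y d - c.y e) :=
  late_ineq hs hgap (y_pos hc hs hx hy g) hge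
    ((y_ub hc hs hx hy e).trans (hs.K_mono (by omega))) (le_of_eq hdn.symm)
    (x_abs hc hs hx d).2 (x_abs hc hs hx e).1

/-- a corner of `z` other than `F z` -/
theorem gd_cor (hc : c.Ok) (hy : c.YR) {z : V} {a : E} (ha : c.cor z a) (hne : a ≠ c.F z) :
    c.T (c.F z) < c.T a ∧ c.y a = c.K (c.T a + 1) :=
  ⟨hc.F_lt (hc.cor_mem ha) hne, hy.nb a (hc.cor_nb ha hne)⟩

theorem gd_late (hc : c.Ok) (hs : c.Sq) (hx : c.XR) (hy : c.YR) {e a : E}
    (hT : c.T e < c.T a) (ha : c.y a = c.K (c.T a + 1)) : c.y e < c.y a := by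
  rw [ha]
  exact lt_of_le_of_lt (y_ub hc hs hx hy e) (hs.K_lt (by omega))

/-- `F z` is a bottom edge of `w`, `P w` the last corner of `w`: `T_z` is left of the point of `P w`.
Proof. `g = F z`; `y (P w) = K (T (P w) + 1)` (last_nb), `T (P w) < T g`. Corners `a ≠ g` of `z` have
`T g < T a`, `y a = K (T a + 1) > y (P w)`; and `y g < K (T (P w) + 1)` (y_btP). So the equality clause is
empty, and in the pair clause `a = g`, `d ≠ g`, `T g < T d`: `OBp` at `g`: `Prec g (P w)`, `nclu_P`, gap with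
`s = T d`, `late_ineq`. -/
theorem left_last (hc : c.Ok) (hs : c.Sq) (hx : c.XR) (hy : c.YR) {z w : V}
    (hz : c.BT w (c.F z)) (hT : c.T (c.Q w) < c.T (c.P w)) : c.LeftOf z (c.P w) := by
  have h1 := hy.nb (c.P w) (hc.last_nb hT)
  have h2 := hc.bt_TP hz
  have h3 := (y_btP hc hs hx hy hz hT).2
  have hlate : ∀ a, c.cor z a → a ≠ c.F z → c.T (c.P w) < c.T a ∧ c.y (c.P w) < c.y a ∧
      c.y a = c.K (c.T a + 1) := by
    intro a ha hne
    obtain ⟨h4, h5⟩ := gd_cor hc hy ha hne
    have h6 : c.T (c.P w) < c.T a := h2.trans h4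
    exact ⟨h6, gd_late hc hs hx hy h6 h5, h5⟩
  refine ⟨fun a d ha hd hae hed => ?_, fun a ha hae => ?_⟩
  · have hag : a = c.F z := by
      by_contra hne
      have := (hlate a ha hne).2.1
      linarith
    subst hag
    have hdg : d ≠ c.F z := by
      rintro rfl
      linarith
    obtain ⟨h4, _, h6⟩ := hlate d hd hdg
    have h7 := (inv_all hc hs hx (c.F z)).OBp w hz
    have h9 := (gd_cor hc hy hd hdg).1
    have h8 := h7.gap h9 h4 (hc.nclu_P hz.1.1)
    exact gd_pair hc hs hx hy h8 hae h4 h6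
  · exfalso
    by_cases hag : a = c.F z
    · subst hag
      rw [h1] at hae
      linarith
    · have := (hlate a ha hag).2.1
      linarith

theorem right_last (hc : c.Ok) (hs : c.Sq) (hx : c.XR) (hy : c.YR) {z w : V}
    (hz : c.BT w (c.F z)) (hT : c.T (c.P w) < c.T (c.Q w)) : c.RightOf z (c.Q w) := by
  have h := left_last (swap_ok hc) (swap_sq hs) (swap_xr hx) (swap_yr hy) (z := z) (w := w)
    ((swap_BT w (c.F z)).2 hz) hT
  exact (swap_LeftOf z (c.Q w)).1 h

/-- `F z = g` is a bottom edge of `w` and `e` is before `g`, `w` is alive at `e`, left of it.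
Proof. Corners `a ≠ g` of `z`: `T e < T g < T a`, `y a = K (T a + 1) > y e`. So in both clauses `a = g` and
`y g ≤ y e`. `bt_last` for `g`: `K (T l) < y g ≤ y e ≤ K (T e + 1)`, so `T l ≤ T e`, `T l < T e` (`w ∈ l`,
`w ∉ e`), so `T (P w) < T e`; `ERl` at `e` for `w` with corner `P w`: `x (P w) ≤ x e`. `x g < x (P w)` (bt_x).
Pair clause: `OBp` at `g`, `nclu_P`, gap `s = T d`: `x g + D (T d) ≤ x (P w) ≤ x e`; `late_ineq`. -/
theorem left_shadow (hc : c.Ok) (hs : c.Sq) (hx : c.XR) (hy : c.YR) {z w : V} {e : E}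
    (hz : c.BT w (c.F z)) (hT : c.T e < c.T (c.F z)) (ha : c.alive w e)
    (h2 : c.b2 e < c.a2 w) : c.LeftOf z e := by
  have hlate : ∀ a, c.cor z a → a ≠ c.F z → c.T e < c.T a ∧ c.y e < c.y a ∧
      c.y a = c.K (c.T a + 1) := by
    intro a ha' hne
    obtain ⟨h4, h5⟩ := gd_cor hc hy ha' hne
    have h6 : c.T e < c.T a := hT.trans h4
    exact ⟨h6, gd_late hc hs hx hy h6 h5, h5⟩
  have hkey : c.y (c.F z) ≤ c.y e → c.x (c.P w) ≤ c.x e := by
    intro hle
    obtain ⟨l, -, h3, h4, h5, h6, h7, h8, h9, h10⟩ := bt_last hc hs hx hy hz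
    have h11 := y_ub hc hs hx hy e
    have h12 : c.T l < c.T e + 1 := by
      by_contra hcon
      have := hs.K_mono (Nat.le_of_not_lt hcon)
      linarith
    have h13 : c.T l ≠ c.T e := by
      intro heq
      have := hc.T_inj _ _ heq
      rw [this] at h7
      exact ha.1 h7
    have h14 : c.T (c.P w) < c.T e := by omega
    exact ((inv_all hc hs hx e).ERl w (c.P w) ha h2 (Or.inr (Or.inl rfl)) h14).le
  have hbx := (bt_x hc hs hx hz).2
  refine ⟨fun a d ha' hd hae hed => ?_, fun a ha' hae => ?_⟩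
  · have hag : a = c.F z := by
      by_contra hne
      have := (hlate a ha' hne).2.1
      linarith
    subst hag
    have hdg : d ≠ c.F z := by
      rintro rfl
      linarith
    obtain ⟨h4, _, h6⟩ := hlate d hd hdg
    have h7 := (inv_all hc hs hx (c.F z)).OBp w hz
    have h9 := (gd_cor hc hy hd hdg).1
    have h10 := hc.bt_TP hz
    have h8 := h7.gap h9 (h10.trans h9) (hc.nclu_P hz.1.1)
    exact gd_pair hc hs hx hy (h8.trans (hkey hae.le)) hae h4 h6
  · have hag : a = c.F z := by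
      by_contra hne
      have := (hlate a ha' hne).2.1
      linarith
    subst hag
    exact lt_of_lt_of_le hbx (hkey hae.le)

theorem right_shadow (hc : c.Ok) (hs : c.Sq) (hx : c.XR) (hy : c.YR) {z w : V} {e : E}
    (hz : c.BT w (c.F z)) (hT : c.T e < c.T (c.F z)) (ha : c.alive w e)
    (h1 : c.b1 e < c.a1 w) : c.RightOf z e := by
  have h := left_shadow (swap_ok hc) (swap_sq hs) (swap_xr hx) (swap_yr hy) (z := z) (w := w)
    (e := e) ((swap_BT w (c.F z)).2 hz) hT ha h1
  exact (swap_LeftOf z e).1 h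

/-- siblings. Proof. `g = F z`. `Prec g e`: if `T g < T e`: `SBl` at `e`. If `T e < T g`: `SBr` at `g`
(`b2 e < b2 g` by `sib`). Corners `a ≠ g` of `z` come after `e`: if `T e < T g` clear; if `T g < T e`: `z` is
below `w` (bt_D), `w ∉ a` (lin), `below_late`. So they have `y a = K (T a + 1) > y e`. Both clauses: `a = g`;
`x g < x e` (nclu_bt, Prec.half or half'); pair clause: gap with `s = T d`, `late_ineq`. -/
theorem left_sib (hc : c.Ok) (hs : c.Sq) (hx : c.XR) (hy : c.YR) {z w : V} {e : E}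
    (hz : c.BT w (c.F z)) (he : c.BT w e) (hb : c.b1 (c.F z) < c.b1 e) : c.LeftOf z e := by
  have hzw : z ≠ w := (hc.cor_bt (Or.inl rfl) hz).2
  have hmz : c.mem z (c.F z) := hc.memF z
  have hne' : c.T (c.F z) ≠ c.T e := by
    intro h
    rw [hc.T_inj _ _ h] at hb
    exact lt_irrefl _ hb
  have hprec : c.Prec (c.F z) e := by
    rcases lt_or_gt_of_ne hne' with h | h
    · exact (inv_all hc hs hx e).SBl w (c.F z) he hz h hb
    · exact (inv_all hc hs hx (c.F z)).SBr w e hz he h (hc.sib he hz hb)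
  have hnclu : ∀ s, ¬ c.Clu s (c.F z) e := fun s => nclu_bt hc hz he.1.1
  have hxlt : c.x (c.F z) < c.x e := by
    rcases lt_or_gt_of_ne hne' with h | h
    · have h3 := hprec.half hs h (hnclu _)
      have h4 := hs.D_pos (c.T e)
      linarith
    · have h3 := hprec.half' hs h (hnclu _)
      have h4 := hs.D_pos (c.T (c.F z))
      linarith
  have hlate : ∀ a, c.cor z a → a ≠ c.F z → c.T (c.F z) < c.T a ∧ c.T e < c.T a ∧
      c.y e < c.y a ∧ c.y a = c.K (c.T a + 1) := by
    intro a ha' hne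
    obtain ⟨h4, h5⟩ := gd_cor hc hy ha' hne
    have h6 : c.T e < c.T a := by
      rcases lt_or_gt_of_ne hne' with h | h
      · obtain ⟨h7, h8, _⟩ := hc.bt_D hz hmz hzw
        refine hc.below_late h7 h8 (hc.cor_mem ha') ?_ he.1.1
        intro hwa
        exact hne (hc.lin z w a (c.F z) hzw (hc.cor_mem ha') hwa hmz hz.1.1)
      · exact h.trans h4
    exact ⟨h4, h6, gd_late hc hs hx hy h6 h5, h5⟩
  refine ⟨fun a d ha' hd hae hed => ?_, fun a ha' hae => ?_⟩
  · have hag : a = c.F z := by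
      by_contra hne
      have := (hlate a ha' hne).2.2.1
      linarith
    subst hag
    have hdg : d ≠ c.F z := by
      rintro rfl
      linarith
    obtain ⟨h3, h4, _, h6⟩ := hlate d hd hdg
    have h8 := hprec.gap h3 h4 (hnclu _)
    exact gd_pair hc hs hx hy h8 hae h4 h6
  · have hag : a = c.F z := by
      by_contra hne
      have := (hlate a ha' hne).2.2.1
      linarith
    subst hag
    exact hxlt

theorem right_sib (hc : c.Ok) (hs : c.Sq) (hx : c.XR) (hy : c.YR) {z w : V} {e : E}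
    (hz : c.BT w (c.F z)) (he : c.BT w e) (hb : c.b2 (c.F z) < c.b2 e) : c.RightOf z e := by
  have h := left_sib (swap_ok hc) (swap_sq hs) (swap_xr hx) (swap_yr hy) (z := z) (w := w)
    (e := e) ((swap_BT w (c.F z)).2 hz) ((swap_BT w e).2 he) hb
  exact (swap_LeftOf z e).1 h

end Cf
end Pool.Agent.Tri
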