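import Pool.Agent.Helper57.Tri.GC

/-! Sides: dead vertices at bottom edges. -/

set_option autoImplicit false

namespace Pool.Agent.Tri
namespace Cf

variable {V E : Type} {c : Cf V E}

/-- The exceptional inequality. Proof: `y_f = K (s+1)`. Put `L = yf - Y > 0`, `G = yf - ye > 0`. The line
equation gives `(xe - xf) L = (X - xf) G`. The claim `(xf - xe) (ye - ya) < (xe - xa) G`, multiplied by
`L / G`, is `-(X - xf) (ye - ya) < (xf - xa) L + (X - xf) G`, i.e.
`0 < (X - xa) yf - (xf - xa) Y - (X - xf) ya`, and the right side is at least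
`D s K (s+1) - 2 K s - 2 K s = (M - 4) K s > 0`. -/
theorem exc_ineq (hs : c.Sq) {s : ℕ} {X Y xf yf xa ya xe ye : ℝ} (h1 : xa + c.D s ≤ X)
    (hX : X ≤ 1) (hxf : -1 ≤ xf ∧ xf ≤ 1) (hxa : -1 ≤ xa) (hya : 0 < ya ∧ ya ≤ c.K s)
    (hY : 0 < Y ∧ Y ≤ c.K s) (hf : yf = c.K (s + 1)) (h2 : ye < yf) (h3 : ya < ye)
    (hl : xe * (Y - yf) + X * (yf - ye) + xf * (ye - Y) = 0) :
    (xf - xe) * (ye - ya) < (xe - xa) * (yf - ye) := by
  have hM := hs.M_ge
  have hK := hs.K_pos s
  have hKD := hs.KD s
  have hD := hs.D_pos s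
  have hKlt : c.K s < c.K (s + 1) := hs.K_lt (Nat.lt_succ_self s)
  have hyf : 0 < yf := by rw [hf]; exact hs.K_pos _
  have k1 : c.M * c.K s ≤ (X - xa) * yf := by
    rw [← hKD, ← hf]
    nlinarith
  have k2 : (X - xf) * ya ≤ 2 * c.K s := by nlinarith [hya.1, hya.2, hxf.1]
  have k3 : (xf - xa) * Y ≤ 2 * c.K s := by nlinarith [hY.1, hY.2, hxf.2]
  have k4 : 1024 * c.K s ≤ c.M * c.K s := mul_le_mul_of_nonneg_right hM hK.le
  have key : 0 < (X - xf) * (yf - ya) + (xf - xa) * (yf - Y) := by nlinarith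
  have hL : 0 < yf - Y := by rw [hf]; linarith [hY.2]
  have hG : 0 < yf - ye := by linarith
  have hid : ((xe - xa) * (yf - ye) - (xf - xe) * (ye - ya)) * (yf - Y) =
      (yf - ye) * ((X - xf) * (yf - ya) + (xf - xa) * (yf - Y)) := by
    linear_combination (-(yf - ya)) * hl
  have hpos : 0 < ((xe - xa) * (yf - ye) - (xf - xe) * (ye - ya)) * (yf - Y) := by
    rw [hid]; exact mul_pos hG key
  have := (mul_pos_iff_of_pos_right hL).1 hpos
  linarith

/-- `e` is a bottom edge of `w`, `z` is left of `w` and all edges of `z` are before `e`.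
Proof. Let `l` be the last corner of `w` (bt_last).
Claim A: for corners `g` of `z` with `T l ≤ T g`: `x g < x e`.
Equality clause `y a = y e`: `K (T l) < y e = y a ≤ K (T a + 1)`, so `T l ≤ T a`, claim A.
Pair clause: `K (T l) < y e < y d ≤ K (T d + 1)`, so `T l ≤ T d`, claim A: `x d < x e`. If `x a ≤ x e` then
the left side is negative and the right side `≥ 0`; otherwise the exceptional case, `exc_ineq`. -/
theorem left_dead (hc : c.Ok) (hs : c.Sq) (hx : c.XR) (hy : c.YR) {z w : V} {e : E}
    (he : c.BT w e) (h1 : c.a1 z < c.a1 w) (h2 : c.a2 w < c.a2 z)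
    (hd : ∀ g, c.mem z g → c.T g < c.T e) : c.LeftOf z e := by
  obtain ⟨l, hl0, hl1, hl2, hl3, hl4, hl5, hl6, hl7, hl8⟩ := bt_last hc hs hx hy he
  obtain ⟨bx1, bx2⟩ := bt_x hc hs hx he
  have hzw : z ≠ w := by rintro rfl; omega
  have hwe : c.mem w e := he.1.1
  have corQ : c.cor w (c.Q w) := Or.inr (Or.inr (Or.inl rfl))
  have corP : c.cor w (c.P w) := Or.inr (Or.inl rfl)
  -- right of `g` when `w` is not in `g`
  have hright : ∀ g, c.mem z g → ¬ c.mem w g → c.T (c.F w) < c.T g → c.T (c.Q w) < c.T g →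
      c.x g < c.x e := by
    intro g hg hwg hF hQ
    have hal : c.alive w g := ⟨hwg, hF, e, hwe, hd g hg⟩
    have hgI := (hc.mem_iff z g).1 hg
    rcases hc.alive_side hal with h | h
    · have := (inv_all hc hs hx g).ERr w (c.Q w) hal h corQ hQ
      exact lt_of_le_of_lt this.le bx1
    · omega
  have claimA : ∀ g, c.cor z g → c.T l ≤ c.T g → c.x g < c.x e := by
    intro g hg hlg
    have hzg := hc.cor_mem hg
    by_cases hwg : c.mem w g
    · rcases hc.edge_class hwg with h | h | h | h | h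
      · rw [h] at hlg; omega
      · rcases hl0 with h0 | h0
        · have := hc.pq_late2 (f := c.P w) (e := c.P w) h1 h2 (h ▸ hzg) (hc.memP w)
            (fun hh => by rw [hh] at h0; omega) (h ▸ hzg)
          omega
        · rw [h, h0.1] at hlg; omega
      · rw [h]; exact bx1
      · by_cases hsd : c.sd g
        · have := hc.LR_Q h hsd; omega
        · have := hc.LR_P h hsd; omega
      · have := hc.bt_D h hzg hzw; omega
    · have hne : c.T (c.Q w) ≠ c.T g := fun hh => hwg (hc.T_inj _ _ hh ▸ hc.memQ w)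
      exact hright g hzg hwg (by omega) (by omega)
  have hbig : ∀ g, c.y e ≤ c.y g → c.T l ≤ c.T g := by
    intro g hg
    have h3 : c.K (c.T l) < c.K (c.T g + 1) :=
      lt_of_lt_of_le hl7 (hg.trans (y_ub hc hs hx hy g))
    by_contra hcon
    exact absurd h3 (not_lt.2 (hs.K_mono (by omega)))
  refine ⟨fun a d ha hdd h3 h4 => ?_, fun a ha h3 => claimA a ha (hbig a h3.ge)⟩
  have hTd : c.T l ≤ c.T d := hbig d h4.le
  have hxd : c.x d < c.x e := claimA d hdd hTd
  have hza := hc.cor_mem ha
  have hzd := hc.cor_mem hdd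
  -- generic conclusion
  have hgen : c.x a ≤ c.x e →
      (c.x d - c.x e) * (c.y e - c.y a) < (c.x e - c.x a) * (c.y d - c.y e) := by
    intro hle
    have e1 : (c.x d - c.x e) * (c.y e - c.y a) < 0 :=
      mul_neg_of_neg_of_pos (by linarith) (by linarith)
    have e2 : 0 ≤ (c.x e - c.x a) * (c.y d - c.y e) :=
      mul_nonneg (by linarith) (by linarith)
    linarith
  by_cases hal : c.T l ≤ c.T a
  · exact hgen (claimA a ha hal).le
  have hal' : c.T a < c.T l := not_le.1 hal
  rcases lt_trichotomy (c.T a) (c.T (c.Q w)) with hQ | hQ | hQ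
  · have hTdQ : c.T (c.Q w) ≤ c.T d := by omega
    by_cases hzQ : c.mem z (c.Q w)
    · have hQP : c.Q w = c.P z := by
        by_contra hcon
        have k1 := hc.pq_late1 (f := c.Q w) h1 h2 hzQ (hc.memQ w) hcon hwe
        have k2 := hd _ (hc.memP z)
        omega
      by_cases hPQ : c.P z = c.Q z
      · have hdP := hc.pq_last (w := z) hPQ hzd
        rw [← hQP] at hdP
        have hdl : d = c.Q w := hc.T_inj _ _ (by omega)
        have hll : l = c.Q w := hc.T_inj _ _ (by omega)
        have hPQw : c.T (c.P w) < c.T (c.Q w) := by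
          rcases hl0 with h0 | h0
          · rw [h0.1] at hll; rw [hll] at h0; omega
          · exact h0.2
        have n1 : ¬ c.mem z (c.P w) := by
          intro hcon
          have := hc.lin z w _ _ hzw hcon (hc.memP w) hzQ (hc.memQ w)
          rw [this] at hPQw; omega
        have n2 : ¬ c.mem w a := by
          intro hcon
          have := hc.lin z w _ _ hzw hza hcon hzQ (hc.memQ w)
          rw [this] at hQ; omega
        have hp := pair hc (t := c.T (c.Q w)) (fun e _ => inv_all hc hs hx e) h1 h2 ha corP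
          n1 n2 hQ hPQw hzQ (hc.memQ w) le_rfl le_rfl
        have hn := hc.ncm hzw hzQ (hc.memQ w) hza (hc.memP w) hQ hPQw
        have hg := hp.gap hQ hPQw hn
        have b1 := x_abs hc hs hx (c.P w)
        have b2 := x_abs hc hs hx (c.Q w)
        have b3 := x_abs hc hs hx a
        rw [hdl]
        rw [hll] at hl8
        refine exc_ineq hs (s := c.T (c.Q w)) hg b1.2 b2 b3.1
          ⟨y_pos hc hs hx hy a, (y_ub hc hs hx hy a).trans (hs.K_mono (by omega))⟩
          ⟨y_pos hc hs hx hy (c.P w), (y_ub hc hs hx hy _).trans (hs.K_mono (by omega))⟩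
          (hy.nb _ (hc.last_nb' hPQw)) ?_ h3 (hy.bt w e he)
        rw [hy.nb _ (hc.last_nb' hPQw)]
        exact hl8
      · have hQQ : c.Q w ≠ c.Q z := fun h => hPQ (hQP.symm.trans h)
        have := (inv_all hc hs hx (c.Q w)).ORp z a hzQ hQP hQQ ha hQ
        exact hgen (this.le.trans bx1.le)
    · have hne : c.T (c.Q w) ≠ c.T d := fun hh => hzQ (hc.T_inj _ _ hh ▸ hzd)
      have hFz := hc.F_first hza
      have hzal : c.alive z (c.Q w) := ⟨hzQ, by omega, d, hzd, by omega⟩
      have hQI := (hc.mem_iff w (c.Q w)).1 (hc.memQ w)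
      rcases hc.alive_side hzal with h | h
      · omega
      · have := (inv_all hc hs hx (c.Q w)).ERl z a hzal h ha hQ
        exact hgen (this.le.trans bx1.le)
  · have : a = c.Q w := hc.T_inj _ _ hQ
    rw [this] at hgen h3 ⊢
    exact hgen bx1.le
  · by_cases hwa : c.mem w a
    · exfalso
      have := hc.pq_late2 (f := a) (e := a) h1 h2 hza hwa
        (fun hh => by rw [hh] at hQ; omega) hza
      omega
    · have := hc.F_first (hc.memQ w)
      exact hgen (hright a hza hwa (by omega) hQ).le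

theorem right_dead (hc : c.Ok) (hs : c.Sq) (hx : c.XR) (hy : c.YR) {z w : V} {e : E}
    (he : c.BT w e) (h1 : c.a1 w < c.a1 z) (h2 : c.a2 z < c.a2 w)
    (hd : ∀ g, c.mem z g → c.T g < c.T e) : c.RightOf z e := by
  rw [← swap_LeftOf]
  exact left_dead (c := c.swap) (swap_ok hc) (swap_sq hs) (swap_xr hx) (swap_yr hy)
    ((swap_BT w e).2 he) h2 h1 hd

end Cf
end Pool.Agent.Tri
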