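import Pool.Agent.Helper57.Tri.GD
import Pool.Agent.Helper57.Tri.GE

/-! Side conditions for `u` left of `v` without common edge. -/

set_option autoImplicit false

namespace Pool.Agent.Tri
namespace Cf

variable {V E : Type} {c : Cf V E}

/-- trivial cases -/
theorem right_above {z : V} {e : E} (h : ∀ a, c.cor z a → c.y e < c.y a) : c.RightOf z e :=
  ⟨fun a _ ha _ h1 _ => absurd h1 (not_lt.2 (h a ha).le),
    fun a ha h1 => absurd (h a ha) (by rw [h1]; exact lt_irrefl _)⟩

theorem left_above {z : V} {e : E} (h : ∀ a, c.cor z a → c.y e < c.y a) : c.LeftOf z e :=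
  ⟨fun a _ ha _ h1 _ => absurd h1 (not_lt.2 (h a ha).le),
    fun a ha h1 => absurd (h a ha) (by rw [h1]; exact lt_irrefl _)⟩

theorem right_below {z : V} {e : E} (h : ∀ a, c.cor z a → c.y a < c.y e) : c.RightOf z e :=
  ⟨fun _ d _ hd _ h2 => absurd h2 (not_lt.2 (h d hd).le),
    fun a ha h1 => absurd (h a ha) (by rw [h1]; exact lt_irrefl _)⟩

theorem left_below {z : V} {e : E} (h : ∀ a, c.cor z a → c.y a < c.y e) : c.LeftOf z e :=
  ⟨fun _ d _ hd _ h2 => absurd h2 (not_lt.2 (h d hd).le),
    fun a ha h1 => absurd (h a ha) (by rw [h1]; exact lt_irrefl _)⟩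

/-- `F v` bottom edge of `w`; an edge `e` before the last corner of `w` is above `T_v`.
(`y e ≤ K (T e + 1) ≤ K (T l) < y (F v)`; other corners: `K (T a + 1)`.) -/
theorem above_of_lt (hc : c.Ok) (hs : c.Sq) (hx : c.XR) (hy : c.YR) {v w : V} {e l : E}
    (hw : c.BT w (c.F v)) (hl : l = c.P w ∨ l = c.Q w) (hT : c.T e < c.T l) :
    ∀ a, c.cor v a → c.y e < c.y a := by
  intro a ha
  obtain ⟨l0, -, hl1, hl2, hl3, -, -, -, hl7, -⟩ := bt_last hc hs hx hy hw
  have hll : c.T l ≤ c.T l0 := by
    rcases hl with rfl | rfl
    · exact hl2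
    · exact hl3
  have h1 : c.y e ≤ c.K (c.T l0) :=
    (y_ub hc hs hx hy e).trans (hs.K_mono (by omega))
  by_cases haF : a = c.F v
  · subst haF
    exact lt_of_le_of_lt h1 hl7
  · have h2 := hc.cor_nb ha haF
    rw [hy.nb a h2]
    have h3 := hc.F_lt (hc.cor_mem ha) haF
    exact lt_of_le_of_lt h1 (hs.K_lt (by omega))

private theorem mem_of {w v : V} {e : E} (hc : c.Ok) (hF : c.BT w (c.F v)) (he : c.BT w e)
    (hvw : v ≠ w) (hb2 : c.a2 v < c.b2 e) (hve : ¬ c.mem v e) : c.b2 (c.F v) < c.b2 e := by
  obtain ⟨-, -, h3⟩ := hc.bt_D hF (hc.memF v) hvw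
  have hne : e ≠ c.F v := fun h => hve (h ▸ hc.memF v)
  have hv := (hc.mem_iff v (c.F v)).1 (hc.memF v)
  have hwe := (hc.mem_iff w e).1 he.1.1
  have h4 : c.b1 e < c.b1 (c.F v) := by
    rcases lt_trichotomy (c.b1 e) (c.b1 (c.F v)) with h | h | h
    · exact h
    · exact absurd (hc.eb1 _ _ h) hne
    · exact absurd ((hc.mem_iff v e).2 ⟨by omega, hb2, by omega⟩) hve
  exact hc.sib hF he h4

/-- `u` left of `v`, no common edge, `e` a corner of `u`. -/
theorem right_of_left (hc : c.Ok) (hs : c.Sq) (hx : c.XR) (hy : c.YR) {u v : V} {e : E}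
    (h1 : c.a1 u < c.a1 v) (h2 : c.a2 v < c.a2 u) (hn : ∀ f, c.mem u f → ¬ c.mem v f)
    (he : c.cor u e) : c.RightOf v e := by
  have hue : c.mem u e := hc.cor_mem he
  have hve : ¬ c.mem v e := hn e hue
  have hueI := (hc.mem_iff u e).1 hue
  have hb2 : c.a2 v < c.b2 e := by omega
  have hneT : ∀ g, c.mem v g → c.T g ≠ c.T e := fun g hg h => hve (hc.T_inj _ _ h ▸ hg)
  by_cases hA : c.alive v e
  · rcases hc.alive_side hA with h | h
    · exact right_alive hc hs hx hy hA h
    · omega
  by_cases hB : c.T e < c.T (c.F v)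
  · -- case B
    by_cases hBT : ∃ w, c.BT w (c.F v)
    · obtain ⟨w, hw⟩ := hBT
      have hvw : v ≠ w := by
        rintro rfl
        exact hw.1.2.1 rfl
      obtain ⟨d1, d2, d3⟩ := hc.bt_D hw (hc.memF v) hvw
      have hwF : c.mem w (c.F v) := hw.1.1
      by_cases hwe : c.mem w e
      · have huw : u ≠ w := by
          rintro rfl
          exact hn _ hwF (hc.memF v)
        obtain ⟨l, hl0, hl1, hl2, hl3, hl4, hl5, hl6, hl7, hl8⟩ := bt_last hc hs hx hy hw
        have hlPQ : l = c.P w ∨ l = c.Q w := by
          rcases hl0 with h | h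
          · exact Or.inl h.1
          · exact Or.inr h.1
        by_cases hel : c.T e < c.T l
        · exact right_above (above_of_lt hc hs hx hy hw hlPQ hel)
        · have hweI := (hc.mem_iff w e).1 hwe
          rcases hc.edge_class hwe with h | h | h | h | h
          · rw [h] at hel; omega
          · exfalso
            have hvF := (hc.mem_iff v (c.F v)).1 (hc.memF v)
            have hmx := hc.maxP w _ hwF
            rw [← h] at hmx
            exact hve ((hc.mem_iff v e).2 ⟨by omega, hb2, by omega⟩)
          · rcases hl0 with h0 | h0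
            · exfalso
              rw [h] at hel
              rw [h0.1] at hel
              omega
            · rw [h]
              exact right_last hc hs hx hy hw h0.2
          · exfalso
            by_cases hsd : c.sd e
            · have := hc.LR_Q h hsd; omega
            · have := hc.LR_P h hsd; omega
          · exact right_sib hc hs hx hy hw h (mem_of hc hw h hvw hb2 hve)
      · by_cases hFw : c.T e < c.T (c.F w)
        · have := hc.F_first (hc.memP w)
          exact right_above (above_of_lt hc hs hx hy hw (Or.inl rfl) (by omega))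
        · have hne : c.T (c.F w) ≠ c.T e := fun h => hwe (hc.T_inj _ _ h ▸ hc.memF w)
          have hal : c.alive w e := ⟨hwe, by omega, c.F v, hwF, hB⟩
          rcases hc.alive_side hal with h | h
          · exact right_shadow hc hs hx hy hw hB hal h
          · omega
    · have hBT' : ∀ w, ¬ c.BT w (c.F v) := fun w hw => hBT ⟨w, hw⟩
      refine right_above fun a ha => ?_
      have hnb : ∀ w, ¬ c.BT w a := by
        by_cases haF : a = c.F v
        · rw [haF]; exact hBT'
        · exact hc.cor_nb ha haF
      rw [hy.nb a hnb]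
      have := hc.F_first (hc.cor_mem ha)
      exact lt_of_le_of_lt (y_ub hc hs hx hy e) (hs.K_lt (by omega))
  · -- case C
    have hF : c.T (c.F v) < c.T e := lt_of_le_of_ne (not_lt.1 hB) (hneT _ (hc.memF v))
    have hC : ∀ g, c.mem v g → c.T g < c.T e := by
      intro g hg
      by_contra hcon
      have : c.T e < c.T g := lt_of_le_of_ne (not_lt.1 hcon) (hneT g hg).symm
      exact hA ⟨hve, hF, g, hg, this⟩
    by_cases hBT : ∃ w, c.BT w e
    · obtain ⟨w, hw⟩ := hBT
      obtain ⟨heF, huw⟩ := hc.cor_bt he hw
      obtain ⟨d1, d2, d3⟩ := hc.bt_D hw hue huw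
      have hwe : c.mem w e := hw.1.1
      have hvw : v ≠ w := by
        rintro rfl
        exact hve hwe
      rcases lt_trichotomy (c.a2 v) (c.a2 w) with h | h | h
      · exact right_dead hc hs hx hy hw (by omega) h hC
      · exact absurd (hc.va2 _ _ h) hvw
      · have hall : ∀ g, c.mem v g → c.mem w g := by
          intro g hg
          by_contra hcon
          have := hc.below_late (w := w) (u := v) (by omega) h hg hcon hwe
          have := hC g hg
          omega
        have hun : ∀ g, c.mem v g → g = c.F v := fun g hg =>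
          hc.lin v w g (c.F v) hvw hg (hall g hg) (hc.memF v) (hall _ (hc.memF v))
        by_cases hwF : c.BT w (c.F v)
        · exact right_sib hc hs hx hy hwF hw (mem_of hc hwF hw hvw hb2 hve)
        · obtain ⟨l, hl0, hl1, hl2, hl3, hl4, hl5, hl6, hl7, hl8⟩ := bt_last hc hs hx hy hw
          have key : c.y (c.F v) ≠ c.y e := by
            intro heq
            by_cases hBT2 : ∃ w2, c.BT w2 (c.F v)
            · obtain ⟨w2, hw2⟩ := hBT2
              have hne2 : w ≠ w2 := by
                rintro rfl
                exact hwF hw2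
              have hwFv := hall _ (hc.memF v)
              obtain ⟨k1, k2, k3⟩ := hc.bt_D hw2 hwFv hne2
              have hw2l : ¬ c.mem w2 l := by
                intro hcon
                have := hc.lin w w2 l (c.F v) hne2 hl5 hcon hwFv hw2.1.1
                exact hl6 w2 (this ▸ hw2)
              obtain ⟨l2, -, -, -, -, -, hm5, -, -, hm8⟩ := bt_last hc hs hx hy hw2
              have hlt := hc.below_late k1 k2 hl5 hw2l hm5
              have : c.y (c.F v) < c.y e :=
                lt_of_lt_of_le hm8 ((hs.K_mono (by omega)).trans hl7.le)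
              rw [heq] at this
              exact lt_irrefl _ this
            · have hBT2' : ∀ w, ¬ c.BT w (c.F v) := fun w hw => hBT2 ⟨w, hw⟩
              have hyF := hy.nb _ hBT2'
              rw [heq] at hyF
              rw [hyF] at hl7 hl8
              have q1 : c.T l < c.T (c.F v) + 1 := by
                by_contra hcon
                exact absurd hl7 (not_lt.2 (hs.K_mono (not_lt.1 hcon)))
              have q2 : c.T (c.F v) + 1 < c.T l + 1 := by
                by_contra hcon
                exact absurd hl8 (not_lt.2 (hs.K_mono (not_lt.1 hcon)))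
              omega
          refine ⟨fun a d ha hd h3 h4 => ?_, fun a ha h3 => ?_⟩
          · have e1 := hun a (hc.cor_mem ha)
            have e2 := hun d (hc.cor_mem hd)
            rw [e1] at h3
            rw [e2] at h4
            exact absurd (h3.trans h4) (lt_irrefl _)
          · rw [hun a (hc.cor_mem ha)] at h3
            exact absurd h3 key
    · have hBT' : ∀ w, ¬ c.BT w e := fun w hw => hBT ⟨w, hw⟩
      refine right_below fun a ha => ?_
      rw [hy.nb e hBT']
      have := hC a (hc.cor_mem ha)
      exact lt_of_le_of_lt (y_ub hc hs hx hy a) (hs.K_lt (by omega))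

/-- mirror image of `right_of_left` -/
theorem left_of_left (hc : c.Ok) (hs : c.Sq) (hx : c.XR) (hy : c.YR) {u v : V} {e : E}
    (h1 : c.a1 u < c.a1 v) (h2 : c.a2 v < c.a2 u) (hn : ∀ f, c.mem u f → ¬ c.mem v f)
    (he : c.cor v e) : c.LeftOf u e := by
  rw [← swap_RightOf]
  exact right_of_left (c := c.swap) (swap_ok hc) (swap_sq hs) (swap_xr hx) (swap_yr hy)
    (u := v) (v := u) h2 h1 (fun f hf hu => hn f hu hf) ((swap_cor v e).2 he)

end Cf
end Pool.Agent.Tri
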