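import Pool.Agent.Helper57.Tri.YC

/-! Triples, part 1. -/

set_option autoImplicit false

namespace Pool.Agent.Tri
namespace Cf

variable {V E : Type} {c : Cf V E}

private theorem hull_le {S : Set (ℝ × ℝ)} {r : ℝ × ℝ} (hr : r ∈ convexHull ℝ S) (a b k : ℝ)
    (h : ∀ p ∈ S, a * p.1 + b * p.2 ≤ k) : a * r.1 + b * r.2 ≤ k := by
  have hcx : Convex ℝ {p : ℝ × ℝ | a * p.1 + b * p.2 ≤ k} := by
    intro p hp q hq s t hs ht hst
    simp only [Set.mem_setOf_eq, Prod.fst_add, Prod.snd_add, Prod.smul_fst, Prod.smul_snd,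
      smul_eq_mul] at hp hq ⊢
    have e1 : a * (s * p.1 + t * q.1) + b * (s * p.2 + t * q.2)
        = s * (a * p.1 + b * p.2) + t * (a * q.1 + b * q.2) := by ring
    have e2 : k = s * k + t * k := by rw [← add_mul, hst, one_mul]
    rw [e1, e2]
    exact add_le_add (mul_le_mul_of_nonneg_left hp hs) (mul_le_mul_of_nonneg_left hq ht)
  exact convexHull_min (s := S) h hcx hr

private theorem no_alive_aux (hc : c.Ok) {u v w : V} {a b d : E}
    (hua : c.mem u a) (hva : c.mem v a) (hvb : c.mem v b) (hwb : c.mem w b)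
    (hud : c.mem u d) (hwd : c.mem w d) (h1 : c.T a < c.T b) (h2 : c.T b < c.T d)
    (hwa : ¬ c.mem w a) (hub : ¬ c.mem u b) (huv : u ≠ v) (hvw : v ≠ w) (huw : u ≠ w)
    (hs : c.b2 d < c.a2 v) : False := by
  have ud := (hc.mem_iff _ _).1 hud
  have wd := (hc.mem_iff _ _).1 hwd
  have vb := (hc.mem_iff _ _).1 hvb
  have wb := (hc.mem_iff _ _).1 hwb
  have ua := (hc.mem_iff _ _).1 hua
  have va := (hc.mem_iff _ _).1 hva
  have n1 : ¬ c.a1 u < c.a1 v := fun h => by
    have := hc.below_late h (by omega) hvb hub hud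
    omega
  have n2 : ¬ c.a1 w < c.a1 v := fun h => by
    have := hc.below_late h (by omega) hva hwa hwb
    omega
  have e1 : c.a1 u ≠ c.a1 w := fun h => huw (hc.va1 _ _ h)
  have e2 : c.a2 u ≠ c.a2 w := fun h => huw (hc.va2 _ _ h)
  rcases lt_or_gt_of_ne e1 with h3 | h3
  · have := hc.late (v := u) (e := d) (g := b) (by omega) (by omega) hub hud
    omega
  · have := hc.late (v := w) (e := b) (g := a) (by omega) (by omega) hwa hwb
    omega

/-- Proof. Suppose `g ∋ v`, `T d ≤ T g`. `v ∉ d`, `w ∉ a`, `u ∉ b` (lin; the edges are distinct as the times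
are). So `T d < T g` and `v` is alive at `d` (`T (F v) ≤ T a < T d`). By symmetry (swap) let `b2 d < a2 v`, so
`a2 u, a2 w < b2 d < a2 v`. If `a1 u < a1 v`: `b ∋ v`, `u ∉ b`: `below_late` (w := u, u := v, g := b, e := d):
`T d < T b`, no. So `a1 v < a1 u`. If `a1 w < a1 v`: `below_late` (w := w, u := v, g := a, e := b): `T b < T a`.
So `a1 v < a1 w`. `u, w`: if `a1 u < a1 w`, `a2 u < a2 w`: `below_late` (w := u, u := w, g := b, e := d): `T d < T b`.
If `a1 w < a1 u`, `a2 w < a2 u`: (w := w, u := u, g := a, e := b): `T b < T a`.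
If `a1 u < a1 w`, `a2 w < a2 u`: `a1 u < a1 w < b1 b`, `a2 u < a2 v < b2 b`, `u ∉ b`: `late`: `T d < T b`.
If `a1 w < a1 u`, `a2 u < a2 w`: `a1 w < a1 u < b1 a`, `a2 w < a2 v < b2 a`, `w ∉ a`: `late`: `T b < T a`. -/
theorem no_alive (hc : c.Ok) {u v w : V} {a b d : E} (huv : u ≠ v) (hvw : v ≠ w) (huw : u ≠ w)
    (hua : c.mem u a) (hva : c.mem v a) (hvb : c.mem v b) (hwb : c.mem w b)
    (hud : c.mem u d) (hwd : c.mem w d) (h1 : c.T a < c.T b) (h2 : c.T b < c.T d) :
    ∀ g, c.mem v g → c.T g < c.T d := by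
  intro g hg
  by_contra hn
  have hvd : ¬ c.mem v d := fun h => by
    have := hc.lin u v a d huv hua hva hud h
    subst this; omega
  have hwa : ¬ c.mem w a := fun h => by
    have := hc.lin v w a b hvw hva h hvb hwb
    subst this; omega
  have hub : ¬ c.mem u b := fun h => by
    have := hc.lin u v a b huv hua hva h hvb
    subst this; omega
  have hTg : c.T d < c.T g := by
    rcases Nat.lt_or_ge (c.T d) (c.T g) with h | h
    · exact h
    · exfalso
      have : d = g := hc.T_inj _ _ (by omega)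
      subst this; exact hvd hg
  have hal : c.alive v d := ⟨hvd, by have := hc.F_first hva; omega, g, hg, hTg⟩
  rcases hc.alive_side hal with h | h
  · exact no_alive_aux (c := c.swap) (swap_ok hc) (u := u) (v := v) (w := w) (a := a) (b := b)
      (d := d) hua hva hvb hwb hud hwd h1 h2 hwa hub huv hvw huw h
  · exact no_alive_aux hc hua hva hvb hwb hud hwd h1 h2 hwa hub huv hvw huw h

/-- Before they meet in `d`, `T_u` and `T_w` are disjoint above the depth `K (T d)`.
Assumptions: `u` left of `w`; `u` and `w` have edges before `d`.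
Proof. Corners `g` of `u` with `T d ≤ T g` are not `F u`, so `y g = K (T g + 1) ≥ K (T d + 1)`; `x g ≤ 1`.
For corners `g` of `u`, `g'` of `w` before `d`: `pair` with `t = T d` (`u ∉ g'`, `w ∉ g` by lin), `ncm`: gap
`x g + D (T d) ≤ x g'`. Let `Y = K (T d + 1)`, `t = D (T d)`. The functional `φ (p) = p.1 - 2 p.2 / Y` is `≤ x g' - t` at
all corners of `u`: before `d` clear (y > 0), at or after `d`: `≤ 1 - 2 = -1 ≤ x g' - t` (since
`x (F u) ≥ -1` and `x (F u) + t ≤ x g'`). So `r.1 ≤ x g' - t + 2 r.2 / Y ≤ x g' - t + 2 t / M`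
(`K (T d) / K (T d + 1) = D (T d) / M`) for each corner `g'` of `w` before `d`. So these have
`x g' ≥ r.1 + t - 2 t / M`; the functional `p.1 + 2 p.2 / Y` is `≥ r.1 + t - 2 t / M` at all corners of `w` (at
or after `d`: `≥ -1 + 2 = 1 ≥ x (F w) ≥ ...`), so `r.1 + 2 t / M ≥ r.1 + t - 2 t / M`, contradiction as `M > 4`. -/
theorem meet_depth (hc : c.Ok) (hs : c.Sq) (hx : c.XR) (hy : c.YR) {u w : V} {d : E}
    (h1 : c.a1 u < c.a1 w) (h2 : c.a2 w < c.a2 u) (hud : c.mem u d) (hwd : c.mem w d)
    (hu : c.T (c.F u) < c.T d) (hw : c.T (c.F w) < c.T d) {r : ℝ × ℝ}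
    (hru : r ∈ c.tri u) (hrw : r ∈ c.tri w) : c.K (c.T d) < r.2 := by
  by_contra hn
  push Not at hn
  have huw : u ≠ w := fun h => by subst h; omega
  have hY := hs.K_pos (c.T d + 1)
  have ht := hs.D_pos (c.T d)
  have hM := hs.M_ge
  set Y := c.K (c.T d + 1) with hYdef
  set t := c.D (c.T d) with htdef
  have hKD : Y * t = c.M * c.K (c.T d) := hs.KD (c.T d)
  -- corners at or after `d`
  have late : ∀ z, c.T (c.F z) < c.T d → ∀ g, c.cor z g → c.T d ≤ c.T g → Y ≤ c.y g := by
    intro z hz g hg hT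
    have hne : g ≠ c.F z := fun h => by subst h; omega
    rw [hy.nb g (hc.cor_nb hg hne)]
    exact hs.K_mono (by omega)
  -- the gap
  have gap : ∀ g g', c.cor u g → c.cor w g' → c.T g < c.T d → c.T g' < c.T d →
      c.x g + t ≤ c.x g' := by
    intro g g' hg hg' t1 t2
    have mg := hc.cor_mem hg
    have mg' := hc.cor_mem hg'
    have n1 : ¬ c.mem u g' := fun h => by
      have := hc.lin u w g' d huw h mg' hud hwd
      subst this; omega
    have n2 : ¬ c.mem w g := fun h => by
      have := hc.lin u w g d huw mg h hud hwd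
      subst this; omega
    have hp := pair hc (t := c.T d) (fun e _ => inv_all hc hs hx e) h1 h2 hg hg' n1 n2 t1 t2
      hud hwd le_rfl le_rfl
    exact hp.gap t1 t2 (hc.ncm huw hud hwd mg mg' t1 t2)
  have cF : ∀ z, c.cor z (c.F z) := fun z => Or.inl rfl
  have key : ∀ g', c.cor w g' → c.T g' < c.T d → Y * (r.1 + t - c.x g') ≤ 2 * r.2 := by
    intro g' hg' t2
    have := hull_le hru Y (-2) (Y * (c.x g' - t)) (by
      rintro p ⟨g, hg, rfl⟩
      simp only [pt]
      have hyp := y_pos hc hs hx hy g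
      rcases Nat.lt_or_ge (c.T g) (c.T d) with h | h
      · have h5 := gap g g' hg hg' h t2
        have h6 : Y * c.x g ≤ Y * (c.x g' - t) :=
          mul_le_mul_of_nonneg_left (by linarith) hY.le
        linarith
      · have h5 := gap (c.F u) g' (cF u) hg' hu t2
        have h6 := late u hu g hg h
        have h7 := (x_abs hc hs hx g).2
        have h8 := (x_abs hc hs hx (c.F u)).1
        have h9 : Y * c.x g ≤ Y * 1 := mul_le_mul_of_nonneg_left h7 hY.le
        have h10 : Y * (-1) ≤ Y * (c.x g' - t) :=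
          mul_le_mul_of_nonneg_left (by linarith) hY.le
        linarith)
    linarith
  -- the second functional
  have key2 := hull_le hrw (-Y) (-2) (-(Y * (r.1 + t) - 2 * r.2)) (by
    rintro p ⟨g, hg, rfl⟩
    simp only [pt]
    have hyp := y_pos hc hs hx hy g
    rcases Nat.lt_or_ge (c.T g) (c.T d) with h | h
    · have h5 := key g hg h
      linarith
    · have h5 := key (c.F w) (cF w) hw
      have h6 := late w hw g hg h
      have h7 := (x_abs hc hs hx g).1
      have h8 := (x_abs hc hs hx (c.F w)).2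
      have h9 : Y * (-1) ≤ Y * c.x g := mul_le_mul_of_nonneg_left h7 hY.le
      have h10 : Y * c.x (c.F w) ≤ Y * 1 := mul_le_mul_of_nonneg_left h8 hY.le
      linarith)
  have hK := hs.K_pos (c.T d)
  nlinarith

end Cf
end Pool.Agent.Tri
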