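import Pool.Agent.Helper57.Tri.CD
import Pool.Agent.Helper57.Tri.SQ

/-! The pair lemma. -/

set_option autoImplicit false

namespace Pool.Agent.Tri
namespace Cf

variable {V E : Type} {c : Cf V E}

/-- Proof. `T g ≠ T g'` (else `g = g'` contains both). If `T g < T g'`: `u` is alive at `g'`
(`T (F u) ≤ T g < T g'`, `F_first`, `cor_mem`; `eu` is later), `alive_side`: `b1 g' < a1 u` is
impossible as `a1 u < a1 v < b1 g'`, so `b2 g' < a2 u` and `(ih g' _).ERl` gives the claim.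
If `T g' < T g`: `v` is alive at `g`, `a2 v < a2 u < b2 g`, so `b1 g < a1 v`, `(ih g _).ERr`. -/
theorem pair (hc : c.Ok) {t : ℕ} (ih : ∀ e, c.T e < t → c.InvE e) {u v : V} {g g' eu ev : E}
    (h1 : c.a1 u < c.a1 v) (h2 : c.a2 v < c.a2 u) (hg : c.cor u g) (hg' : c.cor v g')
    (n1 : ¬ c.mem u g') (n2 : ¬ c.mem v g) (t1 : c.T g < t) (t2 : c.T g' < t)
    (hue : c.mem u eu) (hve : c.mem v ev) (tu : t ≤ c.T eu) (tv : t ≤ c.T ev) :
    c.Prec g g' := by
  have mg : c.mem u g := hc.cor_mem hg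
  have mg' : c.mem v g' := hc.cor_mem hg'
  rcases lt_trichotomy (c.T g) (c.T g') with hlt | heq | hgt
  · have hal : c.alive u g' :=
      ⟨n1, lt_of_le_of_lt (hc.F_first mg) hlt, eu, hue, lt_of_lt_of_le t2 tu⟩
    rcases hc.alive_side hal with hb | hb
    · have := ((hc.mem_iff v g').1 mg').1
      exact absurd hb (by omega)
    · exact (ih g' t2).ERl u g hal hb hg hlt
  · have h : g = g' := hc.T_inj g g' heq
    exact absurd (h ▸ mg) n1
  · have hal : c.alive v g :=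
      ⟨n2, lt_of_le_of_lt (hc.F_first mg') hgt, ev, hve, lt_of_lt_of_le t1 tv⟩
    rcases hc.alive_side hal with hb | hb
    · exact (ih g t1).ERr v g' hal hb hg' hgt
    · have := ((hc.mem_iff u g).1 mg).2.1
      exact absurd hb (by omega)

/-- trivial consequences of `Prec` -/
theorem Prec.le {g e : E} (h : c.Prec g e) : c.x g ≤ c.x e := h.1

theorem Prec.gap {g e : E} (h : c.Prec g e) {s : ℕ} (h1 : c.T g < s) (h2 : c.T e < s)
    (h3 : ¬ c.Clu s g e) : c.x g + c.D s ≤ c.x e := h.2.2 s h1 h2 h3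

/-- Proof: `h.2.1` with `max = T e`, and `D (T e) ≥ D s` for `T e ≤ s`. -/
theorem Prec.half (hs : c.Sq) {g e : E} (h : c.Prec g e) (h1 : c.T g < c.T e)
    (h3 : ¬ c.Clu (c.T e) g e) : c.x g + c.D (c.T e) / 2 ≤ c.x e := by
  have hm : max (c.T g) (c.T e) = c.T e := max_eq_right h1.le
  have h4 := h.2.1
  rw [hm] at h4
  exact h4 h3

theorem Prec.half' (hs : c.Sq) {g e : E} (h : c.Prec g e) (h1 : c.T e < c.T g)
    (h3 : ¬ c.Clu (c.T g) g e) : c.x g + c.D (c.T g) / 2 ≤ c.x e := by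
  have hm : max (c.T g) (c.T e) = c.T g := max_eq_left h1.le
  have h4 := h.2.1
  rw [hm] at h4
  exact h4 h3

/-- the gaps after the time `t` -/
theorem Sq.D_half (hs : c.Sq) {s t : ℕ} (h : t < s) : c.D s ≤ c.D t / 2 := by
  have h1 : c.D s ≤ c.D (t + 1) := hs.D_anti h
  have h2 := hs.D_M t
  have h3 := hs.M_ge
  have h4 := hs.D_pos (t + 1)
  have h5 : 2 * c.D (t + 1) ≤ c.M * c.D (t + 1) :=
    mul_le_mul_of_nonneg_right (by linarith) h4.le
  linarith

/-- A sufficient condition for `Prec`. (`D s ≤ D (T e + 1) ≤ D (T e) / 2` for `s > T e`.) -/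
theorem prec_of_half (hs : c.Sq) {g e : E} (hT : c.T g < c.T e)
    (h : c.x g + c.D (c.T e) / 2 ≤ c.x e) : c.Prec g e := by
  have h1 := hs.D_pos (c.T e)
  refine ⟨by linarith, fun _ => ?_, fun s _ h3 _ => ?_⟩
  · rw [max_eq_right hT.le]
    exact h
  · have := hs.D_half h3
    linarith

theorem prec_of_half' (hs : c.Sq) {g e : E} (hT : c.T g < c.T e)
    (h : c.x e + c.D (c.T e) / 2 ≤ c.x g) : c.Prec e g := by
  have h1 := hs.D_pos (c.T e)
  refine ⟨by linarith, fun _ => ?_, fun s h3 _ _ => ?_⟩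
  · rw [max_eq_left hT.le]
    exact h
  · have := hs.D_half h3
    linarith

end Cf
end Pool.Agent.Tri
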