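import Pool.Agent.Helper57.Tri.MA

/-! Free events: the generic pair (left witness, right witness). -/

set_option autoImplicit false

namespace Pool.Agent.Tri
namespace Cf

variable {V E : Type} {c : Cf V E}

/-- Proof. `u` is left of `v` (`lw_rw`); `u ∉ g'` and `v ∉ g` by `meet` (with `f = g'` resp. `g`;
`cor_mem`); `LW_facts`, `RW_facts` give the later edges; so `pair` (t := T e) gives `Prec g g'`.
It remains to show `¬ Clu (T e) g g'` (then `Prec.gap`). Let `z` with `InC z (T e) g`,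
`InC z (T e) g'`, `g ≠ g'`. `z ∈ g, g'` (InC_mem). `z ≠ u` (`u ∉ g'`), `z ≠ v`.
`CL_nb` for `u` (with the edge of `u` at or after `e`): there is `q ∋ z` with `T e ≤ T q`.
`T (F z) ≤ T g < T e`.
If `z ∉ e`: `alive z e` (`T q ≠ T e` as `z ∈ q`, T_inj). `alive_side`: if `b2 e < a2 z` then `LW z e`
and `meet` (z, v, f = g') gives False. If `b1 e < a1 z` then `RW z e` and `meet` (u, z, f = g).
If `z ∈ e`: `edge_class` for `z, e`. `e = F z`: no, `T (F z) < T e`. If `e = P z` and `e ≠ Q z`: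
`LW z e`, `meet` (z, v, g'). If `e = Q z` and `e ≠ P z`: `RW z e`, `meet` (u, z, g). If
`e = P z = Q z`: `pq z`, `pq_dead` (z, u, g; `T g < T e = T (P z)`): all edges of `u` are before
`T (P z) = T e`, contradiction. `LR z e`: not `Ho z e` (hfree), so `freed z e`; `sd e`: `RW z e`, else
`LW z e`; `meet` again. `BT z e`: `CP_q` gives `q' = P z` or `Q z` with (`pq z` or `T e ≤ T q'`), but
`bt_TP, bt_TQ, pq_nobt`. -/
theorem gap1 (hc : c.Ok) {e : E} (ih : ∀ f, c.T f < c.T e → c.InvE f)
    (hfree : ∀ w, ¬ c.Ho w e) {u v : V} {g g' : E} (hu : c.LW u e) (hv : c.RW v e)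
    (hg : c.cor u g) (hg' : c.cor v g') (t1 : c.T g < c.T e) (t2 : c.T g' < c.T e) :
    c.x g + c.D (c.T e) ≤ c.x g' := by
  obtain ⟨k1, k2⟩ := hc.lw_rw hu hv
  have n1 : ¬ c.mem u g' := fun h => hc.meet hu hv h (hc.cor_mem hg') t2
  have n2 : ¬ c.mem v g := fun h => hc.meet hu hv (hc.cor_mem hg) h t1
  obtain ⟨fu, eu, hue, tu⟩ := hc.LW_facts hu
  obtain ⟨fv, ev, hve, tv⟩ := hc.RW_facts hv
  have hp := pair hc ih k1 k2 hg hg' n1 n2 t1 t2 hue hve tu tv
  refine hp.gap t1 t2 ?_
  rintro ⟨hne, z, hzg, hzg'⟩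
  have mzg := hc.InC_mem hzg
  have mzg' := hc.InC_mem hzg'
  have hug := hc.cor_mem hg
  have hvg := hc.cor_mem hg'
  have hzu : u ≠ z := fun h => n1 (by rw [h]; exact mzg')
  have hzv : v ≠ z := fun h => n2 (by rw [h]; exact mzg)
  obtain ⟨⟨q, hq1, hq2⟩, _⟩ := hc.CL_nb hzg hzg' hne t1 t2 hzu hug hue tu
  have hFz : c.T (c.F z) < c.T e := lt_of_le_of_lt (hc.F_first mzg) t1
  have caseL : c.LW z e → False := fun h => hc.meet h hv mzg' hvg t2
  have caseR : c.RW z e → False := fun h => hc.meet hu h hug mzg t1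
  by_cases hze : c.mem z e
  · rcases hc.edge_class hze with h | h | h | h | h
    · rw [← h] at hFz; omega
    · by_cases hQ : e = c.Q z
      · have hpq : c.pq z := by unfold pq; rw [← h, ← hQ]
        have h5 := hc.pq_dead hpq hzu hug mzg (by rw [← h]; exact t1) hue
        rw [← h] at h5
        omega
      · exact caseL (Or.inr (Or.inl ⟨hze, h, hQ, hFz⟩))
    · by_cases hP : e = c.P z
      · have hpq : c.pq z := by unfold pq; rw [← h, ← hP]
        have h5 := hc.pq_dead hpq hzu hug mzg (by rw [← hP]; exact t1) hue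
        rw [← hP] at h5
        omega
      · exact caseR (Or.inr (Or.inl ⟨hze, h, hP, hFz⟩))
    · have hfr : c.freed z e := by
        have h6 := hfree z
        by_contra hn
        apply h6
        exact ⟨h, fun h7 => hn ⟨h, h7.1, h7.2⟩⟩
      by_cases hs : c.sd e
      · exact caseR (Or.inr (Or.inr ⟨hfr, hs⟩))
      · exact caseL (Or.inr (Or.inr ⟨hfr, hs⟩))
    · obtain ⟨q', hq'1, hq'2, _, _⟩ := hc.CP_q hzg hzg' hne t1 t2
      have hnp : ¬ c.pq z := fun hp => hc.pq_nobt hp h
      rcases hq'2 with h7 | h7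
      · exact hnp h7
      · have h8 := hc.bt_TP h
        have h9 := hc.bt_TQ h
        rcases hq'1 with h10 | h10
        · rw [h10] at h7; omega
        · rw [h10] at h7; omega
  · have hqT : c.T e < c.T q := by
      rcases Nat.lt_or_ge (c.T e) (c.T q) with h | h
      · exact h
      · have : e = q := hc.T_inj _ _ (by omega)
        rw [this] at hze; exact absurd hq1 hze
    have hal : c.alive z e := ⟨hze, hFz, q, hq1, hqT⟩
    rcases hc.alive_side hal with h | h
    · exact caseR (Or.inl ⟨hal, h⟩)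
    · exact caseL (Or.inl ⟨hal, h⟩)

end Cf
end Pool.Agent.Tri
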