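import Pool.Agent.Helper57.Tri.MA

/-! Free events: bottom edge `e` of `w`, right witness `v`. -/

set_option autoImplicit false

namespace Pool.Agent.Tri
namespace Cf

variable {V E : Type} {c : Cf V E}

/-- Bottom edge `e` of `w`, right witness `v` and its corner `g'`: `Prec (Q w) g'`.
Proof. `bt_rw`: `alive v e`, `b1 e < a1 v`. `v ∉ Q w`: `b1 (Q w) < b1 e < a1 v` (bt_b1).
`T (Q w) < T e` (bt_TQ). `a1 w < b1 e < a1 v`.
Case `T g' < T (Q w)`: `v` is alive at `Q w` (`T (F v) ≤ T g'`; `v` has an edge after `e`), and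
`b1 (Q w) < a1 v`: `(ih (Q w) _).ERr`.
`T g' = T (Q w)`: `g' = Q w ∋ v` impossible.
Case `T (Q w) < T g'`, `w ∈ g'`: `edge_class`: `g' = F w`: no (F_first). `g' = P w`: `ORp` at `P w`
(`P w ≠ Q w` as `T` differ) with the corner `Q w`. `g' = Q w` no. `LR w g'`: if `sd g'` then
`T g' < T (Q w)` (LR_Q), no; so `ORr`. `BT w g'`: `OBq`.
Case `T (Q w) < T g'`, `w ∉ g'`: `w` left of `v` (if `a2 w < a2 v` then `w` ... `v` is below `w` and
`below_late` (w := w, u := v, g := g', e) gives `T e < T g'`). `w` is alive at `g'` (`F w` before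
`Q w`; `e` later), `a1 w < a1 v < b1 g'`, so `alive_side` gives `b2 g' < a2 w`, `ERl` at `g'`
with the corner `Q w`. -/
theorem bt_precQ (hc : c.Ok) {e : E} (ih : ∀ f, c.T f < c.T e → c.InvE f) {w v : V} {g' : E}
    (hw : c.BT w e) (hv : c.RW v e) (hg' : c.cor v g') (t2 : c.T g' < c.T e) :
    c.Prec (c.Q w) g' := by
  obtain ⟨⟨nve, hFe, k, hvk, hTk⟩, hb1⟩ := hc.bt_rw hw hv
  have hQe := hc.bt_TQ hw
  have hQb := hc.bt_b1 hw
  have hwe := (hc.mem_iff w e).1 hw.1.1
  have hvg := hc.cor_mem hg'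
  have nvQ : ¬ c.mem v (c.Q w) := by
    intro h
    have := (hc.mem_iff _ _).1 h
    omega
  rcases lt_trichotomy (c.T g') (c.T (c.Q w)) with h | h | h
  · exact (ih (c.Q w) hQe).ERr v g' ⟨nvQ, (hc.F_first hvg).trans_lt h, k, hvk, by omega⟩
      (by omega) hg' h
  · exact absurd (hc.T_inj _ _ h ▸ hvg) nvQ
  · by_cases hwg : c.mem w g'
    · rcases hc.edge_class hwg with h1 | h1 | h1 | h1 | h1
      · have := hc.F_first (hc.memQ w)
        rw [h1] at h
        omega
      · exact (ih g' t2).ORp w (c.Q w) hwg h1 (fun h2 => by rw [h2] at h; omega)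
          (Or.inr (Or.inr (Or.inl rfl))) h
      · rw [h1] at h
        omega
      · by_cases hsd : c.sd g'
        · have := hc.LR_Q h1 hsd
          omega
        · exact (ih g' t2).ORr w (c.Q w) h1 hsd (Or.inr (Or.inr (Or.inl rfl))) h
      · exact (ih g' t2).OBq w h1
    · have h1 : c.a1 w < c.a1 v := by omega
      have hwv : w ≠ v := fun h2 => nve (h2 ▸ hw.1.1)
      have h2 : c.a2 v < c.a2 w := by
        rcases lt_trichotomy (c.a2 v) (c.a2 w) with h3 | h3 | h3
        · exact h3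
        · exact absurd (hc.va2 _ _ h3) (Ne.symm hwv)
        · have := hc.below_late h1 h3 hvg hwg hw.1.1
          omega
      have hal : c.alive w g' :=
        ⟨hwg, (hc.F_first (hc.memQ w)).trans_lt h, e, hw.1.1, t2⟩
      have hvgm := (hc.mem_iff _ _).1 hvg
      have h3 : c.b2 g' < c.a2 w := by
        rcases hc.alive_side hal with h4 | h4
        · omega
        · exact h4
      exact (ih g' t2).ERl w (c.Q w) hal h3 (Or.inr (Or.inr (Or.inl rfl))) h

/-- Proof. `Prec (Q w) g'` by `bt_precQ`; need `¬ Clu (T e) (Q w) g'`, then `Prec.gap`. Let `z` with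
`InC z (T e) (Q w)`, `InC z (T e) g'`, `Q w ≠ g'`. `z ≠ w` by `CP_ne`. `z ≠ v`: `v ∉ Q w` as
`b1 (Q w) < b1 e < a1 v`. `CL_nb` with `u := w`, `g := Q w`, edge `e`: `q ∋ z`, `T e ≤ T q`. `z ∉ e`:
otherwise `z, w ∈ Q w, e` gives `e = Q w`, not hosted. So `alive z e` (`T (F z) ≤ T (Q w) < T e`).
`b2 e < a2 z`: `LW z e`, `meet` (z, v, g'). `b1 e < a1 z`: but `z ∈ Q w`: `a1 z < b1 (Q w) < b1 e`. -/
theorem gap2 (hc : c.Ok) {e : E} (ih : ∀ f, c.T f < c.T e → c.InvE f) {w v : V} {g' : E}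
    (hw : c.BT w e) (hv : c.RW v e) (hg' : c.cor v g') (t2 : c.T g' < c.T e) :
    c.x (c.Q w) + c.D (c.T e) ≤ c.x g' := by
  have hP := bt_precQ hc ih hw hv hg' t2
  have hQe := hc.bt_TQ hw
  refine hP.gap hQe t2 ?_
  rintro ⟨hne, z, hz1, hz2⟩
  have hQb := hc.bt_b1 hw
  have hvg := hc.cor_mem hg'
  have hzw : z ≠ w := by
    rintro rfl
    exact (hc.CP_ne hz1 hz2 hne).2 rfl
  have hzQ := hc.InC_mem hz1
  have hzg := hc.InC_mem hz2
  obtain ⟨⟨q, hzq, hTq⟩, -⟩ := hc.CL_nb hz1 hz2 hne hQe t2 (Ne.symm hzw) (hc.memQ w) hw.1.1 le_rfl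
  have hze : ¬ c.mem z e := fun h =>
    hw.1.2.2.2 (hc.lin z w (c.Q w) e hzw hzQ (hc.memQ w) h hw.1.1).symm
  have hTq' : c.T e < c.T q := by
    rcases hTq.lt_or_eq with h | h
    · exact h
    · exact absurd ((hc.T_inj _ _ h) ▸ hzq) hze
  have hal : c.alive z e := ⟨hze, (hc.F_first hzQ).trans_lt hQe, q, hzq, hTq'⟩
  rcases hc.alive_side hal with h | h
  · have := (hc.mem_iff _ _).1 hzQ
    omega
  · exact hc.meet (Or.inl ⟨hal, h⟩) hv hzg hvg t2

/-- a bottom edge of `w` is not in a common cluster with `P w` or with another bottom edge of `w`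
(both contain `w`, `clu_same`, then `CP_ne` resp. `Ho` and `BT` exclude each other, and `A w` is
not a bottom edge of `w`) -/
theorem nclu_bt (hc : c.Ok) {w : V} {g g' : E} {s : ℕ} (hg : c.BT w g) (hg' : c.mem w g') :
    ¬ c.Clu s g g' := by
  intro h
  obtain ⟨h1, -⟩ := hc.clu_same hg.1.1 hg' h
  rcases h1 with h1 | h1
  · have h2 : c.cor w g := h1 ▸ hc.A_cor w
    exact (hc.cor_bt h2 hg).2 rfl
  · exact hc.LR_nb h1.1.1 w hg

/-- Bottom edges `g` (earlier, left) and `e` of `w`, right witness `v` with corner `g'`.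
Proof. As above `alive v e`, `b1 e < a1 v`, so `b1 g < a1 v` and `v ∉ g`.
Case `T g' < T g`: `v` is alive at `g`, `ERr` at `g`: `Prec g g'`. `¬ Clu (T e) g g'`: let `z` be the
host of the cluster; `g` is not hosted on a side by `z` (LR_nb), so `g = A z`, then `Ho z g'`, and
`T (A z) < T g'` (Ho_A), contradiction to `T g' < T g`. `Prec.gap`.
Case `T g < T g'`, `w ∈ g'`: `edge_class`: `F, P, Q` of `w` are before `g` (bt_TP, bt_TQ, F_first),
`LR w g'` is before `P w` or `Q w`; so `BT w g'`. `v ∈ g'`, `b1 g' > a1 v > b1 e > b1 g`, so `SBr` at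
`g'` (`sib` gives `b2 g' < b2 g`... use `SBl` at `g'`: `b1 g < b1 g'`): `Prec g g'`, `nclu_bt`, gap.
Case `T g < T g'`, `w ∉ g'`: `w` left of `v` (else `below_late`: `T e < T g'`), `w` is alive at `g'`,
left (`a1 w < a1 v < b1 g'`), `ERl` at `g'` with corner `P w` (`T (P w) < T g`): `x (P w) ≤ x g'`.
`OBp` at `g`: `Prec g (P w)`, `nclu_P`, gap: `x g + D (T e) ≤ x (P w)`. -/
theorem gap3 (hc : c.Ok) {e : E} (ih : ∀ f, c.T f < c.T e → c.InvE f) {w v : V} {g g' : E}
    (hw : c.BT w e) (hwg : c.BT w g) (t1 : c.T g < c.T e) (hb : c.b1 g < c.b1 e)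
    (hv : c.RW v e) (hg' : c.cor v g') (t2 : c.T g' < c.T e) :
    c.x g + c.D (c.T e) ≤ c.x g' := by
  obtain ⟨⟨nve, hFe, k, hvk, hTk⟩, hb1⟩ := hc.bt_rw hw hv
  have hwe := (hc.mem_iff w e).1 hw.1.1
  have hvg := hc.cor_mem hg'
  have hvgm := (hc.mem_iff _ _).1 hvg
  have nvg : ¬ c.mem v g := by
    intro h
    have := (hc.mem_iff _ _).1 h
    omega
  have hwgm := hwg.1.1
  rcases lt_trichotomy (c.T g') (c.T g) with h | h | h
  · have hP := (ih g t1).ERr v g' ⟨nvg, (hc.F_first hvg).trans_lt h, k, hvk, by omega⟩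
      (by omega) hg' h
    refine hP.gap t1 t2 ?_
    rintro ⟨hne, z, h1, h2⟩
    rcases h1 with h1 | h1
    · rcases h2 with h2 | h2
      · exact hne (h1.trans h2.symm)
      · have := hc.Ho_A h2.1
        rw [← h1] at this
        omega
    · exact hc.LR_nb h1.1.1 w hwg
  · exact absurd (hc.T_inj _ _ h ▸ hvg) nvg
  · by_cases hwg' : c.mem w g'
    · rcases hc.edge_class hwg' with h1 | h1 | h1 | h1 | h1
      · have := hc.F_first hwgm
        rw [h1] at h
        omega
      · have := hc.bt_TP hwg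
        rw [h1] at h
        omega
      · have := hc.bt_TQ hwg
        rw [h1] at h
        omega
      · have := hc.bt_TP hwg
        have := hc.bt_TQ hwg
        by_cases hsd : c.sd g'
        · have := hc.LR_Q h1 hsd
          omega
        · have := hc.LR_P h1 hsd
          omega
      · exact ((ih g' t2).SBl w g h1 hwg h (by omega)).gap t1 t2 (nclu_bt hc hwg hwg')
    · have h1 : c.a1 w < c.a1 v := by omega
      have hwv : w ≠ v := fun h2 => nve (h2 ▸ hw.1.1)
      have h2 : c.a2 v < c.a2 w := by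
        rcases lt_trichotomy (c.a2 v) (c.a2 w) with h3 | h3 | h3
        · exact h3
        · exact absurd (hc.va2 _ _ h3) (Ne.symm hwv)
        · have := hc.below_late h1 h3 hvg hwg' hw.1.1
          omega
      have hal : c.alive w g' :=
        ⟨hwg', (hc.F_first hwgm).trans_lt h, e, hw.1.1, t2⟩
      have h3 : c.b2 g' < c.a2 w := by
        rcases hc.alive_side hal with h4 | h4
        · omega
        · exact h4
      have hTP := hc.bt_TP hwg
      have hP1 := (ih g' t2).ERl w (c.P w) hal h3 (Or.inr (Or.inl rfl)) (hTP.trans h)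
      have hP2 := ((ih g t1).OBp w hwg).gap t1 (hTP.trans t1) (hc.nclu_P hwgm)
      have := hP1.le
      linarith

end Cf
end Pool.Agent.Tri
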