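import Pool.Agent.Helper57.Tri.MB
import Pool.Agent.Helper57.Tri.MC

/-! Free events. -/

set_option autoImplicit false

namespace Pool.Agent.Tri
namespace Cf

variable {V E : Type} {c : Cf V E}

/-- Proof. `P w ≠ Q w` (pq_nobt). The later one of `P w`, `Q w` has `ORp` resp. `ORq` with the other
one as corner; `nclu_P`, gap with `s = T e` (bt_TP, bt_TQ). -/
theorem gap5 (hc : c.Ok) {e : E} (ih : ∀ f, c.T f < c.T e → c.InvE f) {w : V}
    (hw : c.BT w e) : c.x (c.Q w) + c.D (c.T e) ≤ c.x (c.P w) := by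
  have hne : c.P w ≠ c.Q w := fun h => hc.pq_nobt h hw
  have tP := hc.bt_TP hw
  have tQ := hc.bt_TQ hw
  have hpr : c.Prec (c.Q w) (c.P w) := by
    rcases Nat.lt_trichotomy (c.T (c.Q w)) (c.T (c.P w)) with h | h | h
    · exact (ih _ tP).ORp w (c.Q w) (hc.memP w) rfl hne (Or.inr (Or.inr (Or.inl rfl))) h
    · exact absurd (hc.T_inj _ _ h).symm hne
    · exact (ih _ tQ).ORq w (c.P w) (hc.memQ w) rfl (Ne.symm hne) (Or.inr (Or.inl rfl)) h
  exact hpr.gap tQ tP (hc.nclu_P (hc.memQ w))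

/-- All pairs of a lower and an upper bound have distance at least `D (T e)`.
Proof: cases of `LowC`, `UpC`: (LW, RW): `gap1`. (Q w, RW): `gap2`; (sibling, RW): `gap3`.
(LW, P w), (LW, sibling): mirror images of `gap2`, `gap3` (via `swap`: `swap_ok`, `swap_inv`).
(Q w, P w): `gap5`. (Q w, sibling g'): `OBq` at `g'`, `nclu_bt` (with Clu_comm), gap.
(sibling g, P w): `OBp` at `g`, `nclu_bt`. (sibling g, sibling g'): `b1 g < b1 e`, `b2 g' < b2 e`, so
`b1 e < b1 g'` (sib'), so `b1 g < b1 g'`, `b2 g' < b2 g` (sib); `SBl` at `g'` or `SBr` at `g`. `nclu_bt`.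
(The host `w` of the two bottom conditions is the same by `host_unique`.) -/
theorem gap_free (hc : c.Ok) {e : E} (ih : ∀ f, c.T f < c.T e → c.InvE f)
    (hfree : ∀ w, ¬ c.Ho w e) {g g' : E} (hg : c.LowC e g) (hg' : c.UpC e g') :
    c.x g + c.D (c.T e) ≤ c.x g' := by
  obtain ⟨t1, hg⟩ := hg
  obtain ⟨t2, hg'⟩ := hg'
  have hc' := swap_ok hc
  have ih' : ∀ f, c.swap.T f < c.swap.T e → c.swap.InvE f := fun f hf => swap_inv (ih f hf)
  rcases hg with ⟨u, hu, hcu⟩ | ⟨w, hw, hgw⟩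
  · rcases hg' with ⟨v, hv, hcv⟩ | ⟨w, hw, hgw⟩
    · exact gap1 hc ih hfree hu hv hcu hcv t1 t2
    · rcases hgw with h | ⟨h, hb⟩
      · subst h
        have h3 := gap2 hc' ih' ((swap_BT w e).2 hw) ((swap_RW u e).2 hu)
          ((swap_cor u g).2 hcu) t1
        simp only [swap_x, swap_Q, swap_D, swap_T] at h3
        linarith
      · have h3 := gap3 hc' ih' ((swap_BT w e).2 hw) ((swap_BT w g').2 h) t2 hb
          ((swap_RW u e).2 hu) ((swap_cor u g).2 hcu) t1
        simp only [swap_x, swap_D, swap_T] at h3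
        linarith
  · rcases hg' with ⟨v, hv, hcv⟩ | ⟨w', hw', hgw'⟩
    · rcases hgw with h | ⟨h, hb⟩
      · subst h
        exact gap2 hc ih hw hv hcv t2
      · exact gap3 hc ih hw h t1 hb hv hcv t2
    · have hww : w' = w := hc.host_unique hw'.1 hw.1
      subst hww
      rcases hgw with h | ⟨h, hb⟩
      · subst h
        rcases hgw' with h' | ⟨h', hb'⟩
        · subst h'
          exact gap5 hc ih hw
        · refine ((ih g' t2).OBq w' h').gap t1 t2 ?_
          rw [Clu_comm]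
          exact nclu_bt hc h' (hc.memQ w')
      · rcases hgw' with h' | ⟨h', hb'⟩
        · subst h'
          exact ((ih g t1).OBp w' h).gap t1 t2 (nclu_bt hc h (hc.memP w'))
        · have hb2 := hc.sib' hw h' hb'
          have hb3 : c.b1 g < c.b1 g' := by omega
          have hb4 := hc.sib h' h hb3
          have hpr : c.Prec g g' := by
            rcases Nat.lt_trichotomy (c.T g) (c.T g') with h5 | h5 | h5
            · exact (ih g' t2).SBl w' g h' h h5 hb3
            · have := hc.T_inj _ _ h5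
              subst this
              omega
            · exact (ih g t1).SBr w' g' h h' h5 hb4
          exact hpr.gap t1 t2 (nclu_bt hc h h'.1.1)

/-- Proof. Take `L, U` from `hx.free`. `L + D (T e) ≤ U`: if `L = -1` and `U = 1`: `D ≤ 1`. If `L = x g`,
`U = 1`: `(ih g).bdr`: `x g ≤ 1 - D (T g + 1) ≤ 1 - D (T e)`. If `L = -1`: symmetric. If both are
attained: `gap_free`. So `x e - L = U - x e ≥ D (T e) / 2 ≥ D (T e + 1)`. So for all `g` in `LowC e`
`x g + D (T e) / 2 ≤ x e`, and `prec_of_half` gives `Prec g e`; likewise for `UpC`. Each field of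
`InvE` with `T g < T e` is of this kind: `ERl`: `LW z e` first alternative. `ORp`: second one
(`T (F z) ≤ T g < T e`). `ORl`: `LR w e` and not `Ho w e` means `freed w e`. `OBq`, `OBp`, `SBl`,
`SBr`: second part of `LowC`, `UpC` (bt_TP, bt_TQ). -/
theorem inv_free (hc : c.Ok) (hs : c.Sq) (hx : c.XR) {e : E}
    (ih : ∀ f, c.T f < c.T e → c.InvE f) (hfree : ∀ w, ¬ c.Ho w e) : c.InvE e := by
  obtain ⟨L, U, hxe, hL1, hU1, hLow, hUp, hL, hU⟩ := hx.free e hfree
  have key : L + c.D (c.T e) ≤ U := by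
    rcases hL with hL | ⟨g, hg, hL⟩
    · rcases hU with hU | ⟨g', hg', hU⟩
      · have := hs.D_le1 (c.T e)
        rw [hL, hU]; linarith
      · have h1 := (ih g' hg'.1).bdl
        have h2 : c.D (c.T e) ≤ c.D (c.T g' + 1) := hs.D_anti hg'.1
        rw [hL, hU]; linarith
    · rcases hU with hU | ⟨g', hg', hU⟩
      · have h1 := (ih g hg.1).bdr
        have h2 : c.D (c.T e) ≤ c.D (c.T g + 1) := hs.D_anti hg.1
        rw [hL, hU]; linarith
      · rw [hL, hU]
        exact gap_free hc ih hfree hg hg'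
  have low : ∀ g, c.LowC e g → c.Prec g e := by
    intro g hg
    refine prec_of_half hs hg.1 ?_
    have := hLow g hg
    rw [hxe]; linarith
  have up : ∀ g, c.UpC e g → c.Prec e g := by
    intro g hg
    refine prec_of_half' hs hg.1 ?_
    have := hUp g hg
    rw [hxe]; linarith
  have hD : c.D (c.T e + 1) ≤ c.D (c.T e) / 2 := by
    have h1 := hs.D_M (c.T e)
    have h2 := hs.D_pos (c.T e + 1)
    have h3 := hs.M_ge
    nlinarith
  have hF : ∀ z g, c.cor z g → c.T g < c.T e → c.T (c.F z) < c.T e := by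
    intro z g h1 h2
    have := hc.F_first (hc.cor_mem h1)
    omega
  have hfr : ∀ w, c.LR w e → c.freed w e := by
    intro w hw
    by_contra hn
    exact hfree w ⟨hw, fun h => hn ⟨hw, h.1, h.2⟩⟩
  exact
    { ERl := fun z g h1 h2 h3 h4 => low g ⟨h4, Or.inl ⟨z, Or.inl ⟨h1, h2⟩, h3⟩⟩
      ERr := fun z g h1 h2 h3 h4 => up g ⟨h4, Or.inl ⟨z, Or.inl ⟨h1, h2⟩, h3⟩⟩
      ORp := fun z g h1 h2 h3 h4 h5 =>
        low g ⟨h5, Or.inl ⟨z, Or.inr (Or.inl ⟨h1, h2, h3, hF z g h4 h5⟩), h4⟩⟩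
      ORq := fun z g h1 h2 h3 h4 h5 =>
        up g ⟨h5, Or.inl ⟨z, Or.inr (Or.inl ⟨h1, h2, h3, hF z g h4 h5⟩), h4⟩⟩
      ORl := fun w g h1 h2 h3 h4 =>
        up g ⟨h4, Or.inl ⟨w, Or.inr (Or.inr ⟨hfr w h1, h2⟩), h3⟩⟩
      ORr := fun w g h1 h2 h3 h4 =>
        low g ⟨h4, Or.inl ⟨w, Or.inr (Or.inr ⟨hfr w h1, h2⟩), h3⟩⟩
      OBq := fun w h1 => low _ ⟨hc.bt_TQ h1, Or.inr ⟨w, h1, Or.inl rfl⟩⟩
      OBp := fun w h1 => up _ ⟨hc.bt_TP h1, Or.inr ⟨w, h1, Or.inl rfl⟩⟩
      SBl := fun w g h1 h2 h3 h4 => low g ⟨h3, Or.inr ⟨w, h1, Or.inr ⟨h2, h4⟩⟩⟩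
      SBr := fun w g h1 h2 h3 h4 => up g ⟨h3, Or.inr ⟨w, h1, Or.inr ⟨h2, h4⟩⟩⟩
      bdl := by rw [hxe]; linarith
      bdr := by rw [hxe]; linarith }

end Cf
end Pool.Agent.Tri
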