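import Pool.Agent.Helper57.Tri.MA

/-! Hosted events: preparations. -/

set_option autoImplicit false

namespace Pool.Agent.Tri
namespace Cf

variable {V E : Type} {c : Cf V E}

/-- `A w` is not in a nontrivial cluster of another vertex `z` when `w` hosts `e`.
Proof. Let `f = A w`; `z ∈ f, g`; `w ∈ f`, `w ∉ g` (else `f = g` by lin). `T (A w) < T e` (Ho_A);
`z ∉ e` (else `e = f`).
`f ≠ P w, Q w` (A_ne_P, A_ne_Q) and `f ≠ P z, Q z` (CP_ne). So by `pql` neither `z` left of `w` nor
`w` left of `z`.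
`z` below `w` (`a1 w < a1 z`, `a2 w < a2 z`): `w ∉ g`: `below_late` gives `T e < T g`, contradiction.
`w` below `z` (`a1 z < a1 w`, `a2 z < a2 w`): `e ∌ z`, so by `below_late` all edges of `z` are
before `e`. `CP_q`: `q = P z` or `Q z` with (`pq z` or `T e ≤ T q`), `T f < T q`; the second
contradicts `T q < T e`. So `pq z`, and `pq_dead` (z, w, f) gives `T e < T (P z)`, but `T (P z) < T e`. -/
theorem ncl_host (hc : c.Ok) {w z : V} {e g : E} (he : c.Ho w e) (hz : z ≠ w)
    (h1 : c.InC z (c.T e) (c.A w)) (h2 : c.InC z (c.T e) g) (hne : g ≠ c.A w)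
    (hT : c.T g < c.T e) : False := by
  have hwe : c.mem w e := he.1.1.1
  have hwf : c.mem w (c.A w) := hc.memA w
  have hzf : c.mem z (c.A w) := hc.InC_mem h1
  have hzg : c.mem z g := hc.InC_mem h2
  have hTA : c.T (c.A w) < c.T e := hc.Ho_A he
  have hwg : ¬ c.mem w g := fun h => hne (hc.lin w z g (c.A w) hz.symm h hzg hwf hzf)
  have hze : ¬ c.mem z e := by
    intro h
    have h3 : e = c.A w := hc.lin z w e (c.A w) hz h hwe hzf hwf
    rw [h3] at hTA
    exact lt_irrefl _ hTA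
  have hcp := hc.CP_ne h1 h2 hne.symm
  have hAP := hc.A_ne_P he.1
  have hAQ := hc.A_ne_Q he.1
  rcases lt_trichotomy (c.a1 z) (c.a1 w) with ha | ha | ha
  · rcases lt_trichotomy (c.a2 z) (c.a2 w) with hb | hb | hb
    · -- `w` below `z`
      have hlate : ∀ e', c.mem z e' → c.T e' < c.T e := fun e' he' =>
        hc.below_late ha hb hwe hze he'
      obtain ⟨q, hq, hq2, hq3, -⟩ := hc.CP_q h1 h2 hne.symm hTA hT
      have hzq : c.mem z q := by
        rcases hq with rfl | rfl
        · exact hc.memP z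
        · exact hc.memQ z
      rcases hq2 with hpq | hle
      · have hPq : c.P z = q := by
          rcases hq with rfl | rfl
          · rfl
          · exact hpq
        have h5 := hc.pq_dead hpq hz.symm hwf hzf (by rw [hPq]; exact hq3) hwe
        have h6 := hlate _ (hc.memP z)
        omega
      · have h6 := hlate _ hzq
        omega
    · exact hz (hc.va2 _ _ hb)
    · rcases hc.pql ha hb hzf hwf with h | h
      · exact hcp.1 h
      · exact hAQ h
  · exact hz (hc.va1 _ _ ha)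
  · rcases lt_trichotomy (c.a2 z) (c.a2 w) with hb | hb | hb
    · rcases hc.pql ha hb hwf hzf with h | h
      · exact hAP h
      · exact hcp.2 h
    · exact hz (hc.va2 _ _ hb)
    · have h5 := hc.below_late ha hb hzg hwg hwe
      omega

/-- so if `w ∉ g` then `g` and `A w` are not in a common cluster at the time of `e` -/
theorem nclu_host (hc : c.Ok) {w : V} {e g : E} (he : c.Ho w e) (hg : ¬ c.mem w g)
    (hT : c.T g < c.T e) : ¬ c.Clu (c.T e) g (c.A w) := by
  rintro ⟨hne, z, h1, h2⟩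
  have hz : z ≠ w := by
    rintro rfl
    exact hg (hc.InC_mem h1)
  exact ncl_host hc he hz h2 h1 hne hT

/-- position of a hosted edge relative to `A w`. Proof: `hx.hpq`, `hx.hL`, `hx.hR`, `Sq.tiny` with
`a = T e`, `b = T (P w)` resp. `T (Q w)` (LR_P, LR_Q). -/
theorem ho_pos (hc : c.Ok) (hs : c.Sq) (hx : c.XR) {w : V} {e : E} (he : c.Ho w e) :
    (¬ c.sd e → c.x (c.A w) ≤ c.x e ∧ c.M * (c.x e - c.x (c.A w)) ≤ c.D (c.T e + 1)) ∧
    (c.sd e → c.x e ≤ c.x (c.A w) ∧ c.M * (c.x (c.A w) - c.x e) ≤ c.D (c.T e + 1)) := by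
  have hM := hs.M_ge
  by_cases hpq : c.pq w
  · have h1 := hx.hpq w e he hpq
    have hD := (hs.D_pos (c.T e + 1)).le
    rw [h1, sub_self, mul_zero]
    exact ⟨fun _ => ⟨le_rfl, hD⟩, fun _ => ⟨le_rfl, hD⟩⟩
  · constructor
    · intro hsd
      have h1 := hx.hR w e he hpq hsd
      have h2 := hs.tiny (hc.LR_P he.1 hsd)
      have h3 := hs.D_pos (c.T (c.P w) + 1)
      have h4 := hs.K_pos (c.T e + 1)
      have h5 := mul_pos h3 h4
      refine ⟨by linarith, ?_⟩
      rw [h1, add_sub_cancel_left]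
      exact h2
    · intro hsd
      have h1 := hx.hL w e he hpq hsd
      have h2 := hs.tiny (hc.LR_Q he.1 hsd)
      have h3 := hs.D_pos (c.T (c.Q w) + 1)
      have h4 := hs.K_pos (c.T e + 1)
      have h5 := mul_pos h3 h4
      refine ⟨by linarith, ?_⟩
      rw [h1, sub_sub_cancel]
      exact h2

/-- `Prec (A w) e` for `e` hosted on the right side. Proof: `x (A w) ≤ x e`. `Clu (T e) (A w) e`
holds: `InC w (T e) (A w)`, `InC w (T e) e` as `T e < T (P w) = T (C w e)`. Third clause: if `pq w`, then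
`Clu s` always. Otherwise `¬ Clu s (A w) e` gives `T (P w) < s`, so
`D s ≤ D (T (P w) + 1) ≤ D (T (P w) + 1) K (T e + 1) = x e - x (A w)`. -/
theorem prec_A (hc : c.Ok) (hs : c.Sq) (hx : c.XR) {w : V} {e : E} (he : c.Ho w e)
    (hsd : ¬ c.sd e) : c.Prec (c.A w) e := by
  have hTA : c.T (c.A w) < c.T e := hc.Ho_A he
  have hne : c.A w ≠ e := by
    intro h
    rw [h] at hTA
    exact lt_irrefl _ hTA
  have hC : c.C w e = c.P w := hc.CR w e hsd
  have hTP := hc.LR_P he.1 hsd
  have hclu : ∀ s, (c.pq w ∨ s ≤ c.T (c.P w)) → c.Clu s (c.A w) e := by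
    intro s h
    exact ⟨hne, w, Or.inl rfl, Or.inr ⟨he, by rw [hC]; exact h⟩⟩
  refine ⟨((ho_pos hc hs hx he).1 hsd).1, ?_, ?_⟩
  · intro h
    exact absurd (hclu _ (Or.inr (by rw [max_eq_right hTA.le]; exact hTP.le))) h
  · intro s hs1 hs2 h
    by_cases hpq : c.pq w
    · exact absurd (hclu s (Or.inl hpq)) h
    · have h1 : c.T (c.P w) < s := by
        by_contra hcon
        exact h (hclu s (Or.inr (not_lt.1 hcon)))
      have h2 := hs.D_anti (Nat.succ_le_of_lt h1)
      have h3 := hx.hR w e he hpq hsd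
      have h4 := hs.K_ge1 (c.T e + 1)
      have h5 := hs.D_pos (c.T (c.P w) + 1)
      have h6 : c.D (c.T (c.P w) + 1) ≤ c.D (c.T (c.P w) + 1) * c.K (c.T e + 1) :=
        le_mul_of_one_le_right h5.le h4
      have h7 : c.D s ≤ c.D (c.T (c.P w) + 1) := h2
      linarith

/-- Two hosted edges of `w`: `e` on the right side, `g` earlier. Proof: in the case `pq w`: `x g = x e`
and always `Clu`. Otherwise: if `sd g`: `x g = x A - D (T (Q w) + 1) K (T g + 1) ≤ x A ≤ x e`; `¬ Clu s g e`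
gives `T (Q w) < s` or `T (P w) < s`, so `D s ≤ D (T (Q w) + 1)` or `D s ≤ D (T (P w) + 1)`, and both
displacements are at least `D s` (`K ≥ 1`); for the clause with `s = T e` note that
`T e < T (P w)`, so `T (Q w) < T e`. If `¬ sd g`: `x e - x g = D (T (P w) + 1) (K (T e + 1) - K (T g + 1))`
with `K (T e + 1) - K (T g + 1) ≥ 1` (K_M, K_ge1), and `Clu s g e` for all `s ≤ T (P w)`. -/
theorem prec_HH (hc : c.Ok) (hs : c.Sq) (hx : c.XR) {w : V} {e g : E} (he : c.Ho w e)
    (hsd : ¬ c.sd e) (hg : c.Ho w g) (hT : c.T g < c.T e) : c.Prec g e := by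
  have hne : g ≠ e := by
    intro h
    rw [h] at hT
    exact lt_irrefl _ hT
  have hCe : c.C w e = c.P w := hc.CR w e hsd
  have hTP := hc.LR_P he.1 hsd
  have hmax : max (c.T g) (c.T e) = c.T e := max_eq_right hT.le
  have hclu : ∀ s, (c.pq w ∨ s ≤ c.T (c.C w g)) → (c.pq w ∨ s ≤ c.T (c.P w)) →
      c.Clu s g e := by
    intro s h1 h2
    exact ⟨hne, w, Or.inr ⟨hg, h1⟩, Or.inr ⟨he, by rw [hCe]; exact h2⟩⟩
  by_cases hpq : c.pq w
  · have h1 := hx.hpq w e he hpq
    have h2 := hx.hpq w g hg hpq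
    refine ⟨by rw [h1, h2], ?_, ?_⟩
    · intro h
      exact absurd (hclu _ (Or.inl hpq) (Or.inl hpq)) h
    · intro s _ _ h
      exact absurd (hclu s (Or.inl hpq) (Or.inl hpq)) h
  · have hxe := hx.hR w e he hpq hsd
    have hKe := hs.K_ge1 (c.T e + 1)
    have hKg := hs.K_ge1 (c.T g + 1)
    have hDP := hs.D_pos (c.T (c.P w) + 1)
    have hDQ := hs.D_pos (c.T (c.Q w) + 1)
    have h6 : c.D (c.T (c.P w) + 1) ≤ c.D (c.T (c.P w) + 1) * c.K (c.T e + 1) :=
      le_mul_of_one_le_right hDP.le hKe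
    have hP : ∀ s, c.T (c.P w) < s → c.D s ≤ c.D (c.T (c.P w) + 1) := fun s h =>
      hs.D_anti (Nat.succ_le_of_lt h)
    have hQ : ∀ s, c.T (c.Q w) < s → c.D s ≤ c.D (c.T (c.Q w) + 1) := fun s h =>
      hs.D_anti (Nat.succ_le_of_lt h)
    by_cases hsg : c.sd g
    · have hCg : c.C w g = c.Q w := hc.CL w g hsg
      have hxg := hx.hL w g hg hpq hsg
      have h7 : c.D (c.T (c.Q w) + 1) ≤ c.D (c.T (c.Q w) + 1) * c.K (c.T g + 1) :=
        le_mul_of_one_le_right hDQ.le hKg
      rw [hCg] at hclu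
      refine ⟨by linarith, ?_, ?_⟩
      · intro h
        rw [hmax] at h ⊢
        have h1 : c.T (c.Q w) < c.T e := by
          by_contra hcon
          exact h (hclu _ (Or.inr (not_lt.1 hcon)) (Or.inr hTP.le))
        have h2 := hQ _ h1
        have h3 := hs.D_pos (c.T e)
        linarith
      · intro s _ hs2 h
        by_cases h1 : c.T (c.Q w) < s
        · have h2 := hQ _ h1
          linarith
        · have h3 : c.T (c.P w) < s := by
            by_contra hcon
            exact h (hclu _ (Or.inr (not_lt.1 h1)) (Or.inr (not_lt.1 hcon)))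
          have h2 := hP _ h3
          linarith
    · have hCg : c.C w g = c.P w := hc.CR w g hsg
      have hxg := hx.hR w g hg hpq hsg
      rw [hCg] at hclu
      have hKM := hs.K_M (Nat.succ_lt_succ hT)
      have hM := hs.M_ge
      have hKd : 1 ≤ c.K (c.T e + 1) - c.K (c.T g + 1) := by
        have h1 : c.M * c.K (c.T g + 1) ≤ c.K (c.T e + 1) := hKM
        nlinarith
      have h7 : c.D (c.T (c.P w) + 1) ≤
          c.D (c.T (c.P w) + 1) * (c.K (c.T e + 1) - c.K (c.T g + 1)) :=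
        le_mul_of_one_le_right hDP.le hKd
      have h8 : c.D (c.T (c.P w) + 1) ≤ c.x e - c.x g := by
        rw [hxe, hxg]
        linarith
      refine ⟨by linarith, ?_, ?_⟩
      · intro h
        rw [hmax] at h
        exact absurd (hclu _ (Or.inr hTP.le) (Or.inr hTP.le)) h
      · intro s _ hs2 h
        have h3 : c.T (c.P w) < s := by
          by_contra hcon
          exact h (hclu _ (Or.inr (not_lt.1 hcon)) (Or.inr (not_lt.1 hcon)))
        have h2 := hP _ h3
        linarith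

/-- transfer: if `Prec g (A w)` and `w ∉ g`, or more generally `¬ Clu (T e) g (A w)`, then `Prec g e`
for `e` hosted by `w` (any side). Proof: gap at `s = T e`: `x g + D (T e) ≤ x (A w)`, and
`x e ≥ x (A w) - D (T e + 1) / M` (ho_pos), so `x g + D (T e) / 2 ≤ x e`; `prec_of_half`. -/
theorem transfer (hc : c.Ok) (hs : c.Sq) (hx : c.XR) {w : V} {e g : E} (he : c.Ho w e)
    (hp : c.Prec g (c.A w)) (hn : ¬ c.Clu (c.T e) g (c.A w)) (hT : c.T g < c.T e) :
    c.Prec g e := by
  have h1 := hp.gap hT (hc.Ho_A he) hn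
  have h2 := ho_pos hc hs hx he
  have hM := hs.M_ge
  have hD := hs.D_pos (c.T e)
  have hD1 := hs.D_anti (Nat.le_succ (c.T e))
  have hD2 : c.D (c.T e + 1) ≤ c.D (c.T e) := hD1
  apply prec_of_half hs hT
  by_cases hsd : c.sd e
  · obtain ⟨h3, h4⟩ := h2.2 hsd
    have h5 : 1024 * (c.x (c.A w) - c.x e) ≤ c.D (c.T e + 1) := by
      have : 1024 * (c.x (c.A w) - c.x e) ≤ c.M * (c.x (c.A w) - c.x e) :=
        mul_le_mul_of_nonneg_right hM (by linarith)
      linarith
    linarith
  · obtain ⟨h3, -⟩ := h2.1 hsd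
    linarith

theorem transfer' (hc : c.Ok) (hs : c.Sq) (hx : c.XR) {w : V} {e g : E} (he : c.Ho w e)
    (hp : c.Prec (c.A w) g) (hn : ¬ c.Clu (c.T e) g (c.A w)) (hT : c.T g < c.T e) :
    c.Prec e g := by
  have h1 := hp.gap (hc.Ho_A he) hT (by rwa [Clu_comm])
  have h2 := ho_pos hc hs hx he
  have hM := hs.M_ge
  have hD := hs.D_pos (c.T e)
  have hD1 := hs.D_anti (Nat.le_succ (c.T e))
  have hD2 : c.D (c.T e + 1) ≤ c.D (c.T e) := hD1
  apply prec_of_half' hs hT
  by_cases hsd : c.sd e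
  · obtain ⟨h3, -⟩ := h2.2 hsd
    linarith
  · obtain ⟨h3, h4⟩ := h2.1 hsd
    have h5 : 1024 * (c.x e - c.x (c.A w)) ≤ c.D (c.T e + 1) := by
      have : 1024 * (c.x e - c.x (c.A w)) ≤ c.M * (c.x e - c.x (c.A w)) :=
        mul_le_mul_of_nonneg_right hM (by linarith)
      linarith
    linarith

end Cf
end Pool.Agent.Tri
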