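import Pool.Agent.Helper57.Tri.ME

/-! Hosted events: the invariants (right side). -/

set_option autoImplicit false

namespace Pool.Agent.Tri
namespace Cf

variable {V E : Type} {c : Cf V E}

/-- Proof. `g ∈ {F w, P w, Q w, h w}`. `g = A w`: `prec_A`. `g = P w`: `T e < T (P w)` (LR_P), no.
`g = Q w` (and `g ≠ A w`, `A_ne_Q`): `Prec (Q w) (A w)`: if `T (A w) < T (Q w)`: `ORq` at `Q w`
(`Q w ≠ P w`, as `T (Q w) < T e < T (P w)`) with corner `A w`. If `T (Q w) < T (A w)`: then
`A w ≠ F w` (F_first), so `top w` and `A w = h w`, `LR w (h w)` (h_top); `F w = Q w` (otherwise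
`F w = P w`, but FP_sd contradicts `¬ sd e`); `FQ_sd`: `¬ sd (h w)`; `ORr` at `h w` with corner `Q w`.
Then `transfer` with `nclu_Q` (Clu_comm).
`g = F w ≠ A w`: `top w`, and as before `F w = Q w`: previous case.
`g = h w ≠ A w`: then `¬ top w`; `A w = F w`, so `h w ≠ F w`, so `pq w` (h_else), `h_pq`:
`b3 (h w) ≤ b3 e`, so (`e` not BT, `T g < T e`) `b3_of_T` contradiction (or `g = e`). -/
theorem host_OR (hc : c.Ok) (hs : c.Sq) (hx : c.XR) {e : E}
    (ih : ∀ f, c.T f < c.T e → c.InvE f) {w : V} (he : c.Ho w e) (hsd : ¬ c.sd e) {g : E}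
    (hg : c.cor w g) (hT : c.T g < c.T e) : c.Prec g e := by
  by_cases hgA : g = c.A w
  · rw [hgA]
    exact prec_A hc hs hx he hsd
  have hTA : c.T (c.A w) < c.T e := hc.Ho_A he
  have hTP := hc.LR_P he.1 hsd
  -- the case of the corner `Q w`
  have hQ : c.T (c.Q w) < c.T e → c.Prec (c.Q w) e := by
    intro hTQ
    have key : c.Prec (c.Q w) (c.A w) := by
      rcases lt_trichotomy (c.T (c.A w)) (c.T (c.Q w)) with h | h | h
      · refine (ih (c.Q w) hTQ).ORq w (c.A w) (hc.memQ w) rfl ?_ (hc.A_cor w) h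
        intro h2
        rw [h2] at hTQ
        omega
      · exact absurd (hc.T_inj _ _ h) (hc.A_ne_Q he.1)
      · have hAF : c.A w ≠ c.F w := by
          intro h2
          have h3 := hc.F_first (hc.memQ w)
          rw [h2] at h
          omega
        have htop : c.top w := by
          by_contra hnt
          exact hAF (hc.A_bot w hnt)
        have hAh := hc.A_top w htop
        have hLRh := (hc.h_top w e htop he.1).1
        have hFQ : c.F w = c.Q w := by
          rcases htop with h2 | h2
          · exact h2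
          · exact absurd (hc.FP_sd h2 he.1) hsd
        rw [hAh]
        rw [hAh] at h hTA
        exact (ih (c.h w) hTA).ORr w (c.Q w) hLRh (hc.FQ_sd hFQ hLRh)
          (Or.inr (Or.inr (Or.inl rfl))) h
    refine transfer hc hs hx he key ?_ hTQ
    rw [Clu_comm]
    exact hc.nclu_Q (hc.memA w)
  rcases hg with h | h | h | h
  · have htop : c.top w := by
      by_contra hnt
      exact hgA (h.trans (hc.A_bot w hnt).symm)
    have hFQ : c.F w = c.Q w := by
      rcases htop with h2 | h2
      · exact h2
      · exact absurd (hc.FP_sd h2 he.1) hsd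
    rw [h, hFQ]
    rw [h, hFQ] at hT
    exact hQ hT
  · rw [h] at hT
    omega
  · rw [h]
    rw [h] at hT
    exact hQ hT
  · have hnt : ¬ c.top w := by
      intro ht
      exact hgA (h.trans (hc.A_top w ht).symm)
    have hAF := hc.A_bot w hnt
    have hpq : c.pq w := by
      by_contra hnp
      exact hgA (h.trans ((hc.h_else w hnt hnp).trans hAF.symm))
    have h3 := (hc.h_pq w e hnt hpq he.1).2
    have h4 := hc.b3_of_T hT (hc.LR_nb he.1)
    rw [h] at h4
    omega

/-- Proof. `f := A w`, `T f < T e` (Ho_A). `a2 w < b2 e < a2 z`.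
`g = f`: `prec_A`.
`w ∈ g`, `g ≠ f`: `edge_class` for `w, g`: `g = P w`: no (LR_P). `g = Q w`: `host_OR`. `g = F w`:
`host_OR`. `LR w g`: `Ho w g` or `g = h w = A w`; `prec_HH`. `BT w g`: `T (P w) < T g`, no.
`w ∉ g`: then `z` left of `w`: otherwise `a1 w < a1 z`, `a2 w < a2 z`, `below_late` (g ∌ w) gives
`T e < T g`. Show `Prec g f`:
 - `z ∉ f`, `T g < T f`: `z` alive at `f` (later edge of `z` after `e`), `a1 z < a1 w < b1 f`, so
   `alive_side` gives left, `ERl` at `f`.
 - `z ∉ f`, `T f < T g`: `w` alive at `g` (`e` later), `a2 w < a2 z < b2 g`, so right: `ERr` at `g` with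
   corner `A w` (A_cor).
 - `z ∈ f`: `pql` (z, w, f) and `A_ne_Q`: `f = P z`. `P z ≠ Q z`: otherwise `pq_last`: all edges of `z` are
   at or before `T f < T e`, contradiction to `alive z e`. `T g < T f`: `ORp` at `f` for `z`.
   `T f < T g` (`g ∈ cor z`): `g = F z`: no (F_first). `g = Q z`: `ORq` at `g` with corner `P z`.
   `g = h z ≠ F z`: `LR z g` (h_top or h_pq), `¬ sd g` gives `T g < T (P z)`, no; so `sd g`, `ORl`
   at `g` with corner `P z`. (`T f = T g`: `f = g`, but `w ∉ g`.)
Then `transfer` with `nclu_host`. -/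
theorem host_ERl (hc : c.Ok) (hs : c.Sq) (hx : c.XR) {e : E}
    (ih : ∀ f, c.T f < c.T e → c.InvE f) {w z : V} (he : c.Ho w e) (hsd : ¬ c.sd e) {g : E}
    (ha : c.alive z e) (h2 : c.b2 e < c.a2 z) (hg : c.cor z g) (hT : c.T g < c.T e) :
    c.Prec g e := by
  have hwe : c.mem w e := he.1.1.1
  have hze : ¬ c.mem z e := ha.1
  have hzw : z ≠ w := by
    rintro rfl
    exact hze hwe
  have hTA : c.T (c.A w) < c.T e := hc.Ho_A he
  have hTP := hc.LR_P he.1 hsd
  have ha2 : c.a2 w < c.a2 z := ((hc.mem_iff w e).1 hwe).2.1.trans h2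
  have hzg : c.mem z g := hc.cor_mem hg
  by_cases hgf : g = c.A w
  · rw [hgf]
    exact prec_A hc hs hx he hsd
  by_cases hwg : c.mem w g
  · rcases hc.edge_class hwg with h | h | h | h | h
    · exact host_OR hc hs hx ih he hsd (Or.inl h) hT
    · rw [h] at hT
      omega
    · exact host_OR hc hs hx ih he hsd (Or.inr (Or.inr (Or.inl h))) hT
    · by_cases h3 : c.top w ∧ g = c.h w
      · exact absurd (h3.2.trans (hc.A_top w h3.1).symm) hgf
      · exact prec_HH hc hs hx he hsd ⟨h, h3⟩ hT
    · have := hc.bt_TP h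
      omega
  · have ha1 : c.a1 z < c.a1 w := by
      rcases lt_trichotomy (c.a1 z) (c.a1 w) with h | h | h
      · exact h
      · exact absurd (hc.va1 _ _ h) hzw
      · have := hc.below_late h ha2 hzg hwg hwe
        omega
    obtain ⟨e', hze', hTe'⟩ := ha.2.2
    have key : c.Prec g (c.A w) := by
      by_cases hzf : c.mem z (c.A w)
      · have hfP : c.A w = c.P z := by
          rcases hc.pql ha1 ha2 hzf (hc.memA w) with h | h
          · exact h
          · exact absurd h (hc.A_ne_Q he.1)
        have hnpq : ¬ c.pq z := by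
          intro hpq
          have := hc.pq_last hpq hze'
          rw [← hfP] at this
          omega
        rcases lt_trichotomy (c.T g) (c.T (c.A w)) with h | h | h
        · exact (ih (c.A w) hTA).ORp z g hzf hfP (fun h3 => hnpq (hfP.symm.trans h3)) hg h
        · exact absurd (hc.T_inj _ _ h) hgf
        · rcases hg with h3 | h3 | h3 | h3
          · have := hc.F_first hzf
            rw [h3] at h
            omega
          · exact absurd (h3.trans hfP.symm) hgf
          · rw [hfP]
            refine (ih g hT).ORq z (c.P z) hzg h3 ?_ (Or.inr (Or.inl rfl)) (by rw [← hfP]; exact h)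
            intro h4
            exact hgf (h4.trans hfP.symm)
          · have hgF : g ≠ c.F z := by
              intro h4
              have := hc.F_first hzf
              rw [h4] at h
              omega
            have hex : ∃ e'', c.LR z e'' := by
              by_contra hcon
              push Not at hcon
              exact hgF (h3.trans (hc.h_none z hcon))
            obtain ⟨e'', he''⟩ := hex
            have htop : c.top z := by
              by_contra hnt
              exact hgF (h3.trans (hc.h_else z hnt hnpq))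
            have hLR : c.LR z g := by
              rw [h3]
              exact (hc.h_top z e'' htop he'').1
            have hsg : c.sd g := by
              by_contra hns
              have := hc.LR_P hLR hns
              rw [← hfP] at this
              omega
            rw [hfP]
            exact (ih g hT).ORl z (c.P z) hLR hsg (Or.inr (Or.inl rfl)) (by rw [← hfP]; exact h)
      · exact pair hc ih ha1 ha2 hg (hc.A_cor w) hzf hwg hT hTA hze' hwe hTe'.le le_rfl
    exact transfer hc hs hx he key (nclu_host hc he hwg hT) hT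

/-- Proof. `f := A w`. `a1 w < b1 e < a1 z`. `hasR w e` (sdR). For every edge `f' ∋ w`, `T f' < T e`:
`b3 e < b3 f'` (b3_of_T, LR_nb), so `b1 f' < b1 e` (hasR_b1), so `z ∉ f'`. So `z ∉ f` and `w ∉ g`.
`w` left of `z`: otherwise `z` below `w` and `below_late` gives `T e < T g`. `Prec f g`: if `T g < T f`:
`z` alive at `f`, `a2 z < a2 w < b2 f`, right, `ERr` at `f`. If `T f < T g`: `w` alive at `g`,
`a1 w < a1 z < b1 g`, left, `ERl` at `g` with corner `A w`. Then `transfer'`, `nclu_host`. -/
theorem host_ERr (hc : c.Ok) (hs : c.Sq) (hx : c.XR) {e : E}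
    (ih : ∀ f, c.T f < c.T e → c.InvE f) {w z : V} (he : c.Ho w e) (hsd : ¬ c.sd e) {g : E}
    (ha : c.alive z e) (h1 : c.b1 e < c.a1 z) (hg : c.cor z g) (hT : c.T g < c.T e) :
    c.Prec e g := by
  have hwe : c.mem w e := he.1.1.1
  have hze : ¬ c.mem z e := ha.1
  have hzw : z ≠ w := by
    rintro rfl
    exact hze hwe
  have hTA : c.T (c.A w) < c.T e := hc.Ho_A he
  have ha1 : c.a1 w < c.a1 z := ((hc.mem_iff w e).1 hwe).1.trans h1
  have hzg : c.mem z g := hc.cor_mem hg
  have hR : c.hasR w e := hc.sdR w e he.1 hsd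
  have hno : ∀ f', c.mem w f' → c.T f' < c.T e → ¬ c.mem z f' := by
    intro f' hf' hTf' hzf'
    have h3 := hc.b3_of_T hTf' (hc.LR_nb he.1)
    have hne : f' ≠ e := by
      rintro rfl
      exact lt_irrefl _ hTf'
    have h4 := hc.hasR_b1 hwe hR hf' hne h3
    have h5 := ((hc.mem_iff z f').1 hzf').1
    omega
  have hzf : ¬ c.mem z (c.A w) := hno _ (hc.memA w) hTA
  have hwg : ¬ c.mem w g := fun h => hno g h hT hzg
  have ha2 : c.a2 z < c.a2 w := by
    rcases lt_trichotomy (c.a2 z) (c.a2 w) with h | h | h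
    · exact h
    · exact absurd (hc.va2 _ _ h) hzw
    · have := hc.below_late ha1 h hzg hwg hwe
      omega
  obtain ⟨e', hze', hTe'⟩ := ha.2.2
  have key : c.Prec (c.A w) g :=
    pair hc ih ha1 ha2 (hc.A_cor w) hg hwg hzf hTA hT hwe hze' le_rfl hTe'.le
  exact transfer' hc hs hx he key (nclu_host hc he hwg hT) hT

/-- `e = P z` hosted by `w`. Proof. `z ≠ w`. `w ∉ g` (lin, `g ≠ e`), `z ∉ A w` (lin, `A w ≠ e`).
`z` below `w`: `below_late` (F z ∌ w): `T e < T (F z) ≤ T g`, no. `w` below `z`: `host_D` excludes it.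
`w` left of `z`: `pql` (w, z, e): `e = P w` or `e = Q z`, no. So `z` left of `w`. `f := A w`. `Prec g f`:
`T g < T f`: `z` alive at `f` (`e` later), `a1 z < a1 w < b1 f`: left, `ERl` at `f`. `T f < T g`: `w` alive
at `g` (`e` later), `a2 w < a2 z < b2 g`: right: `ERr` at `g`. `transfer`, `nclu_host`. (No use of
the side of `e`.) -/
theorem host_ORp (hc : c.Ok) (hs : c.Sq) (hx : c.XR) {e : E}
    (ih : ∀ f, c.T f < c.T e → c.InvE f) {w z : V} (he : c.Ho w e) {g : E}
    (hz : c.mem z e) (hP : e = c.P z) (hQ : e ≠ c.Q z) (hg : c.cor z g) (hT : c.T g < c.T e) :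
    c.Prec g e := by
  have hwe : c.mem w e := he.1.1.1
  have hzw : z ≠ w := by
    rintro rfl
    exact he.1.1.2.2.1 hP
  have hTA : c.T (c.A w) < c.T e := hc.Ho_A he
  have hzg : c.mem z g := hc.cor_mem hg
  have hlin : ∀ f, c.mem z f → c.mem w f → f = e := fun f h3 h4 =>
    hc.lin z w f e hzw h3 h4 hz hwe
  have hwg : ¬ c.mem w g := by
    intro h
    have := hlin g hzg h
    rw [this] at hT
    exact lt_irrefl _ hT
  have hzf : ¬ c.mem z (c.A w) := by
    intro h
    have := hlin _ h (hc.memA w)
    rw [this] at hTA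
    exact lt_irrefl _ hTA
  have hTF : c.T (c.F z) ≤ c.T g := hc.F_first hzg
  have hwF : ¬ c.mem w (c.F z) := by
    intro h
    have := hlin _ (hc.memF z) h
    rw [this] at hTF
    omega
  have hpos : c.a1 z < c.a1 w ∧ c.a2 w < c.a2 z := by
    rcases hc.host_D he.1.1 hz hzw with h | h | h
    · exact ⟨h.1, h.2.1⟩
    · exfalso
      rcases hc.pql h.1 h.2.1 hwe hz with h3 | h3
      · exact he.1.1.2.2.1 h3
      · exact hQ h3
    · exfalso
      have := hc.below_late h.1 h.2.1 (hc.memF z) hwF hwe
      omega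
  have key : c.Prec g (c.A w) :=
    pair hc ih hpos.1 hpos.2 hg (hc.A_cor w) hzf hwg hT hTA hz hwe le_rfl le_rfl
  exact transfer hc hs hx he key (nclu_host hc he hwg hT) hT

end Cf
end Pool.Agent.Tri
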