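import Pool.Agent.Helper57.Tri.MD
import Pool.Agent.Helper57.Tri.MF

/-! All invariants. -/

set_option autoImplicit false

namespace Pool.Agent.Tri
namespace Cf

variable {V E : Type} {c : Cf V E}

/-- Proof: `ERl, ERr`: `host_ERl`, `host_ERr`. `ORp`: `host_ORp`. `ORq`: its mirror (swap). `ORl`: `¬ sd`.
`ORr`: `host_OR` (host_unique). `OB*`, `SB*`: `LR_nb`. Bounds: `ho_pos`, `(ih (A w)).bdl/bdr`,
`D (T (A w) + 1) ≥ D (T e) ≥ M D (T e + 1)`. -/
theorem inv_host_r (hc : c.Ok) (hs : c.Sq) (hx : c.XR) {e : E}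
    (ih : ∀ f, c.T f < c.T e → c.InvE f) {w : V} (he : c.Ho w e) (hsd : ¬ c.sd e) :
    c.InvE e := by
  have ih' : ∀ f, c.swap.T f < c.swap.T e → c.swap.InvE f := fun f hf => swap_inv (ih f hf)
  have hA := hc.Ho_A he
  have hpos := (ho_pos hc hs hx he).1 hsd
  have hM := hs.M_ge
  have hd := hs.D_pos (c.T e + 1)
  have hd1 : c.D (c.T e) ≤ c.D (c.T (c.A w) + 1) := hs.D_anti hA
  have hd2 := hs.D_M (c.T e)
  have hb := ih _ hA
  exact
    { ERl := fun z g ha h2 hg hT => host_ERl hc hs hx ih he hsd ha h2 hg hT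
      ERr := fun z g ha h1 hg hT => host_ERr hc hs hx ih he hsd ha h1 hg hT
      ORp := fun z g hz hP hQ hg hT => host_ORp hc hs hx ih he hz hP hQ hg hT
      ORq := fun z g hz hQ hP hg hT => by
        have h := host_ORp (swap_ok hc) (swap_sq hs) (swap_xr hx) ih' ((swap_Ho w e).2 he)
          hz hQ hP ((swap_cor z g).2 hg) hT
        rwa [swap_Prec] at h
      ORl := fun w' g h1 h2 h3 h4 => absurd h2 hsd
      ORr := fun w' g h1 h2 h3 h4 => by
        have hw : w' = w := hc.host_unique h1.1 he.1.1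
        subst hw
        exact host_OR hc hs hx ih he hsd h3 h4
      OBq := fun w' h => absurd h (hc.LR_nb he.1 w')
      OBp := fun w' h => absurd h (hc.LR_nb he.1 w')
      SBl := fun w' g h _ _ _ => absurd h (hc.LR_nb he.1 w')
      SBr := fun w' g h _ _ _ => absurd h (hc.LR_nb he.1 w')
      bdl := by
        have h1 := hb.bdl
        have h2 := hpos.1
        nlinarith
      bdr := by
        have h1 := hb.bdr
        have h2 := hpos.2
        have h3 := hpos.1
        have h4 : c.x e - c.x (c.A w) ≤ c.D (c.T e + 1) := by nlinarith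
        nlinarith }

/-- Proof: strong induction on `T e`; free: `inv_free`; hosted: `inv_host_r` or its mirror
(`swap_inv'`). -/
theorem inv_all (hc : c.Ok) (hs : c.Sq) (hx : c.XR) (e : E) : c.InvE e := by
  have key : ∀ n : ℕ, ∀ e : E, c.T e = n → c.InvE e := by
    intro n
    induction n using Nat.strong_induction_on with
    | _ n ih =>
      intro e he
      have ih1 : ∀ f, c.T f < c.T e → c.InvE f := fun f hf => ih (c.T f) (he ▸ hf) f rfl
      by_cases hfree : ∀ w, ¬ c.Ho w e
      · exact inv_free hc hs hx ih1 hfree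
      · push Not at hfree
        obtain ⟨w, hw⟩ := hfree
        by_cases hsd : c.sd e
        · have ih' : ∀ f, c.swap.T f < c.swap.T e → c.swap.InvE f :=
            fun f hf => swap_inv (ih1 f hf)
          exact swap_inv' (inv_host_r (swap_ok hc) (swap_sq hs) (swap_xr hx) ih'
            ((swap_Ho w e).2 hw) (fun h => h hsd))
        · exact inv_host_r hc hs hx ih1 hw hsd
  exact key (c.T e) e rfl

end Cf
end Pool.Agent.Tri
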