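import Pool.Agent.Helper57.Tri.Base

/-! Mirror symmetry. -/

set_option autoImplicit false

namespace Pool.Agent.Tri
namespace Cf

variable {V E : Type} {c : Cf V E}

@[simp] theorem swap_a1 : c.swap.a1 = c.a2 := rfl
@[simp] theorem swap_a2 : c.swap.a2 = c.a1 := rfl
@[simp] theorem swap_a3 : c.swap.a3 = c.a3 := rfl
@[simp] theorem swap_b1 : c.swap.b1 = c.b2 := rfl
@[simp] theorem swap_b2 : c.swap.b2 = c.b1 := rfl
@[simp] theorem swap_b3 : c.swap.b3 = c.b3 := rfl
@[simp] theorem swap_mem : c.swap.mem = c.mem := rfl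
@[simp] theorem swap_F : c.swap.F = c.F := rfl
@[simp] theorem swap_P : c.swap.P = c.Q := rfl
@[simp] theorem swap_Q : c.swap.Q = c.P := rfl
@[simp] theorem swap_h : c.swap.h = c.h := rfl
@[simp] theorem swap_A : c.swap.A = c.A := rfl
@[simp] theorem swap_C : c.swap.C = c.C := rfl
@[simp] theorem swap_sd (e : E) : c.swap.sd e ↔ ¬ c.sd e := Iff.rfl
@[simp] theorem swap_T : c.swap.T = c.T := rfl
@[simp] theorem swap_lev : c.swap.lev = c.lev := rfl
@[simp] theorem swap_m : c.swap.m = c.m := rfl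
@[simp] theorem swap_M : c.swap.M = c.M := rfl
@[simp] theorem swap_K : c.swap.K = c.K := rfl
@[simp] theorem swap_D : c.swap.D = c.D := rfl
@[simp] theorem swap_x (e : E) : c.swap.x e = - c.x e := rfl
@[simp] theorem swap_y : c.swap.y = c.y := rfl

theorem swap_host (w : V) (e : E) : c.swap.host w e ↔ c.host w e := by
  unfold host swap; tauto
theorem swap_hasL (w : V) (e : E) : c.swap.hasL w e ↔ c.hasR w e := Iff.rfl
theorem swap_hasR (w : V) (e : E) : c.swap.hasR w e ↔ c.hasL w e := Iff.rfl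
theorem swap_LR (w : V) (e : E) : c.swap.LR w e ↔ c.LR w e := by
  unfold LR; rw [swap_host, swap_hasL, swap_hasR]; tauto
theorem swap_BT (w : V) (e : E) : c.swap.BT w e ↔ c.BT w e := by
  unfold BT; rw [swap_host, swap_hasL, swap_hasR]; tauto
theorem swap_top (w : V) : c.swap.top w ↔ c.top w := by
  unfold top swap; tauto
theorem swap_pq (w : V) : c.swap.pq w ↔ c.pq w := by
  unfold pq swap; exact eq_comm
theorem swap_freed (w : V) (e : E) : c.swap.freed w e ↔ c.freed w e := by
  unfold freed; rw [swap_LR, swap_top]; rfl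
theorem swap_Ho (w : V) (e : E) : c.swap.Ho w e ↔ c.Ho w e := by
  unfold Ho; rw [swap_LR, swap_top]; rfl
theorem swap_cor (w : V) (g : E) : c.swap.cor w g ↔ c.cor w g := by
  unfold cor swap; tauto
theorem swap_alive (w : V) (g : E) : c.swap.alive w g ↔ c.alive w g := Iff.rfl
theorem swap_InC (w : V) (s : ℕ) (g : E) : c.swap.InC w s g ↔ c.InC w s g := by
  unfold InC; rw [swap_Ho, swap_pq]; rfl
theorem swap_Clu (s : ℕ) (g e : E) : c.swap.Clu s g e ↔ c.Clu s g e := by
  unfold Clu; simp only [swap_InC]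
theorem Clu_comm (s : ℕ) (g e : E) : c.Clu s g e ↔ c.Clu s e g := by
  unfold Clu
  constructor
  · rintro ⟨h, w, h1, h2⟩; exact ⟨h.symm, w, h2, h1⟩
  · rintro ⟨h, w, h1, h2⟩; exact ⟨h.symm, w, h2, h1⟩
theorem swap_Prec (g e : E) : c.swap.Prec g e ↔ c.Prec e g := by
  unfold Prec
  simp only [swap_Clu, swap_T, swap_x, swap_D]
  rw [max_comm (c.T g) (c.T e)]
  constructor
  · rintro ⟨h1, h2, h3⟩
    refine ⟨by linarith, fun h => ?_, fun s hs1 hs2 h => ?_⟩
    · have := h2 (by rwa [Clu_comm]); linarith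
    · have := h3 s hs2 hs1 (by rwa [Clu_comm]); linarith
  · rintro ⟨h1, h2, h3⟩
    refine ⟨by linarith, fun h => ?_, fun s hs1 hs2 h => ?_⟩
    · have := h2 (by rwa [Clu_comm]); linarith
    · have := h3 s hs2 hs1 (by rwa [Clu_comm]); linarith
theorem swap_LW (w : V) (e : E) : c.swap.LW w e ↔ c.RW w e := by
  unfold LW RW
  simp only [swap_freed, swap_alive, swap_sd, not_not]
  rfl
theorem swap_RW (w : V) (e : E) : c.swap.RW w e ↔ c.LW w e := by
  unfold LW RW
  simp only [swap_freed, swap_alive, swap_sd]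
  rfl
theorem swap_LowC (e g : E) : c.swap.LowC e g ↔ c.UpC e g := by
  unfold LowC UpC
  simp only [swap_LW, swap_cor, swap_BT]
  rfl
theorem swap_UpC (e g : E) : c.swap.UpC e g ↔ c.LowC e g := by
  unfold LowC UpC
  simp only [swap_RW, swap_cor, swap_BT]
  rfl

theorem swap_ok (hc : c.Ok) : c.swap.Ok where
  mem_iff v e := by have := hc.mem_iff v e; simp only [swap]; tauto
  va1 := hc.va2
  va2 := hc.va1
  va3 := hc.va3
  eb1 := hc.eb2
  eb2 := hc.eb1
  eb3 := hc.eb3
  ne1 := hc.ne2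
  ne2 := hc.ne1
  ne3 := hc.ne3
  anti u v := by have := hc.anti u v; simp only [swap]; tauto
  simp := hc.simp
  lin := hc.lin
  memF := hc.memF
  memP := hc.memQ
  memQ := hc.memP
  memh := hc.memh
  maxF := hc.maxF
  maxP := hc.maxQ
  maxQ := hc.maxP
  sdL w e h h2 := by
    rw [swap_LR] at h; rw [swap_hasL]; exact hc.sdR w e h h2
  sdR w e h h2 := by
    rw [swap_LR] at h; rw [swap_hasR]; exact hc.sdL w e h (not_not.1 h2)
  CL w e h := hc.CR w e h
  CR w e h := hc.CL w e (not_not.1 h)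
  A_top w h := hc.A_top w (by rwa [swap_top] at h)
  A_bot w h := hc.A_bot w (by rwa [swap_top] at h)
  h_top w e h h2 := by
    rw [swap_top] at h; rw [swap_LR] at h2 ⊢; exact hc.h_top w e h h2
  h_pq w e h h2 h3 := by
    rw [swap_top] at h; rw [swap_LR] at h3 ⊢; rw [swap_pq] at h2; exact hc.h_pq w e h h2 h3
  h_none w h := by
    simp only [swap_LR] at h; exact hc.h_none w h
  h_else w h h2 := by
    rw [swap_top] at h; rw [swap_pq] at h2; exact hc.h_else w h h2
  T_inj := hc.T_inj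
  T_lev := hc.T_lev
  T_lt := hc.T_lt
  lev_le := hc.lev_le
  lev_nb e h := by simp only [swap_BT] at h; exact hc.lev_nb e h
  lev_btP w e h := by rw [swap_BT] at h; exact hc.lev_btQ w e h
  lev_btQ w e h := by rw [swap_BT] at h; exact hc.lev_btP w e h
  lev_bt w e h := by
    rw [swap_BT] at h
    have := hc.lev_bt w e h
    simp only [swap]; tauto

theorem swap_sq (hs : c.Sq) : c.swap.Sq := ⟨hs.K0, hs.D0, hs.KS, hs.DS, hs.hM⟩

theorem swap_xr (hx : c.XR) : c.swap.XR where
  free e h := by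
    simp only [swap_Ho] at h
    obtain ⟨L, U, h1, h2, h3, h4, h5, h6, h7⟩ := hx.free e h
    refine ⟨-U, -L, ?_, by linarith, by linarith, ?_, ?_, ?_, ?_⟩
    · simp only [swap]; rw [h1]; ring
    · intro g hg; rw [swap_LowC] at hg; have := h5 g hg; simp only [swap]; linarith
    · intro g hg; rw [swap_UpC] at hg; have := h4 g hg; simp only [swap]; linarith
    · rcases h7 with h7 | ⟨g, hg, h7⟩
      · left; rw [h7]
      · right; exact ⟨g, (swap_LowC e g).2 hg, by simp only [swap]; rw [h7]⟩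
    · rcases h6 with h6 | ⟨g, hg, h6⟩
      · left; rw [h6]; norm_num
      · right; exact ⟨g, (swap_UpC e g).2 hg, by simp only [swap]; rw [h6]⟩
  hpq w e h h2 := by
    rw [swap_Ho] at h; rw [swap_pq] at h2
    simp only [swap]; rw [hx.hpq w e h h2]
  hL w e h h2 h3 := by
    rw [swap_Ho] at h; rw [swap_pq] at h2
    simp only [swap] at h3 ⊢; rw [hx.hR w e h h2 h3]; ring
  hR w e h h2 h3 := by
    rw [swap_Ho] at h; rw [swap_pq] at h2
    simp only [swap, not_not] at h3 ⊢; rw [hx.hL w e h h2 h3]; ring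

theorem swap_yr (hy : c.YR) : c.swap.YR where
  nb e h := by simp only [swap_BT] at h; exact hy.nb e h
  bt w e h := by
    rw [swap_BT] at h
    have := hy.bt w e h
    simp only [swap]; linarith

theorem swap_inv {e : E} (hi : c.InvE e) : c.swap.InvE e where
  ERl z g h1 h2 h3 h4 := by
    rw [swap_Prec]; rw [swap_cor] at h3; exact hi.ERr z g h1 h2 h3 h4
  ERr z g h1 h2 h3 h4 := by
    rw [swap_Prec]; rw [swap_cor] at h3; exact hi.ERl z g h1 h2 h3 h4
  ORp z g h1 h2 h3 h4 h5 := by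
    rw [swap_Prec]; rw [swap_cor] at h4; exact hi.ORq z g h1 h2 h3 h4 h5
  ORq z g h1 h2 h3 h4 h5 := by
    rw [swap_Prec]; rw [swap_cor] at h4; exact hi.ORp z g h1 h2 h3 h4 h5
  ORl w g h1 h2 h3 h4 := by
    rw [swap_Prec]; rw [swap_cor] at h3; rw [swap_LR] at h1; exact hi.ORr w g h1 h2 h3 h4
  ORr w g h1 h2 h3 h4 := by
    rw [swap_Prec]; rw [swap_cor] at h3; rw [swap_LR] at h1
    exact hi.ORl w g h1 (not_not.1 h2) h3 h4
  OBq w h := by rw [swap_Prec]; rw [swap_BT] at h; exact hi.OBp w h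
  OBp w h := by rw [swap_Prec]; rw [swap_BT] at h; exact hi.OBq w h
  SBl w g h1 h2 h3 h4 := by
    rw [swap_Prec]; rw [swap_BT] at h1 h2; exact hi.SBr w g h1 h2 h3 h4
  SBr w g h1 h2 h3 h4 := by
    rw [swap_Prec]; rw [swap_BT] at h1 h2; exact hi.SBl w g h1 h2 h3 h4
  bdl := by have := hi.bdr; simp only [swap]; linarith
  bdr := by have := hi.bdl; simp only [swap]; linarith

theorem swap_swap : c.swap.swap = { c with sd := fun e => ¬ ¬ c.sd e, x := fun e => - - c.x e } := rfl

theorem swap_inv' {e : E} (hi : c.swap.InvE e) : c.InvE e := by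
  have := swap_inv hi
  have h : c.swap.swap = c := by
    rw [swap_swap]; simp only [not_not, neg_neg]
  rwa [h] at this

theorem swap_LeftOf (z : V) (e : E) : c.swap.LeftOf z e ↔ c.RightOf z e := by
  unfold LeftOf RightOf
  simp only [swap_cor, swap_x, swap_y]
  constructor
  · rintro ⟨h1, h2⟩
    refine ⟨fun a d ha hd h3 h4 => ?_, fun a ha h3 => ?_⟩
    · have := h1 a d ha hd h3 h4; nlinarith
    · have := h2 a ha h3; linarith
  · rintro ⟨h1, h2⟩
    refine ⟨fun a d ha hd h3 h4 => ?_, fun a ha h3 => ?_⟩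
    · have := h1 a d ha hd h3 h4; nlinarith
    · have := h2 a ha h3; linarith

theorem swap_RightOf (z : V) (e : E) : c.swap.RightOf z e ↔ c.LeftOf z e := by
  unfold LeftOf RightOf
  simp only [swap_cor, swap_x, swap_y]
  constructor
  · rintro ⟨h1, h2⟩
    refine ⟨fun a d ha hd h3 h4 => ?_, fun a ha h3 => ?_⟩
    · have := h1 a d ha hd h3 h4; nlinarith
    · have := h2 a ha h3; linarith
  · rintro ⟨h1, h2⟩
    refine ⟨fun a d ha hd h3 h4 => ?_, fun a ha h3 => ?_⟩
    · have := h1 a d ha hd h3 h4; nlinarith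
    · have := h2 a ha h3; linarith

attribute [simp] swap_host swap_hasL swap_hasR swap_LR swap_BT swap_top swap_pq swap_freed swap_Ho
  swap_cor swap_alive swap_InC swap_Clu swap_Prec swap_LW swap_RW swap_LowC swap_UpC
  swap_LeftOf swap_RightOf

end Cf
end Pool.Agent.Tri
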