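import Pool.Agent.Helper57.Tri.MG

/-! Depths, part A. -/

set_option autoImplicit false

namespace Pool.Agent.Tri
namespace Cf

variable {V E : Type} {c : Cf V E}

/-- Proof: `OBq`, `OBp` of `inv_all`, `nclu_bt` (and Clu_comm), `Prec.half`. -/
theorem bt_x (hc : c.Ok) (hs : c.Sq) (hx : c.XR) {w : V} {e : E} (hw : c.BT w e) :
    c.x (c.Q w) < c.x e ∧ c.x e < c.x (c.P w) := by
  have hi := inv_all hc hs hx e
  have hD := hs.D_pos (c.T e)
  have h1 := Prec.half hs (hi.OBq w hw) (hc.bt_TQ hw)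
    (by rw [Clu_comm]; exact nclu_bt hc hw (hc.memQ w))
  have h2 := Prec.half' hs (hi.OBp w hw) (hc.bt_TP hw) (nclu_bt hc hw (hc.memP w))
  constructor <;> linarith

theorem x_abs (hc : c.Ok) (hs : c.Sq) (hx : c.XR) (e : E) : -1 ≤ c.x e ∧ c.x e ≤ 1 := by
  have hi := inv_all hc hs hx e
  have hD := hs.D_pos (c.T e + 1)
  have h1 := hi.bdl
  have h2 := hi.bdr
  constructor <;> linarith

/-- Proof: strong induction on `T e`; for a bottom edge `y e` is strictly between `y (P w)` and
`y (Q w)` (line equation and `bt_x`) or equal to both. -/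
theorem y_pos (hc : c.Ok) (hs : c.Sq) (hx : c.XR) (hy : c.YR) (e : E) : 0 < c.y e := by
  induction hn : c.T e using Nat.strong_induction_on generalizing e with
  | _ n ih =>
    by_cases hb : ∃ w, c.BT w e
    · obtain ⟨w, hw⟩ := hb
      have hP := ih (c.T (c.P w)) (by rw [← hn]; exact hc.bt_TP hw) (c.P w) rfl
      have hQ := ih (c.T (c.Q w)) (by rw [← hn]; exact hc.bt_TQ hw) (c.Q w) rfl
      obtain ⟨h1, h2⟩ := bt_x hc hs hx hw
      have h3 := hy.bt w e hw
      have h4 : 0 < c.y (c.P w) * (c.x e - c.x (c.Q w)) := mul_pos hP (by linarith)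
      have h5 : 0 < c.y (c.Q w) * (c.x (c.P w) - c.x e) := mul_pos hQ (by linarith)
      have h6 : c.y e * (c.x (c.P w) - c.x (c.Q w)) =
          c.y (c.P w) * (c.x e - c.x (c.Q w)) + c.y (c.Q w) * (c.x (c.P w) - c.x e) := by
        linear_combination -h3
      have h7 : 0 < c.x (c.P w) - c.x (c.Q w) := by linarith
      by_contra hcon
      push Not at hcon
      nlinarith
    · push Not at hb
      rw [hy.nb e hb]
      exact hs.K_pos _

theorem y_ub (hc : c.Ok) (hs : c.Sq) (hx : c.XR) (hy : c.YR) (e : E) :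
    c.y e ≤ c.K (c.T e + 1) := by
  induction hn : c.T e using Nat.strong_induction_on generalizing e with
  | _ n ih =>
    by_cases hb : ∃ w, c.BT w e
    · obtain ⟨w, hw⟩ := hb
      have hTP := hc.bt_TP hw
      have hTQ := hc.bt_TQ hw
      have hP := ih (c.T (c.P w)) (by rw [← hn]; exact hTP) (c.P w) rfl
      have hQ := ih (c.T (c.Q w)) (by rw [← hn]; exact hTQ) (c.Q w) rfl
      have hP' : c.y (c.P w) ≤ c.K (n + 1) := hP.trans (hs.K_mono (by omega))
      have hQ' : c.y (c.Q w) ≤ c.K (n + 1) := hQ.trans (hs.K_mono (by omega))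
      obtain ⟨h1, h2⟩ := bt_x hc hs hx hw
      have h3 := hy.bt w e hw
      have h4 : c.y (c.P w) * (c.x e - c.x (c.Q w)) ≤ c.K (n + 1) * (c.x e - c.x (c.Q w)) :=
        mul_le_mul_of_nonneg_right hP' (by linarith)
      have h5 : c.y (c.Q w) * (c.x (c.P w) - c.x e) ≤ c.K (n + 1) * (c.x (c.P w) - c.x e) :=
        mul_le_mul_of_nonneg_right hQ' (by linarith)
      have h6 : c.y e * (c.x (c.P w) - c.x (c.Q w)) =
          c.y (c.P w) * (c.x e - c.x (c.Q w)) + c.y (c.Q w) * (c.x (c.P w) - c.x e) := by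
        linear_combination -h3
      have h7 : 0 < c.x (c.P w) - c.x (c.Q w) := by linarith
      by_contra hcon
      push Not at hcon
      nlinarith
    · push Not at hb
      rw [hy.nb e hb, hn]

end Cf
end Pool.Agent.Tri
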