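import Pool.Agent.Helper57.Tri.YA

/-! Depths, part B. -/

set_option autoImplicit false

namespace Pool.Agent.Tri
namespace Cf

variable {V E : Type} {c : Cf V E}

/-- Let `e` be a bottom edge of `w` and `P w` the later one of `P w`, `Q w`. Then `x e` is not too close
to `x (Q w)`. Proof: strong induction on `T e`. `e` is free. Let `L, U` be as in `hx.free`.
`L ≥ x (Q w)` (`LowC e (Q w)`), so `x e - x (Q w) ≥ (U - x (Q w)) / 2`; it suffices that
`U - x (Q w) ≥ D (T (P w)) / 2` or `U = x g'` for an earlier sibling `g'` (induction; `T g' + 1 ≤ T e`).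
`U = 1`: `(inv_all (Q w)).bdr`, `T (Q w) + 1 ≤ T (P w)`. `U = x g'`, `UpC e g'`:
`g' = P w`: `ORp` at `P w`, `nclu_Q`.. `Prec.half`. `BT w g'`: induction.
`RW v e`, `cor v g'`: `bt_rw`: `alive v e`, `b1 e < a1 v`. `v ∉ Q w` (bt_b1).
 * `T (P w) < T g'`, `w ∈ g'`: `edge_class`: `BT w g'` (induction).
 * `T (P w) < T g'`, `w ∉ g'`: `w` left of `v` (else `below_late`: `T e < T g'`), `w` alive at `g'`, left,
   `ERl` at `g'` with corner `P w`: `x (P w) ≤ x g'`, and `x (P w) ≥ x (Q w) + D (T (P w)) / 2`.
 * `g' = P w`: the same bound.
 * `T g' < T (P w)`, `w ∈ g'`: `bt_precQ`: `Prec (Q w) g'`, `nclu_Q` (Clu_comm): gap at `s = T (P w)`.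
 * `T g' < T (P w)`, `w ∉ g'`: `w` left of `v` (else `below_late`: `T e < T g'`). `v ∉ P w`: `v` alive at
   `P w`, `a2 v < a2 w < b2 (P w)`, right, `ERr` at `P w`: `x (P w) ≤ x g'`. `v ∈ P w`: `bt_precQ` and
   `ncm` (u := w, v := v, e := P w, g := Q w, g' := g'): gap at `s = T (P w)`. -/
theorem x_lbQ (hc : c.Ok) (hs : c.Sq) (hx : c.XR) {w : V} {e : E} (hw : c.BT w e)
    (hT : c.T (c.Q w) < c.T (c.P w)) :
    c.x (c.Q w) + c.D (c.T (c.P w)) / 2 ^ (c.T e + 2) ≤ c.x e := by
  have hDpos := hs.D_pos (c.T (c.P w))
  have hinv := inv_all hc hs hx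
  have hPQne : c.P w ≠ c.Q w := fun h => by rw [h] at hT; exact lt_irrefl _ hT
  have hxPQ : c.x (c.Q w) + c.D (c.T (c.P w)) / 2 ≤ c.x (c.P w) :=
    ((hinv (c.P w)).ORp w (c.Q w) (hc.memP w) rfl hPQne (Or.inr (Or.inr (Or.inl rfl)))
      hT).half hs hT (hc.nclu_P (hc.memQ w))
  -- powers of two
  have hpow : ∀ n : ℕ, 1 ≤ n → c.D (c.T (c.P w)) / 2 ^ n ≤ c.D (c.T (c.P w)) / 2 := by
    intro n hn
    apply div_le_div_of_nonneg_left hDpos.le (by norm_num)
    calc (2 : ℝ) = 2 ^ 1 := by norm_num
      _ ≤ 2 ^ n := pow_le_pow_right₀ (by norm_num) hn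
  have hmono : ∀ n k : ℕ, n ≤ k →
      c.D (c.T (c.P w)) / 2 ^ k ≤ c.D (c.T (c.P w)) / 2 ^ n := by
    intro n k hnk
    apply div_le_div_of_nonneg_left hDpos.le (by positivity)
    exact pow_le_pow_right₀ (by norm_num) hnk
  -- induction
  have main : ∀ n : ℕ, ∀ e : E, c.T e = n → c.BT w e →
      c.x (c.Q w) + c.D (c.T (c.P w)) / 2 ^ (c.T e + 2) ≤ c.x e := by
    intro n
    induction n using Nat.strong_induction_on with
    | _ n ih =>
    intro e hen hw
    have hfree : ∀ z, ¬ c.Ho z e := fun z hz => hc.LR_nb hz.1 w hw
    obtain ⟨L, U, hxe, hL1, hU1, hLow, hUp, -, hU⟩ := hx.free e hfree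
    have hTQ := hc.bt_TQ hw
    have hTP := hc.bt_TP hw
    have hLQ : c.x (c.Q w) ≤ L := hLow (c.Q w) ⟨hTQ, Or.inr ⟨w, hw, Or.inl rfl⟩⟩
    -- it suffices to bound `U`
    have hkey : c.x (c.Q w) + c.D (c.T (c.P w)) / 2 ^ (c.T e + 1) ≤ U := by
      rcases hU with hU | ⟨g', hg', hU⟩
      · have h1 := (hinv (c.Q w)).bdr
        have h2 : c.D (c.T (c.P w)) ≤ c.D (c.T (c.Q w) + 1) := hs.D_anti hT
        have h3 := hpow (c.T e + 1) (by omega)
        rw [hU]
        linarith
      · rw [hU]
        have hind : c.BT w g' → c.T g' < c.T e →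
            c.x (c.Q w) + c.D (c.T (c.P w)) / 2 ^ (c.T e + 1) ≤ c.x g' := by
          intro h1 h2
          have h3 := ih (c.T g') (by omega) g' rfl h1
          have h4 := hmono (c.T g' + 2) (c.T e + 1) (by omega)
          linarith
        have hP : c.x (c.P w) ≤ c.x g' →
            c.x (c.Q w) + c.D (c.T (c.P w)) / 2 ^ (c.T e + 1) ≤ c.x g' := by
          intro h1
          have h2 := hpow (c.T e + 1) (by omega)
          linarith
        have hgap : c.x (c.Q w) + c.D (c.T (c.P w)) ≤ c.x g' →
            c.x (c.Q w) + c.D (c.T (c.P w)) / 2 ^ (c.T e + 1) ≤ c.x g' := by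
          intro h1
          have h2 := hpow (c.T e + 1) (by omega)
          linarith
        obtain ⟨t2, ⟨v, hv, hcor⟩ | ⟨w', hw', hg'⟩⟩ := hg'
        · -- right witness
          obtain ⟨hal, hb⟩ := hc.bt_rw hw hv
          have hvg' : c.mem v g' := hc.cor_mem hcor
          have hwe : c.mem w e := hw.1.1
          have hwe' := (hc.mem_iff w e).1 hwe
          have h12 : c.a1 w < c.a1 v := by omega
          have hvg1 := (hc.mem_iff v g').1 hvg'
          have hleft : ¬ c.mem w g' → c.a2 v < c.a2 w := by
            intro hn
            by_contra hcon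
            have hne : c.a2 w ≠ c.a2 v := by
              intro h
              have := hc.va2 w v h
              subst this
              exact hn hvg'
            have h2 : c.a2 w < c.a2 v := by omega
            have := hc.below_late h12 h2 hvg' hn hwe
            omega
          have hF : c.T (c.F w) ≤ c.T (c.P w) := hc.F_first (hc.memP w)
          rcases lt_trichotomy (c.T g') (c.T (c.P w)) with ht | ht | ht
          · by_cases hmem : c.mem w g'
            · refine hgap ((bt_precQ hc (fun f _ => hinv f) hw hv hcor t2).gap hT ht ?_)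
              rw [Clu_comm]
              exact hc.nclu_Q hmem
            · have hl := hleft hmem
              have hwP := (hc.mem_iff w (c.P w)).1 (hc.memP w)
              by_cases hvP : c.mem v (c.P w)
              · refine hgap ((bt_precQ hc (fun f _ => hinv f) hw hv hcor t2).gap hT ht ?_)
                refine hc.ncm (u := w) (v := v) ?_ (hc.memP w) hvP (hc.memQ w) hvg' hT ht
                intro h
                subst h
                exact hmem hvg'
              · have hal' : c.alive v (c.P w) := by
                  refine ⟨hvP, ?_, ?_⟩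
                  · have := hc.F_first hvg'
                    omega
                  · obtain ⟨-, -, g, hg, hgT⟩ := hal
                    exact ⟨g, hg, by omega⟩
                have hside : c.b1 (c.P w) < c.a1 v := by
                  rcases hc.alive_side hal' with h | h
                  · exact h
                  · omega
                exact hP ((hinv (c.P w)).ERr v g' hal' hside hcor ht).le
          · have : g' = c.P w := hc.T_inj _ _ ht
            exact hP (le_of_eq (by rw [this]))
          · by_cases hmem : c.mem w g'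
            · rcases hc.edge_class hmem with h | h | h | h | h
              · rw [h] at ht
                omega
              · rw [h] at ht
                omega
              · rw [h] at ht
                omega
              · by_cases hsd : c.sd g'
                · have := hc.LR_Q h hsd
                  omega
                · have := hc.LR_P h hsd
                  omega
              · exact hind h t2
            · have hl := hleft hmem
              have hal' : c.alive w g' := ⟨hmem, by omega, e, hwe, t2⟩
              have hside : c.b2 g' < c.a2 w := by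
                rcases hc.alive_side hal' with h | h
                · omega
                · exact h
              exact hP ((hinv g').ERl w (c.P w) hal' hside (Or.inr (Or.inl rfl)) ht).le
        · have hww : w' = w := hc.host_unique hw'.1 hw.1
          subst hww
          rcases hg' with h | ⟨h, -⟩
          · exact hP (le_of_eq (by rw [h]))
          · exact hind h t2
    have hhalf : c.D (c.T (c.P w)) / 2 ^ (c.T e + 2) =
        c.D (c.T (c.P w)) / 2 ^ (c.T e + 1) / 2 := by
      rw [pow_succ _ (c.T e + 1), div_div]
    rw [hxe, hhalf]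
    linarith
  exact main (c.T e) e rfl hw

end Cf
end Pool.Agent.Tri
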