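import Pool.Agent.Helper57.Tri.YB

/-! Depths, part C. -/

set_option autoImplicit false

namespace Pool.Agent.Tri
namespace Cf

variable {V E : Type} {c : Cf V E}

/-- Proof. `y (P w) = K (T (P w) + 1)` (`last_nb`), `0 < y (Q w) ≤ K (T (Q w) + 1) ≤ K (T (P w))`. From the
line equation `y e = y Q + (y P - y Q) (x e - x Q) / (x P - x Q)`; upper bound by `bt_x`.
Lower bound: `x P - x Q ≤ 2`, `x_lbQ`, `(y P - y Q) ≥ K (T P + 1) / 2`, `K (T P + 1) D (T P) = M K (T P)`,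
`M ≥ 2 ^ (m + 10)`, `T e < m`: `y e ≥ M K (T P) / 2 ^ (T e + 4) > K (T P)`. -/
theorem y_btP (hc : c.Ok) (hs : c.Sq) (hx : c.XR) (hy : c.YR) {w : V} {e : E} (hw : c.BT w e)
    (hT : c.T (c.Q w) < c.T (c.P w)) :
    c.K (c.T (c.P w)) < c.y e ∧ c.y e < c.K (c.T (c.P w) + 1) := by
  have hyP : c.y (c.P w) = c.K (c.T (c.P w) + 1) := hy.nb _ (hc.last_nb hT)
  have hyQ := y_pos hc hs hx hy (c.Q w)
  have hyQ2 : c.y (c.Q w) ≤ c.K (c.T (c.P w)) :=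
    (y_ub hc hs hx hy (c.Q w)).trans (hs.K_mono (by omega))
  have hK := hs.K_lt (Nat.lt_succ_self (c.T (c.P w)))
  have hKpos := hs.K_pos (c.T (c.P w))
  have hKpos1 := hs.K_pos (c.T (c.P w) + 1)
  obtain ⟨h1, h2⟩ := bt_x hc hs hx hw
  have h3 := hy.bt w e hw
  have h6 : c.y e * (c.x (c.P w) - c.x (c.Q w)) =
      c.y (c.P w) * (c.x e - c.x (c.Q w)) + c.y (c.Q w) * (c.x (c.P w) - c.x e) := by
    linear_combination -h3
  have h7 : 0 < c.x (c.P w) - c.x (c.Q w) := by linarith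
  have h8 : c.x (c.P w) - c.x (c.Q w) ≤ 2 := by
    have := (x_abs hc hs hx (c.P w)).2
    have := (x_abs hc hs hx (c.Q w)).1
    linarith
  rw [hyP] at h6
  constructor
  · have h9 := x_lbQ hc hs hx hw hT
    have hKD := hs.KD (c.T (c.P w))
    have hM := hs.hM
    have hTm := hc.T_lt e
    have h10 : (2 : ℝ) ^ (c.T e + 3) ≤ (2 : ℝ) ^ (c.m + 10) :=
      pow_le_pow_right₀ (by norm_num) (by omega)
    have h11 : (0 : ℝ) < 2 ^ (c.T e + 2) := by positivity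
    have h12 : (2 : ℝ) ^ (c.T e + 3) = 2 * 2 ^ (c.T e + 2) := by ring
    have h13 : 2 * c.K (c.T (c.P w)) ≤
        c.K (c.T (c.P w) + 1) * (c.D (c.T (c.P w)) / 2 ^ (c.T e + 2)) := by
      rw [← mul_div_assoc, hKD, le_div_iff₀ h11]
      nlinarith
    have h14 : c.K (c.T (c.P w) + 1) * (c.D (c.T (c.P w)) / 2 ^ (c.T e + 2)) ≤
        c.K (c.T (c.P w) + 1) * (c.x e - c.x (c.Q w)) :=
      mul_le_mul_of_nonneg_left (by linarith) hKpos1.le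
    have h15 : 0 < c.y (c.Q w) * (c.x (c.P w) - c.x e) := mul_pos hyQ (by linarith)
    by_contra hcon
    push Not at hcon
    nlinarith
  · have h15 : c.y (c.Q w) * (c.x (c.P w) - c.x e) <
        c.K (c.T (c.P w) + 1) * (c.x (c.P w) - c.x e) :=
      mul_lt_mul_of_pos_right (lt_of_le_of_lt hyQ2 hK) (by linarith)
    by_contra hcon
    push Not at hcon
    nlinarith

/-- mirror image -/
theorem y_btQ (hc : c.Ok) (hs : c.Sq) (hx : c.XR) (hy : c.YR) {w : V} {e : E} (hw : c.BT w e)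
    (hT : c.T (c.P w) < c.T (c.Q w)) :
    c.K (c.T (c.Q w)) < c.y e ∧ c.y e < c.K (c.T (c.Q w) + 1) := by
  exact y_btP (c := c.swap) (swap_ok hc) (swap_sq hs) (swap_xr hx) (swap_yr hy)
    ((swap_BT w e).2 hw) hT

/-- Summary: the last corner `l` of the host of a bottom edge. -/
theorem bt_last (hc : c.Ok) (hs : c.Sq) (hx : c.XR) (hy : c.YR) {w : V} {e : E} (hw : c.BT w e) :
    ∃ l, ((l = c.P w ∧ c.T (c.Q w) < c.T (c.P w)) ∨ (l = c.Q w ∧ c.T (c.P w) < c.T (c.Q w))) ∧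
      c.T l < c.T e ∧ c.T (c.P w) ≤ c.T l ∧ c.T (c.Q w) ≤ c.T l ∧ c.T (c.F w) < c.T l ∧
      c.mem w l ∧ (∀ z, ¬ c.BT z l) ∧ c.K (c.T l) < c.y e ∧ c.y e < c.K (c.T l + 1) := by
  have hTP := hc.bt_TP hw
  have hTQ := hc.bt_TQ hw
  rcases lt_trichotomy (c.T (c.Q w)) (c.T (c.P w)) with h | h | h
  · obtain ⟨h1, h2⟩ := y_btP hc hs hx hy hw h
    exact ⟨c.P w, Or.inl ⟨rfl, h⟩, hTP, le_rfl, h.le, lt_of_le_of_lt (hc.F_first (hc.memQ w)) h,
      hc.memP w, hc.last_nb h, h1, h2⟩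
  · exact absurd hw (hc.pq_nobt (hc.T_inj _ _ h.symm))
  · obtain ⟨h1, h2⟩ := y_btQ hc hs hx hy hw h
    exact ⟨c.Q w, Or.inr ⟨rfl, h⟩, hTQ, h.le, le_rfl, lt_of_le_of_lt (hc.F_first (hc.memP w)) h,
      hc.memQ w, hc.last_nb' h, h1, h2⟩

end Cf
end Pool.Agent.Tri
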